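import Mathlib

/-! An equivariant acyclic carrier lemma. -/

namespace Pool.Agent.P.MP_7b53ad_ag.Trop

open Module

lemma exists_gauge {B G : Type*} [Group G] [MulAction G B] (triv : B → Prop)
    (htr : ∀ (g : G) b, triv (g • b) ↔ triv b)
    (free : ∀ (g : G) b, ¬triv b → g • b = b → g = 1) :
    ∃ (r : B → B) (γ : B → G), (∀ b, γ b • r b = b) ∧ (∀ (g : G) b, r (g • b) = r b) ∧
      ∀ (g : G) b, ¬triv b → γ (g • b) = g * γ b := by
  let r : B → B := fun b => (Quotient.mk (MulAction.orbitRel G B) b).out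
  have h1 : ∀ b, ∃ g : G, g • r b = b := fun b => by
    have : (MulAction.orbitRel G B).r (r b) b := Quotient.mk_out (s := MulAction.orbitRel G B) b
    exact MulAction.mem_orbit_iff.1 (MulAction.orbitRel_apply.1 ((MulAction.orbitRel G B).symm this))
  choose γ hγ using h1
  have h2 : ∀ (g : G) b, r (g • b) = r b := fun g b => by
    simp only [r]
    congr 1
    exact Quotient.sound (MulAction.orbitRel_apply.2 (MulAction.mem_orbit b g))
  refine ⟨r, γ, hγ, h2, fun g b hb => ?_⟩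
  have e1 := hγ (g • b)
  rw [h2] at e1
  have hr : ¬triv (r b) := by rw [← htr (γ b), hγ]; exact hb
  have e2 : ((g * γ b)⁻¹ * γ (g • b)) • r b = r b := by
    rw [mul_smul, e1, inv_smul_eq_iff, mul_smul, hγ]
  have := free _ _ hr e2
  exact (inv_mul_eq_one.1 this).symm

theorem carrier {B G T : Type*} [Group G] [MulAction G B] [AddCommGroup T] [Module ℚ T]
    (e : Basis B ℚ T) (ρ : G → T →ₗ[ℚ] T) (hρ : ∀ g b, ρ g (e b) = e (g • b))
    (d : T →ₗ[ℚ] T) (hdd : ∀ z, d (d z) = 0) (hdρ : ∀ g z, d (ρ g z) = ρ g (d z))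
    (len : B → ℕ) (hlen : ∀ (g : G) b, len (g • b) = len b)
    (good triv : B → Prop) (hgood : ∀ (g : G) b, good (g • b) ↔ good b)
    (htr : ∀ (g : G) b, triv (g • b) ↔ triv b)
    (free : ∀ (g : G) b, ¬triv b → g • b = b → g = 1)
    (S : Submodule ℚ T) (hS : ∀ g, ∀ z ∈ S, ρ g z ∈ S) (htriv : ∀ b, triv b → e b ∈ S)
    (Car : B → ℕ → Submodule ℚ T) (hCar : ∀ g b k, ∀ z ∈ Car b k, ρ g z ∈ Car (g • b) k)
    (hb : ∀ b, good b → e b ∈ Car b (len b))
    (hface : ∀ b, good b → d (e b) ∈ Submodule.span ℚ (e '' {b' | good b' ∧ len b' + 1 = len b ∧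
      (∀ k, Car b' k ≤ Car b k) ∧ (triv b → triv b')}))
    (n : ℕ)
    (hstep : ∀ b, good b → len b < n → ¬triv b → ∀ z ∈ Car b (len b), d z ∈ S →
      ∃ u ∈ Car b (len b + 1), z - d u ∈ S) :
    ∃ H : T →ₗ[ℚ] T, (∀ g z, H (ρ g z) = ρ g (H z)) ∧ (∀ b, triv b → H (e b) = 0) ∧
      ∀ b, good b → len b < n →
        H (e b) ∈ Car b (len b + 1) ∧ e b - d (H (e b)) - H (d (e b)) ∈ S := by
  classical
  obtain ⟨r, γ, hγ, hr, hγ'⟩ := exists_gauge triv htr free
  have ρmul : ∀ g g' z, ρ (g * g') z = ρ g (ρ g' z) := fun g g' z => by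
    have : ρ (g * g') = ρ g ∘ₗ ρ g' := e.ext fun b => by simp [hρ, mul_smul]
    rw [this]; rfl
  induction n with
  | zero => exact ⟨0, by simp, by simp, by simp⟩
  | succ n ih =>
    obtain ⟨H, hH, hH0, hH1⟩ := ih fun b h1 h2 => hstep b h1 (by omega)
    have key : ∀ b, good b → len b = n → ¬triv b →
        ∃ u ∈ Car b (len b + 1), e b - H (d (e b)) - d u ∈ S := fun b h1 h2 h3 => by
      have a1 : H (d (e b)) ∈ Car b (len b) := by
        refine (Submodule.span_le.2 ?_ : _ ≤ (Car b (len b)).comap H) (hface b h1)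
        rintro _ ⟨b', ⟨g1, g2, g3, -⟩, rfl⟩
        have := (hH1 b' g1 (by omega)).1
        rw [g2] at this
        exact g3 _ this
      have a2 : d (e b) - d (H (d (e b))) - H (d (d (e b))) ∈ S := by
        refine (Submodule.span_le.2 ?_ : _ ≤ S.comap (LinearMap.id - d ∘ₗ H - H ∘ₗ d)) (hface b h1)
        rintro _ ⟨b', ⟨g1, g2, -, -⟩, rfl⟩
        exact (hH1 b' g1 (by omega)).2
      refine hstep b h1 (by omega) h3 _ (sub_mem (hb b h1) a1) ?_
      rw [hdd, map_zero, sub_zero] at a2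
      rwa [map_sub]
    choose! u hu hu' using key
    let H' : T →ₗ[ℚ] T := e.constr ℚ fun b =>
      if good b ∧ len b = n ∧ ¬triv b then ρ (γ b) (u (r b)) else H (e b)
    have e1 : ∀ b, good b ∧ len b = n ∧ ¬triv b → H' (e b) = ρ (γ b) (u (r b)) := fun b h => by
      simp only [H', Basis.constr_basis, if_pos h]
    have e2 : ∀ b, ¬(good b ∧ len b = n ∧ ¬triv b) → H' (e b) = H (e b) := fun b h => by
      simp only [H', Basis.constr_basis, if_neg h]
    have e3 : ∀ b, good b → len b ≤ n → H' (d (e b)) = H (d (e b)) := fun b h1 h2 => by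
      refine (Submodule.span_le.2 ?_ : _ ≤ LinearMap.eqLocus H' H) (hface b h1)
      rintro _ ⟨b', ⟨-, g2, -, -⟩, rfl⟩
      exact e2 b' (by omega)
    refine ⟨H', fun g z => ?_, fun b h => by rw [e2 b (by tauto), hH0 b h], fun b h1 h2 => ?_⟩
    · have : H' ∘ₗ ρ g = ρ g ∘ₗ H' := e.ext fun b => by
        simp only [LinearMap.comp_apply]
        by_cases h : good b ∧ len b = n ∧ ¬triv b
        · rw [e1 b h, hρ, e1 _ (by rwa [hgood, hlen, htr]), hr, hγ' g b h.2.2, ρmul]
        · rw [e2 b h, hρ, e2 _ (by rwa [hgood, hlen, htr]), ← hρ, hH]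
      exact LinearMap.congr_fun this z
    · rw [e3 b h1 (by omega)]
      by_cases h : good b ∧ len b = n ∧ ¬triv b
      · have hrb : good (r b) ∧ len (r b) = n ∧ ¬triv (r b) := by
          rwa [← hgood (γ b), ← hlen (γ b), ← htr (γ b), hγ]
        have b1 := hCar (γ b) _ _ _ (hu _ hrb.1 hrb.2.1 hrb.2.2)
        have b2 := hS (γ b) _ (hu' _ hrb.1 hrb.2.1 hrb.2.2)
        rw [hγ, hrb.2.1, ← h.2.1] at b1
        rw [map_sub, map_sub, ← hH, ← hdρ, ← hdρ, hρ, hγ] at b2
        rw [e1 b h]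
        exact ⟨b1, by rwa [sub_right_comm]⟩
      · rw [e2 b h]
        by_cases h3 : len b < n
        · exact hH1 b h1 h3
        · have h4 : triv b := by
            by_contra h4
            exact h ⟨h1, by omega, h4⟩
          have : H (d (e b)) = 0 := by
            refine (Submodule.span_le.2 ?_ : _ ≤ LinearMap.ker H) (hface b h1)
            rintro _ ⟨b', ⟨-, -, -, g4⟩, rfl⟩
            exact hH0 b' (g4 h4)
          rw [hH0 b h4, this]
          simpa using htriv b h4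

end Pool.Agent.P.MP_7b53ad_ag.Trop
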