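import Mathlib

/-! Ordered chains on a set: cones, boundary, prisms, and the volume cocycle. -/

namespace Pool.Agent.P.MP_7b53ad_ag.Trop

noncomputable section

/-- rational chains of finite lists of points -/
abbrev C (V : Type*) := List V →₀ ℚ

section Basic
variable {V W U : Type*} {X Y : Type*} [AddCommGroup X] [Module ℚ X] [AddCommGroup Y] [Module ℚ Y]

def sg (l : List V) : C V := Finsupp.single l 1

def lin (f : List V → X) : C V →ₗ[ℚ] X := Finsupp.linearCombination ℚ f

@[simp] lemma lin_sg (f : List V → X) (l : List V) : lin f (sg l) = f l := by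
  simp [lin, sg]

lemma ext_sg {f g : C V →ₗ[ℚ] X} (h : ∀ l, f (sg l) = g (sg l)) : f = g := by
  refine Finsupp.lhom_ext' fun l => LinearMap.ext_ring ?_
  simpa [sg] using h l

lemma span_sg : Submodule.span ℚ (Set.range (sg (V := V))) = ⊤ := by
  have := (Finsupp.basisSingleOne (R := ℚ) (ι := List V)).span_eq
  rwa [Finsupp.coe_basisSingleOne] at this

lemma ind_sg {p : C V → Prop} (h0 : p 0) (h1 : ∀ l, p (sg l)) (ha : ∀ a b, p a → p b → p (a + b))
    (hs : ∀ (c : ℚ) a, p a → p (c • a)) (z : C V) : p z := by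
  have : z ∈ Submodule.span ℚ (Set.range (sg (V := V))) := by rw [span_sg]; trivial
  induction this using Submodule.span_induction with
  | mem x hx => obtain ⟨l, rfl⟩ := hx; exact h1 l
  | zero => exact h0
  | add a b _ _ iha ihb => exact ha a b iha ihb
  | smul c a _ ih => exact hs c a ih

def cone (x : V) : C V →ₗ[ℚ] C V := lin fun l => sg (x :: l)

@[simp] lemma cone_sg (x : V) (l : List V) : cone x (sg l) = sg (x :: l) := lin_sg _ _

def bdL : List V → C V
  | [] => 0
  | x :: l => sg l - cone x (bdL l)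

def bd : C V →ₗ[ℚ] C V := lin bdL

@[simp] lemma bd_nil : bd (sg ([] : List V)) = 0 := lin_sg _ _

lemma bd_cone (x : V) (z : C V) : bd (cone x z) = z - cone x (bd z) := by
  have : bd ∘ₗ cone x = LinearMap.id - cone x ∘ₗ bd := ext_sg fun l => by
    simp [bd, bdL]
  exact LinearMap.congr_fun this z

lemma bd_cons (x : V) (l : List V) : bd (sg (x :: l)) = sg l - cone x (bd (sg l)) := by
  rw [← cone_sg, bd_cone]

lemma bd_bd (z : C V) : bd (bd z) = 0 := by
  have : bd ∘ₗ bd = (0 : C V →ₗ[ℚ] C V) := ext_sg fun l => by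
    induction l with
    | nil => simp
    | cons x l ih =>
      simp only [LinearMap.comp_apply, LinearMap.zero_apply] at ih ⊢
      rw [bd_cons, map_sub, bd_cone, ih]; simp
  exact LinearMap.congr_fun this z

def mp (h : V → W) : C V →ₗ[ℚ] C W := lin fun l => sg (l.map h)

@[simp] lemma mp_sg (h : V → W) (l : List V) : mp h (sg l) = sg (l.map h) := lin_sg _ _

lemma mp_cone (h : V → W) (x : V) (z : C V) : mp h (cone x z) = cone (h x) (mp h z) := by
  have : mp h ∘ₗ cone x = cone (h x) ∘ₗ mp h := ext_sg fun l => by simp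
  exact LinearMap.congr_fun this z

lemma bd_mp (h : V → W) (z : C V) : bd (mp h z) = mp h (bd z) := by
  have : bd ∘ₗ mp h = mp h ∘ₗ bd := ext_sg fun l => by
    induction l with
    | nil => simp
    | cons x l ih =>
      simp only [LinearMap.comp_apply, mp_sg] at ih ⊢
      rw [List.map_cons, bd_cons, bd_cons, map_sub, mp_cone, ih, mp_sg]
  exact LinearMap.congr_fun this z

lemma mp_mp (h : V → W) (k : W → U) (z : C V) : mp k (mp h z) = mp (k ∘ h) z := by
  have : mp k ∘ₗ mp h = mp (k ∘ h) := ext_sg fun l => by simp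
  exact LinearMap.congr_fun this z

lemma mp_id (z : C V) : mp id z = z := by
  have : mp id = (LinearMap.id : C V →ₗ[ℚ] C V) := ext_sg fun l => by simp
  exact LinearMap.congr_fun this z

def prL (h : V → V) : List V → C V
  | [] => 0
  | x :: l => sg (x :: (x :: l).map h) - cone x (prL h l)

def pr (h : V → V) : C V →ₗ[ℚ] C V := lin (prL h)

@[simp] lemma pr_nil (h : V → V) : pr h (sg []) = 0 := lin_sg _ _

lemma pr_cone (h : V → V) (x : V) (z : C V) :
    pr h (cone x z) = cone x (cone (h x) (mp h z)) - cone x (pr h z) := by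
  have : pr h ∘ₗ cone x = cone x ∘ₗ cone (h x) ∘ₗ mp h - cone x ∘ₗ pr h := ext_sg fun l => by
    simp [pr, prL]
  exact LinearMap.congr_fun this z

lemma bd_pr (h : V → V) (z : C V) : bd (pr h z) = mp h z - z - pr h (bd z) := by
  have : bd ∘ₗ pr h = mp h - LinearMap.id - pr h ∘ₗ bd := ext_sg fun l => by
    induction l with
    | nil => simp
    | cons x l ih =>
      simp only [LinearMap.comp_apply, LinearMap.sub_apply, LinearMap.id_apply] at ih ⊢
      rw [← cone_sg]
      simp only [pr_cone, bd_cone, map_sub, ih, mp_cone, bd_mp]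
      abel
  exact LinearMap.congr_fun this z

lemma mp_pr (k : V → W) (h : V → V) (h' : W → W) (e : ∀ v, k (h v) = h' (k v)) (z : C V) :
    mp k (pr h z) = pr h' (mp k z) := by
  have : mp k ∘ₗ pr h = pr h' ∘ₗ mp k := ext_sg fun l => by
    induction l with
    | nil => simp
    | cons x l ih =>
      simp only [LinearMap.comp_apply] at ih ⊢
      rw [← cone_sg]
      have e' : k ∘ h = h' ∘ k := funext e
      simp only [pr_cone, map_sub, ih, mp_cone, mp_mp, e, e']
  exact LinearMap.congr_fun this z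

/-- chains of lists of length `n` -/
def deg (V : Type*) (n : ℕ) : Submodule ℚ (C V) := Submodule.span ℚ (sg '' {l | l.length = n})

lemma sg_mem_deg (l : List V) : sg l ∈ deg V l.length := Submodule.subset_span ⟨l, rfl, rfl⟩

lemma sg_mem_deg' {l : List V} {n : ℕ} (h : l.length = n) : sg l ∈ deg V n :=
  Submodule.subset_span ⟨l, h, rfl⟩

lemma deg_le {n : ℕ} {S : Submodule ℚ (C V)} (h : ∀ l : List V, l.length = n → sg l ∈ S) :
    deg V n ≤ S := Submodule.span_le.2 (by rintro _ ⟨l, hl, rfl⟩; exact h l hl)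

lemma map_deg {n : ℕ} {S : Submodule ℚ X} (f : C V →ₗ[ℚ] X)
    (h : ∀ l : List V, l.length = n → f (sg l) ∈ S) {z : C V} (hz : z ∈ deg V n) : f z ∈ S :=
  deg_le (S := S.comap f) h hz

lemma eq_on_deg {n : ℕ} (f g : C V →ₗ[ℚ] X)
    (h : ∀ l : List V, l.length = n → f (sg l) = g (sg l)) {z : C V} (hz : z ∈ deg V n) :
    f z = g z :=
  deg_le (S := LinearMap.eqLocus f g) h hz

lemma cone_deg {n : ℕ} (x : V) {z : C V} (hz : z ∈ deg V n) : cone x z ∈ deg V (n + 1) :=
  map_deg _ (fun l hl => by rw [cone_sg]; exact sg_mem_deg' (by simp [hl])) hz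

lemma mp_deg {n : ℕ} (h : V → W) {z : C V} (hz : z ∈ deg V n) : mp h z ∈ deg W n :=
  map_deg _ (fun l hl => by rw [mp_sg]; exact sg_mem_deg' (by simp [hl])) hz

lemma bd_deg_zero {z : C V} (hz : z ∈ deg V 0) : bd z = 0 :=
  eq_on_deg bd 0 (fun l hl => by rw [List.length_eq_zero_iff.1 hl]; simp) hz

lemma bd_deg {n : ℕ} {z : C V} (hz : z ∈ deg V (n + 1)) : bd z ∈ deg V n := by
  induction n generalizing z with
  | zero =>
    refine map_deg _ (fun l hl => ?_) hz
    obtain ⟨x, rfl⟩ := List.length_eq_one_iff.1 hl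
    rw [bd_cons]; simpa using sg_mem_deg ([] : List V)
  | succ n ih =>
    refine map_deg _ (fun l hl => ?_) hz
    cases l with
    | nil => simp
    | cons x l =>
      have hl' : l.length = n + 1 := by simpa using hl
      rw [bd_cons]
      exact sub_mem (sg_mem_deg' hl') (cone_deg x (ih (sg_mem_deg' hl')))

lemma pr_deg {n : ℕ} (h : V → V) {z : C V} (hz : z ∈ deg V n) : pr h z ∈ deg V (n + 1) := by
  induction n generalizing z with
  | zero =>
    refine map_deg _ (fun l hl => ?_) hz
    rw [List.length_eq_zero_iff.1 hl]; simp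
  | succ n ih =>
    refine map_deg _ (fun l hl => ?_) hz
    cases l with
    | nil => simp
    | cons x l =>
      have hl' : l.length = n := by simpa using hl
      rw [← cone_sg, pr_cone]
      exact sub_mem (cone_deg _ (cone_deg _ (mp_deg _ (sg_mem_deg' hl'))))
        (cone_deg x (ih (sg_mem_deg' hl')))

/-- projection to the part of length `n` -/
def pj (n : ℕ) : C V →ₗ[ℚ] C V := lin fun l => if l.length = n then sg l else 0

lemma pj_sg (n : ℕ) (l : List V) : pj n (sg l) = if l.length = n then sg l else 0 := lin_sg _ _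

lemma pj_mem (n : ℕ) (z : C V) : pj n z ∈ deg V n := by
  induction z using ind_sg with
  | h0 => simp
  | h1 l => rw [pj_sg]; split_ifs with h; exacts [sg_mem_deg' h, zero_mem _]
  | ha a b iha ihb => rw [map_add]; exact add_mem iha ihb
  | hs c a ih => rw [map_smul]; exact Submodule.smul_mem _ _ ih

lemma pj_of_mem {n : ℕ} {z : C V} (hz : z ∈ deg V n) : pj n z = z :=
  eq_on_deg (pj n) LinearMap.id (fun l hl => by simp [pj_sg, hl]) hz

lemma pj_of_ne {n m : ℕ} {z : C V} (hz : z ∈ deg V m) (h : m ≠ n) : pj n z = 0 :=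
  eq_on_deg (pj n) 0 (fun l hl => by simp [pj_sg, hl, h]) hz

lemma pj_mp (n : ℕ) (h : V → W) (z : C V) : pj n (mp h z) = mp h (pj n z) := by
  have : pj n ∘ₗ mp h = mp h ∘ₗ pj n := ext_sg fun l => by
    simp only [LinearMap.comp_apply, mp_sg, pj_sg, List.length_map]
    split_ifs <;> simp
  exact LinearMap.congr_fun this z

lemma pj_bd (n : ℕ) (z : C V) : pj n (bd z) = bd (pj (n + 1) z) := by
  have : pj n ∘ₗ bd = (bd ∘ₗ pj (n + 1) : C V →ₗ[ℚ] C V) := ext_sg fun l => by
    simp only [LinearMap.comp_apply, pj_sg]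
    cases l with
    | nil => simp
    | cons x l =>
      have h1 : bd (sg (x :: l)) ∈ deg V l.length := bd_deg (sg_mem_deg (x :: l))
      by_cases h : l.length = n
      · subst h; rw [if_pos (by simp), pj_of_mem h1]
      · rw [if_neg (by simpa using h), pj_of_ne h1 h, map_zero]
  exact LinearMap.congr_fun this z

/-- the sign `(-1)^length` -/
def sn : C V →ₗ[ℚ] C V := lin fun l => (-1 : ℚ) ^ l.length • sg l

lemma sn_sg (l : List V) : sn (sg l) = (-1 : ℚ) ^ l.length • sg l := lin_sg _ _

lemma sn_deg {n : ℕ} {z : C V} (hz : z ∈ deg V n) : sn z = (-1 : ℚ) ^ n • z :=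
  eq_on_deg sn ((-1 : ℚ) ^ n • LinearMap.id) (fun l hl => by simp [sn_sg, hl]) hz

lemma sn_cone (x : V) (z : C V) : sn (cone x z) = -cone x (sn z) := by
  have : sn ∘ₗ cone x = -(cone x ∘ₗ sn) := ext_sg fun l => by
    simp [sn_sg, pow_succ]
  exact LinearMap.congr_fun this z

lemma sn_bd (z : C V) : sn (bd z) = -bd (sn z) := by
  have : sn ∘ₗ bd = -(bd ∘ₗ sn : C V →ₗ[ℚ] C V) := ext_sg fun l => by
    simp only [LinearMap.comp_apply, LinearMap.neg_apply]
    cases l with
    | nil => simp [sn_sg]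
    | cons x l =>
      rw [sn_deg (bd_deg (sg_mem_deg (x :: l))), sn_sg, map_smul]
      simp [pow_succ]
  exact LinearMap.congr_fun this z

lemma sn_mp (h : V → W) (z : C V) : sn (mp h z) = mp h (sn z) := by
  have : sn ∘ₗ mp h = mp h ∘ₗ sn := ext_sg fun l => by simp [sn_sg]
  exact LinearMap.congr_fun this z

end Basic

section Vol
variable {V W : Type*} [AddCommGroup V] [AddCommGroup W] {A A' : Type*} [Ring A] [Algebra ℚ A]
  [Ring A'] [Algebra ℚ A']

/-- translation -/
def tr (v : V) : C V →ₗ[ℚ] C V := mp fun x => x + v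

lemma tr_tr (u v : V) (z : C V) : tr u (tr v z) = tr (u + v) z := by
  unfold tr; rw [mp_mp]; congr 2; funext x; simp only [Function.comp]; abel

lemma tr_zero (z : C V) : tr (0 : V) z = z := by
  unfold tr; simp only [add_zero]; exact mp_id z

lemma tr_comm (u v : V) (z : C V) : tr u (tr v z) = tr v (tr u z) := by
  rw [tr_tr, tr_tr, add_comm]

@[simp] lemma tr_nil (v : V) : tr v (sg []) = sg [] := by simp [tr]

lemma bd_tr (v : V) (z : C V) : bd (tr v z) = tr v (bd z) := bd_mp _ _

/-- prism along a translation -/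
def pt (v : V) : C V →ₗ[ℚ] C V := pr fun x => x + v

lemma bd_pt (v : V) (z : C V) : bd (pt v z) = tr v z - z - pt v (bd z) := bd_pr _ _

lemma tr_pt (u v : V) (z : C V) : tr u (pt v z) = pt v (tr u z) :=
  mp_pr _ _ _ (fun x => by abel) z

@[simp] lemma pt_nil (v : V) : pt v (sg []) = 0 := pr_nil _

def om (f : V →+ A) (a : V) : C V →ₗ[ℚ] A := lin fun l => (l.map fun v => f (v - a)).prod

@[simp] lemma om_nil (f : V →+ A) (a : V) : om f a (sg []) = 1 := by simp [om]

lemma om_cone (f : V →+ A) (a x : V) (z : C V) : om f a (cone x z) = f (x - a) * om f a z := by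
  have : om f a ∘ₗ cone x = LinearMap.mulLeft ℚ (f (x - a)) ∘ₗ om f a := ext_sg fun l => by
    simp [om]
  exact LinearMap.congr_fun this z

omit [Algebra ℚ A] in
lemma anti {f : V →+ A} (hf : ∀ v, f v * f v = 0) (u v : V) : f u * f v = -(f v * f u) := by
  have := hf (u + v)
  rw [map_add, add_mul, mul_add, mul_add, hf, hf, zero_add, add_zero] at this
  exact eq_neg_of_add_eq_zero_left this

lemma om_shift {f : V →+ A} (hf : ∀ v, f v * f v = 0) (a : V) (z : C V) :
    om f a z = om f 0 z - f a * om f 0 (bd z) := by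
  have : om f a = om f 0 - LinearMap.mulLeft ℚ (f a) ∘ₗ om f 0 ∘ₗ bd := ext_sg fun l => by
    induction l with
    | nil => simp
    | cons x l ih =>
      simp only [LinearMap.comp_apply, LinearMap.sub_apply, LinearMap.mulLeft_apply] at ih ⊢
      rw [← cone_sg, bd_cone, om_cone, ih, om_cone, map_sub (om f 0), om_cone, sub_zero, map_sub]
      have h1 := anti hf a x
      have h2 := hf a
      set s := om f 0 (sg l)
      set t := om f 0 (bd (sg l))
      have : f a * (f x * t) = -(f x * (f a * t)) := by rw [← mul_assoc, h1, neg_mul, mul_assoc]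
      have h3 : f a * (f a * t) = 0 := by rw [← mul_assoc, h2, zero_mul]
      simp only [sub_mul, mul_sub, this, h3]
      abel
  exact LinearMap.congr_fun this z

/-- the volume cocycle -/
def wd (f : V →+ A) : C V →ₗ[ℚ] A := om f 0 ∘ₗ bd

lemma wd_apply (f : V →+ A) (z : C V) : wd f z = om f 0 (bd z) := rfl

lemma wd_bd (f : V →+ A) (z : C V) : wd f (bd z) = 0 := by simp [wd_apply, bd_bd]

@[simp] lemma wd_nil (f : V →+ A) : wd f (sg []) = 0 := by simp [wd_apply]

lemma wd_cone {f : V →+ A} (hf : ∀ v, f v * f v = 0) (x : V) (z : C V) :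
    wd f (cone x z) = om f x z := by
  rw [wd_apply, bd_cone, map_sub, om_cone, sub_zero, om_shift hf x]

lemma wd_cons {f : V →+ A} (hf : ∀ v, f v * f v = 0) (x : V) (l : List V) :
    wd f (sg (x :: l)) = (l.map fun v => f (v - x)).prod := by
  rw [← cone_sg, wd_cone hf, om, lin_sg]

lemma om_tr (f : V →+ A) (a v : V) (z : C V) : om f a (tr v z) = om f (a - v) z := by
  have : om f a ∘ₗ tr v = om f (a - v) := ext_sg fun l => by
    simp only [LinearMap.comp_apply, tr, mp_sg, om, lin_sg, List.map_map]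
    congr 2; funext x; simp only [Function.comp]; congr 1; abel
  exact LinearMap.congr_fun this z

lemma wd_tr {f : V →+ A} (hf : ∀ v, f v * f v = 0) (v : V) (z : C V) :
    wd f (tr v z) = wd f z := by
  rw [wd_apply, bd_tr, om_tr, om_shift hf, bd_bd]; simp [wd_apply]

lemma om_mp (f : V →+ A) (f' : W →+ A') (k : V →+ W) (K : A →ₐ[ℚ] A') (e : ∀ v, K (f v) = f' (k v))
    (z : C V) : om f' 0 (mp k z) = K (om f 0 z) := by
  have : om f' 0 ∘ₗ mp k = K.toLinearMap ∘ₗ om f 0 := ext_sg fun l => by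
    simp only [LinearMap.comp_apply, mp_sg, om, lin_sg, List.map_map, AlgHom.toLinearMap_apply,
      map_list_prod, sub_zero]
    congr 2; funext x; simp [e]
  exact LinearMap.congr_fun this z

lemma wd_mp (f : V →+ A) (f' : W →+ A') (k : V →+ W) (K : A →ₐ[ℚ] A') (e : ∀ v, K (f v) = f' (k v))
    (z : C V) : wd f' (mp k z) = K (wd f z) := by
  rw [wd_apply, bd_mp, om_mp f f' k K e, wd_apply]

lemma om_pt {f : V →+ A} (hf : ∀ v, f v * f v = 0) (v : V) {n : ℕ} {z : C V} (hz : z ∈ deg V n) :
    om f 0 (pt v z) = -((n : ℚ) • (f v * om f 0 z)) := by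
  induction n generalizing z with
  | zero =>
    refine eq_on_deg (om f 0 ∘ₗ pt v) (-(((0 : ℕ) : ℚ) • (LinearMap.mulLeft ℚ (f v) ∘ₗ om f 0)))
      (fun l hl => ?_) hz
    rw [List.length_eq_zero_iff.1 hl]; simp
  | succ n ih =>
    refine eq_on_deg (om f 0 ∘ₗ pt v)
      (-(((n + 1 : ℕ) : ℚ) • (LinearMap.mulLeft ℚ (f v) ∘ₗ om f 0))) (fun l hl => ?_) hz
    cases l with
    | nil => simp at hl
    | cons x l =>
      have hl' : l.length = n := by simpa using hl
      simp only [LinearMap.comp_apply, LinearMap.neg_apply, LinearMap.smul_apply,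
        LinearMap.mulLeft_apply]
      have ih' := ih (sg_mem_deg' hl')
      rw [← cone_sg, pt, pr_cone, map_sub, om_cone, om_cone, om_cone, om_cone, ← pt, ih', ← tr,
        om_tr, om_shift hf (0 - v)]
      simp only [sub_zero, zero_sub, map_neg, map_add]
      have h1 := anti hf v x
      set s := om f 0 (sg l)
      set t := om f 0 (bd (sg l))
      have h2 : f v * (f x * s) = -(f x * (f v * s)) := by rw [← mul_assoc, h1, neg_mul, mul_assoc]
      have h3 : ∀ u y, f u * (f u * y) = 0 := fun u y => by rw [← mul_assoc, hf, zero_mul]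
      simp only [add_mul, mul_add, neg_mul, sub_neg_eq_add, h3, h2, mul_neg, mul_smul_comm,
        mul_zero, Nat.cast_add, Nat.cast_one, add_smul, one_smul, smul_neg]
      abel

lemma wd_pt {f : V →+ A} (hf : ∀ v, f v * f v = 0) (v : V) {n : ℕ} {z : C V} (hz : z ∈ deg V n) :
    wd f (pt v z) = (n : ℚ) • (f v * wd f z) := by
  cases n with
  | zero =>
    refine eq_on_deg (wd f ∘ₗ pt v) (((0 : ℕ) : ℚ) • (LinearMap.mulLeft ℚ (f v) ∘ₗ wd f))
      (fun l hl => ?_) hz
    rw [List.length_eq_zero_iff.1 hl]; simp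
  | succ n =>
    rw [wd_apply, bd_pt, map_sub, map_sub, om_tr, om_shift hf (0 - v), om_pt hf v (bd_deg hz),
      wd_apply]
    simp only [zero_sub, map_neg, neg_mul, Nat.cast_add, Nat.cast_one, add_smul, one_smul]
    abel

/-- span of the products of `n` elements `f v` with `v` in `U` -/
def ex (f : V →+ A) (U : Set V) (n : ℕ) : Submodule ℚ A :=
  Submodule.span ℚ {a | ∃ l : List V, l.length = n ∧ (∀ v ∈ l, v ∈ U) ∧ a = (l.map f).prod}

lemma prod_mem_ex (f : V →+ A) {U : Set V} {n : ℕ} {l : List V} (h : l.length = n)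
    (hU : ∀ v ∈ l, v ∈ U) : (l.map f).prod ∈ ex f U n := Submodule.subset_span ⟨l, h, hU, rfl⟩

lemma map_ex {X : Type*} [AddCommGroup X] [Module ℚ X] {f : V →+ A} {U : Set V} {n : ℕ}
    {S : Submodule ℚ X} (F : A →ₗ[ℚ] X)
    (h : ∀ l : List V, l.length = n → (∀ v ∈ l, v ∈ U) → F (l.map f).prod ∈ S) {a : A}
    (ha : a ∈ ex f U n) : F a ∈ S :=
  (Submodule.span_le.2 (by rintro _ ⟨l, h1, h2, rfl⟩; exact h l h1 h2) : ex f U n ≤ S.comap F) ha

lemma eq_on_ex {X : Type*} [AddCommGroup X] [Module ℚ X] {f : V →+ A} {U : Set V} {n : ℕ}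
    (F G : A →ₗ[ℚ] X)
    (h : ∀ l : List V, l.length = n → (∀ v ∈ l, v ∈ U) → F (l.map f).prod = G (l.map f).prod)
    {a : A} (ha : a ∈ ex f U n) : F a = G a :=
  (Submodule.span_le.2 (by rintro _ ⟨l, h1, h2, rfl⟩; exact h l h1 h2) :
    ex f U n ≤ LinearMap.eqLocus F G) ha

lemma mul_mem_ex (f : V →+ A) {U : Set V} {n : ℕ} {v : V} (hv : v ∈ U) {a : A}
    (ha : a ∈ ex f U n) : f v * a ∈ ex f U (n + 1) :=
  map_ex (LinearMap.mulLeft ℚ (f v)) (fun l h1 h2 => by
    have := prod_mem_ex f (l := v :: l) (n := n + 1) (U := U) (by simp [h1])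
      (by simpa [hv] using h2)
    simpa using this) ha

lemma one_mem_ex (f : V →+ A) (U : Set V) : (1 : A) ∈ ex f U 0 := by
  simpa using prod_mem_ex f (l := []) (U := U) rfl (by simp)

lemma wd_mem_ex {f : V →+ A} (hf : ∀ v, f v * f v = 0) {n : ℕ} {z : C V}
    (hz : z ∈ deg V (n + 1)) : wd f z ∈ ex f Set.univ n :=
  map_deg _ (fun l hl => by
    cases l with
    | nil => simp
    | cons x l =>
      rw [wd_cons hf]
      have := prod_mem_ex f (l := l.map fun v => v - x) (n := n) (U := Set.univ)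
        (by simpa using hl) (by simp)
      simpa [List.map_map, Function.comp_def] using this) hz

end Vol

end

end Pool.Agent.P.MP_7b53ad_ag.Trop
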