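import Mathlib

/-!
Tropical tori `V / Λ` with slope lattice `N`, their `(p, p)`-classes, the eigenwave map and
tropical cycles with rational weights.
-/

namespace Pool.Agent.P.MP_7b53ad_ag.Trop

open TensorProduct ExteriorAlgebra

noncomputable section

/-- rational span: some positive multiple lies in the subgroup generated by `S` -/
def qspan {X : Type} [AddCommGroup X] (S : Set X) : Set X :=
  {x | ∃ m : ℕ, 0 < m ∧ m • x ∈ AddSubgroup.closure S}

variable {V : Type} [AddCommGroup V] [Module ℝ V] {n : ℕ}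

/-- `∧^p L ⊗ ℚ` inside the exterior algebra of `V` -/
def ratPow (L : Submodule ℤ V) (p : ℕ) : Set (ExteriorAlgebra ℝ V) :=
  qspan {a | ∃ v : Fin p → V, (∀ i, v i ∈ L) ∧ a = ιMulti ℝ p v}

/-- tropical homology `H_{p,p}(V / Λ, ℚ) = ∧^p Λ ⊗ ∧^p N ⊗ ℚ` -/
def classes (Λ N : Submodule ℤ V) (p : ℕ) : Set (ExteriorAlgebra ℝ V ⊗[ℝ] ExteriorAlgebra ℝ V) :=
  qspan {w | ∃ a ∈ ratPow Λ p, ∃ b ∈ ratPow N p, w = a ⊗ₜ b}

/-- the eigenwave map `v₁ ∧ ⋯ ∧ v_p ⊗ β ↦ ∑ ± (omit v_j) ⊗ v_j ∧ β`, written with a basis `B`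
and its dual basis -/
def eigenwave {g : ℕ} (B : Module.Basis (Fin g) ℝ V)
    (w : ExteriorAlgebra ℝ V ⊗[ℝ] ExteriorAlgebra ℝ V) :
    ExteriorAlgebra ℝ V ⊗[ℝ] ExteriorAlgebra ℝ V :=
  ∑ k, TensorProduct.map (CliffordAlgebra.contractLeft (Q := 0) (B.coord k))
    (LinearMap.mulLeft ℝ (ι ℝ (B k))) w

/-- the `n`-vector spanned by the edges of an ordered `n`-simplex -/
def edgeVol (τ : Fin (n + 1) → V) : ExteriorAlgebra ℝ V := ιMulti ℝ n fun j => τ j.succ - τ 0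

/-- the open simplex: points with positive barycentric coordinates -/
def openSimplex (τ : Fin (n + 1) → V) : Set V :=
  {x | ∃ t : Fin (n + 1) → ℝ, (∀ i, 0 < t i) ∧ ∑ i, t i = 1 ∧ ∑ i, t i • τ i = x}

open Classical in
/-- `1` or `-1` if `ω` is a positive or negative multiple of `η`, else `0` -/
def orient (η ω : ExteriorAlgebra ℝ V) : ℤ :=
  if ∃ c : ℝ, 0 < c ∧ ω = c • η then 1 else if ∃ c : ℝ, c < 0 ∧ ω = c • η then -1 else 0

/-- signed number of sheets of `τ` with direction `η` through the image of `x` in `V / Λ` -/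
def sheets (Λ : Submodule ℤ V) (η : ExteriorAlgebra ℝ V) (x : V) (τ : Fin (n + 1) → V) : ℤ :=
  orient η (edgeVol τ) * ({l | l ∈ Λ ∧ x + l ∈ openSimplex τ}.ncard : ℤ)

/-- A tropical `(n + 1)`-cycle on `V / Λ` with rational weights: finitely many nondegenerate
simplices `σ`, each with an `N`-rational `(n + 1)`-vector `Z σ` tangent to it, such that the
weights balance along the facets at every point outside the `Λ`-translates of finitely many affine
subspaces of dimension `< n`. -/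
structure IsTropicalCycle (Λ N : Submodule ℤ V) (Z : (Fin (n + 2) → V) →₀ ExteriorAlgebra ℝ V) :
    Prop where
  nondeg : ∀ σ ∈ Z.support, LinearIndependent ℝ fun j : Fin (n + 1) => σ j.succ - σ 0
  rational : ∀ σ, Z σ ∈ ratPow N (n + 1)
  tangent : ∀ σ j, ι ℝ (σ j - σ 0) * Z σ = 0
  balanced : ∃ F : Finset (Finset V), (∀ s ∈ F, s.card ≤ n) ∧
    ∀ x, (∀ s ∈ F, ∀ l ∈ Λ, x + l ∉ affineSpan ℝ (s : Set V)) → ∀ η ≠ 0,
      ∑ σ ∈ Z.support, ∑ j : Fin (n + 2),
        ((-1) ^ (j : ℕ) * sheets Λ η x fun i => σ (j.succAbove i)) • Z σ = 0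

/-- the cycle class `∑ [σ] ⊗ Z σ`, where `[σ]` integrates constant forms over `σ` -/
def cycleClass (Z : (Fin (n + 2) → V) →₀ ExteriorAlgebra ℝ V) :
    ExteriorAlgebra ℝ V ⊗[ℝ] ExteriorAlgebra ℝ V :=
  ∑ σ ∈ Z.support, (((n + 1).factorial : ℝ)⁻¹ • edgeVol σ) ⊗ₜ Z σ

end

end Pool.Agent.P.MP_7b53ad_ag.Trop
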