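import Pool.Agent.P.MP_7b53ad_ag.Trop.Init
import Pool.Agent.P.MP_7b53ad_ag.Trop.Defs

/-! The boundary of a degenerate simplex vanishes at generic points. -/

namespace Pool.Agent.P.MP_7b53ad_ag.Trop

open TensorProduct Module ExteriorAlgebra

noncomputable section

lemma ct_ιMulti {R V : Type*} [CommRing R] [AddCommGroup V] [Module R V] (h : Dual R V) (n : ℕ)
    (v : Fin (n + 1) → V) : ct h (ιMulti R (n + 1) v) =
      ∑ j : Fin (n + 1), ((-1) ^ (j : ℕ) * h (v j)) • ιMulti R n fun i => v (j.succAbove i) := by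
  induction n with
  | zero => simp [ιMulti_succ_apply, ct, CliffordAlgebra.contractLeft_ι,
      Algebra.algebraMap_eq_smul_one]
  | succ n ih =>
    rw [ιMulti_succ_apply, ct_mul, ih, Fin.sum_univ_succ (n := n + 1), Finset.mul_sum, sub_eq_add_neg,
      ← Finset.sum_neg_distrib]
    congr 1
    · simp; rfl
    · refine Finset.sum_congr rfl fun j _ => ?_
      rw [ιMulti_succ_apply, mul_smul_comm, ← neg_smul]
      congr 1
      · simp [pow_succ, Matrix.vecTail]
      · congr 2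
        funext i
        simp [Matrix.vecTail]

lemma bd_ofFn {V : Type*} (n : ℕ) (σ : Fin (n + 1) → V) : bd (sg (List.ofFn σ)) =
    ∑ j : Fin (n + 1), (-1 : ℚ) ^ (j : ℕ) • sg (List.ofFn fun i => σ (j.succAbove i)) := by
  induction n with
  | zero => simp [bd_cons]
  | succ n ih =>
    rw [List.ofFn_succ, bd_cons, ih, Fin.sum_univ_succ (n := n + 1), map_sum, sub_eq_add_neg,
      ← Finset.sum_neg_distrib]
    congr 1
    · simp
    · refine Finset.sum_congr rfl fun j _ => ?_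
      rw [map_smul, cone_sg, List.ofFn_succ (n := n), ← neg_smul]
      simp [pow_succ]

variable {g n : ℕ}

lemma edgeVol_eq (τ : Fin (n + 1) → Pt g) : edgeVol τ = wd (io ℝ) (sg (List.ofFn τ)) := by
  rw [List.ofFn_succ, wd_cons (io_sq ℝ), edgeVol, ιMulti_apply, List.map_ofFn]; rfl

lemma edgeVol_eq' (τ : Fin (n + 1) → Pt g) : edgeVol τ =
    ∑ j : Fin (n + 1), ((-1 : ℝ) ^ (j : ℕ)) • ιMulti ℝ n fun i => τ (j.succAbove i) := by
  rw [edgeVol_eq, wd_apply, bd_ofFn, map_sum]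
  refine Finset.sum_congr rfl fun j _ => ?_
  rw [map_smul, om, lin_sg, ιMulti_apply, List.map_ofFn, ← Rat.cast_smul_eq_qsmul ℝ]
  simp [Function.comp_def]

def hom (x : Pt g) : ℝ × Pt g := (1, x)

def unh : ExteriorAlgebra ℝ (ℝ × Pt g) →ₗ[ℝ] AR g :=
  (ExteriorAlgebra.map (LinearMap.snd ℝ ℝ (Pt g))).toLinearMap ∘ₗ ct (LinearMap.fst ℝ ℝ (Pt g))

lemma unh_ιMulti (τ : Fin (n + 1) → Pt g) :
    unh (ιMulti ℝ (n + 1) fun i => hom (τ i)) = edgeVol τ := by
  rw [unh, LinearMap.comp_apply, ct_ιMulti, map_sum, edgeVol_eq']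
  refine Finset.sum_congr rfl fun j _ => ?_
  simp [hom, map_apply_ιMulti, Function.comp_def]

lemma dep_unique {σ : Fin (n + 2) → Pt g} {k : Fin (n + 2)}
    (hk : edgeVol (fun i => σ (k.succAbove i)) ≠ 0) {c : Fin (n + 2) → ℝ}
    (hc : ∑ j, c j • hom (σ j) = 0) (h0 : c k = 0) (j : Fin (n + 2)) : c j = 0 := by
  have h1 : LinearIndependent ℝ fun i => hom (σ (k.succAbove i)) := by
    by_contra h
    exact hk (by rw [← unh_ιMulti, (ιMulti ℝ (n + 1)).map_linearDependent _ h, map_zero])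
  rw [Fin.sum_univ_succAbove _ k, h0, zero_smul, zero_add] at hc
  have h2 := Fintype.linearIndependent_iff.1 h1 _ hc
  rcases Fin.eq_self_or_eq_succAbove k j with rfl | ⟨i, rfl⟩
  exacts [h0, h2 i]

lemma cramer {σ : Fin (n + 2) → Pt g} {a : Fin (n + 2) → ℝ} (ha : ∑ j, a j • hom (σ j) = 0)
    (ha0 : ∃ j, a j ≠ 0) {k : Fin (n + 2)} (hk : edgeVol (fun i => σ (k.succAbove i)) ≠ 0)
    (j : Fin (n + 2)) : a k • (-1 : ℝ) ^ (j : ℕ) • edgeVol (fun i => σ (j.succAbove i)) =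
      a j • (-1 : ℝ) ^ (k : ℕ) • edgeVol (fun i => σ (k.succAbove i)) := by
  have h0 : ιMulti ℝ (n + 2) (fun i => hom (σ i)) = 0 :=
    (ιMulti ℝ (n + 2)).map_linearDependent _ fun h => by
      obtain ⟨j, hj⟩ := ha0
      exact hj (Fintype.linearIndependent_iff.1 h _ ha j)
  set b : Fin (n + 2) → AR g := fun j => (-1 : ℝ) ^ (j : ℕ) • edgeVol (fun i => σ (j.succAbove i))
  have h1 : ∀ h : Dual ℝ (ℝ × Pt g), ∑ j, h (hom (σ j)) • b j = 0 := fun h => by
    have := congrArg (fun z => unh (ct h z)) h0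
    simp only [ct_ιMulti, map_sum, map_smul, map_zero, unh_ιMulti] at this
    rw [← this]
    exact Finset.sum_congr rfl fun j _ => by rw [smul_smul, mul_comm]
  rw [← sub_eq_zero, ← Module.forall_dual_apply_eq_zero_iff ℝ]
  intro ψ
  have h2 : ∑ j, ψ (b j) • hom (σ j) = 0 := by
    rw [← Module.forall_dual_apply_eq_zero_iff ℝ]
    intro h
    have := congrArg ψ (h1 h)
    simp only [map_sum, map_smul, map_zero, smul_eq_mul] at this ⊢
    rw [← this]
    exact Finset.sum_congr rfl fun j _ => mul_comm _ _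
  have := dep_unique hk (c := fun j => a k * ψ (b j) - ψ (b k) * a j) (by
    simp only [sub_smul, mul_smul, Finset.sum_sub_distrib, ← Finset.smul_sum, h2, ha]; simp)
    (by ring) j
  change ψ (a k • b j - a j • b k) = 0
  rw [map_sub, map_smul ψ (a k), map_smul ψ (a j), smul_eq_mul, smul_eq_mul, mul_comm (a j), this]

/-- barycentric description of a point of an open facet -/
def Fc (σ : Fin (n + 2) → Pt g) (x : Pt g) (j : Fin (n + 2)) : Prop :=
  ∃ t : Fin (n + 2) → ℝ, t j = 0 ∧ (∀ i, i ≠ j → 0 < t i) ∧ ∑ i, t i • hom (σ i) = hom x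

lemma sum_hom {m : ℕ} (t : Fin m → ℝ) (σ : Fin m → Pt g) (x : Pt g) :
    ∑ i, t i • hom (σ i) = hom x ↔ ∑ i, t i = 1 ∧ ∑ i, t i • σ i = x := by
  simp [hom, Prod.ext_iff, Prod.fst_sum, Prod.snd_sum]

lemma Fc_iff (σ : Fin (n + 2) → Pt g) (x : Pt g) (j : Fin (n + 2)) :
    x ∈ openSimplex (fun i => σ (j.succAbove i)) ↔ Fc σ x j := by
  constructor
  · rintro ⟨t, h1, h2⟩
    refine ⟨j.insertNth 0 t, by simp, fun i hi => ?_, ?_⟩
    · obtain ⟨i, rfl⟩ := Fin.exists_succAbove_eq hi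
      simpa using h1 i
    · rw [Fin.sum_univ_succAbove _ j]
      simpa using (sum_hom _ _ _).2 h2
  · rintro ⟨t, h0, h1, h2⟩
    rw [Fin.sum_univ_succAbove _ j, h0, zero_smul, zero_add] at h2
    exact ⟨fun i => t (j.succAbove i), fun i => h1 _ (Fin.succAbove_ne j i), (sum_hom _ _ _).1 h2⟩

lemma radon_card {σ : Fin (n + 2) → Pt g} {x : Pt g} {a : Fin (n + 2) → ℝ}
    (ha : ∑ j, a j • hom (σ j) = 0)
    (hu : ∀ c : Fin (n + 2) → ℝ, ∑ j, c j • hom (σ j) = 0 → ∃ s : ℝ, ∀ j, c j = s * a j)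
    (hx : ∀ t : Fin (n + 2) → ℝ, ∑ i, t i • hom (σ i) = hom x → ∀ j k, t j = 0 → t k = 0 → j = k) :
    {j | 0 < a j ∧ Fc σ x j}.ncard ≤ {j | a j < 0 ∧ Fc σ x j}.ncard := by
  classical
  rcases Set.eq_empty_or_nonempty {j | 0 < a j ∧ Fc σ x j} with h | ⟨j, hj, t, t0, t1, t2⟩
  · simp [h]
  have h1 : {j | 0 < a j ∧ Fc σ x j} = {j} := by
    refine Set.eq_singleton_iff_unique_mem.2 ⟨⟨hj, t, t0, t1, t2⟩, ?_⟩
    rintro k ⟨hk, t', s0, s1, s2⟩
    by_contra hne
    obtain ⟨s, hs⟩ := hu (fun i => t' i - t i) (by simp [sub_smul, t2, s2])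
    have e1 := hs j
    have e2 := hs k
    have e3 := s1 j (Ne.symm hne)
    have e4 := t1 k hne
    have : 0 < s := by nlinarith
    nlinarith
  rw [h1, Set.ncard_singleton, Nat.one_le_iff_ne_zero, Ne, Set.ncard_eq_zero, ← Ne,
    ← Set.nonempty_iff_ne_empty]
  have hs : ∑ i, a i = 0 := by simpa [hom, Prod.fst_sum] using congrArg Prod.fst ha
  have hK : (Finset.univ.filter fun i => a i < 0).Nonempty := by
    by_contra h
    have h2 : ∀ i, 0 ≤ a i := fun i => not_lt.1 fun hi => h ⟨i, by simpa using hi⟩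
    exact hj.ne' ((Finset.sum_eq_zero_iff_of_nonneg fun i _ => h2 i).1 hs j (Finset.mem_univ _))
  obtain ⟨k, hk, hmin⟩ := Finset.exists_min_image _ (fun i => t i / -a i) hK
  have hk' : a k < 0 := by simpa using hk
  have hkj : k ≠ j := fun e => by rw [e] at hk'; exact lt_asymm hk' hj
  have hs0 : 0 < t k / -a k := div_pos (t1 k hkj) (neg_pos.2 hk')
  have e0 : t k + t k / -a k * a k = 0 := by field_simp [hk'.ne]; ring
  have e1 : ∑ i, (t i + t k / -a k * a i) • hom (σ i) = hom x := by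
    simp only [add_smul, mul_smul, Finset.sum_add_distrib, ← Finset.smul_sum, ha, t2]; simp
  refine ⟨k, hk', fun i => t i + t k / -a k * a i, e0, fun i hi => ?_, e1⟩
  change 0 < t i + t k / -a k * a i
  rcases lt_or_ge (a i) 0 with h | h
  · refine lt_of_le_of_ne ?_ fun e => hi (hx _ e1 i k e.symm e0)
    have := (le_div_iff₀ (neg_pos.2 h)).1 (hmin i (by simpa using h))
    linarith
  · by_cases e : i = j
    · rw [e, t0, zero_add]; exact mul_pos hs0 hj
    · exact add_pos_of_pos_of_nonneg (t1 i e) (mul_nonneg hs0.le h)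

lemma orient_eq {η : AR g} (hη : η ≠ 0) (c : ℝ) : orient η (c • η) = SignType.sign c := by
  have h : ∀ c' : ℝ, c • η = c' • η ↔ c' = c := fun c' => ⟨fun e => by
    rw [← sub_eq_zero, ← sub_smul, smul_eq_zero, or_iff_left hη, sub_eq_zero] at e
    exact e.symm, fun e => e ▸ rfl⟩
  rcases lt_trichotomy c 0 with h1 | h1 | h1
  · simp [orient, h, h1, h1.le]
  · simp [orient, h1, hη, eq_comm (a := (0 : AR g))]
  · simp [orient, h, h1]

lemma orient_smul {η : AR g} (hη : η ≠ 0) (c : ℝ) (ω : AR g) :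
    orient η (c • ω) = SignType.sign c * orient η ω := by
  by_cases h : ∃ d : ℝ, ω = d • η
  · obtain ⟨d, rfl⟩ := h
    rw [smul_smul, orient_eq hη, orient_eq hη, sign_mul]; simp
  · have h1 : orient η ω = 0 := by
      rw [orient, if_neg fun ⟨d, _, e⟩ => h ⟨d, e⟩, if_neg fun ⟨d, _, e⟩ => h ⟨d, e⟩]
    rw [h1, mul_zero]
    by_cases hc : c = 0
    · have := orient_eq hη 0
      simpa [hc] using this
    · have h2 : ∀ d : ℝ, c • ω ≠ d • η := fun d e => h ⟨c⁻¹ * d, by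
        rw [mul_smul, ← e, inv_smul_smul₀ hc]⟩
      rw [orient, if_neg fun ⟨d, _, e⟩ => h2 d e, if_neg fun ⟨d, _, e⟩ => h2 d e]

open Classical in
lemma degenerate_point {σ : Fin (n + 2) → Pt g}
    (hσ : ¬LinearIndependent ℝ fun j : Fin (n + 1) => σ j.succ - σ 0) {x : Pt g}
    (hx : ∀ t : Fin (n + 2) → ℝ, ∑ i, t i • hom (σ i) = hom x → ∀ j k, t j = 0 → t k = 0 → j = k)
    {η : AR g} (hη : η ≠ 0) :
    ∑ j : Fin (n + 2), (-1) ^ (j : ℕ) * (orient η (edgeVol fun i => σ (j.succAbove i)) *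
      if x ∈ openSimplex (fun i => σ (j.succAbove i)) then 1 else 0) = 0 := by
  by_cases hk : ∀ k : Fin (n + 2), edgeVol (fun i => σ (k.succAbove i)) = 0
  · have := orient_eq hη 0
    simp only [zero_smul, sign_zero, SignType.coe_zero] at this
    simp [hk, this]
  push Not at hk
  obtain ⟨k, hk⟩ := hk
  obtain ⟨c, hc, j0, hj0⟩ := Fintype.not_linearIndependent_iff.1 hσ
  let a : Fin (n + 2) → ℝ := Fin.cons (-∑ i, c i) c
  have ha : ∑ j, a j • hom (σ j) = 0 := by
    rw [Fin.sum_univ_succ]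
    simp only [smul_sub, Finset.sum_sub_distrib, ← Finset.sum_smul, sub_eq_zero] at hc
    ext <;> simp [a, hom, Prod.fst_sum, Prod.snd_sum, hc]
  have ha0 : ∃ j, a j ≠ 0 := ⟨j0.succ, hj0⟩
  have hak : a k ≠ 0 := fun h => by
    obtain ⟨j, hj⟩ := ha0
    exact hj (dep_unique hk ha h j)
  have hu : ∀ c : Fin (n + 2) → ℝ, ∑ j, c j • hom (σ j) = 0 → ∃ s : ℝ, ∀ j, c j = s * a j :=
    fun c hc => ⟨c k / a k, fun j => sub_eq_zero.1 (dep_unique hk
      (c := fun j => c j - c k / a k * a j) (by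
        simp only [sub_smul, mul_smul, Finset.sum_sub_distrib, ← Finset.smul_sum, hc, ha]; simp)
      (by simp [hak]) j)⟩
  set Ω := (a k)⁻¹ • (-1 : ℝ) ^ (k : ℕ) • edgeVol (fun i => σ (k.succAbove i))
  have h1 : ∀ j : Fin (n + 2), (-1) ^ (j : ℕ) * orient η (edgeVol fun i => σ (j.succAbove i)) =
      SignType.sign (a j) * orient η Ω := fun j => by
    have : (-1 : ℝ) ^ (j : ℕ) • edgeVol (fun i => σ (j.succAbove i)) = a j • Ω := by
      rw [smul_comm, ← cramer ha ha0 hk j, inv_smul_smul₀ hak]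
    rw [← orient_smul hη, ← this, orient_smul hη, sign_pow]; simp
  simp only [← mul_assoc, h1, Fc_iff]
  simp only [mul_assoc, mul_left_comm _ (orient η Ω), ← Finset.mul_sum]
  have h2 := radon_card ha hu hx
  have h3 := radon_card (a := -a) (by simp [ha]) (fun c hc => by
    obtain ⟨s, hs⟩ := hu c hc
    exact ⟨-s, by simpa using hs⟩) hx
  simp only [Pi.neg_apply, neg_pos, neg_lt_zero] at h3
  have h4 : ∀ j, ((SignType.sign (a j) : ℤ) * if Fc σ x j then 1 else 0) =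
      (if 0 < a j ∧ Fc σ x j then 1 else 0) - if a j < 0 ∧ Fc σ x j then 1 else 0 := fun j => by
    rcases lt_trichotomy (a j) 0 with h | h | h <;> by_cases h' : Fc σ x j <;>
      simp [h, h', lt_asymm]
  simp only [h4, Finset.sum_sub_distrib, Finset.sum_boole]
  rw [← Set.ncard_coe_finset, ← Set.ncard_coe_finset]
  simp [le_antisymm h2 h3]

lemma openSimplex_bdd (τ : Fin (n + 1) → Pt g) : Bornology.IsBounded (openSimplex τ) := by
  refine (isBounded_convexHull.2 (Set.finite_range τ).isBounded).subset ?_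
  rintro _ ⟨t, h1, h2, rfl⟩
  exact (convex_convexHull ℝ _).sum_mem (fun i _ => (h1 i).le) h2
    fun i _ => subset_convexHull _ _ ⟨i, rfl⟩

lemma hits_finite (B : Basis (Fin g) ℝ (Pt g)) (τ : Fin (n + 1) → Pt g) (x : Pt g) :
    {l | l ∈ lat B ∧ x + l ∈ openSimplex τ}.Finite := by
  refine (ZSpan.setFinite_inter B ((openSimplex_bdd τ).vadd (-x))).subset fun l hl => ⟨?_, hl.1⟩
  exact ⟨x + l, hl.2, by simp⟩

lemma degenerate_sheets (B : Basis (Fin g) ℝ (Pt g)) {σ : Fin (n + 2) → Pt g}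
    (hσ : ¬LinearIndependent ℝ fun j : Fin (n + 1) => σ j.succ - σ 0) {x : Pt g}
    (hx : ∀ l ∈ lat B, ∀ t : Fin (n + 2) → ℝ, ∑ i, t i • hom (σ i) = hom (x + l) →
      ∀ j k, t j = 0 → t k = 0 → j = k) {η : AR g} (hη : η ≠ 0) :
    ∑ j : Fin (n + 2), (-1) ^ (j : ℕ) * sheets (lat B) η x (fun i => σ (j.succAbove i)) = 0 := by
  classical
  let S : Finset (Pt g) :=
    Finset.univ.biUnion fun j : Fin (n + 2) => (hits_finite B (fun i => σ (j.succAbove i)) x).toFinset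
  have h1 : ∀ j : Fin (n + 2),
      ({l | l ∈ lat B ∧ x + l ∈ openSimplex fun i => σ (j.succAbove i)}.ncard : ℤ) =
      ∑ l ∈ S, if x + l ∈ openSimplex (fun i => σ (j.succAbove i)) then 1 else 0 := fun j => by
    rw [Finset.sum_boole, ← Set.ncard_coe_finset]
    congr 2
    ext l
    simp only [S, Set.mem_ofPred_eq, Finset.coe_filter, Finset.mem_biUnion, Finset.mem_univ,
      Set.Finite.mem_toFinset, true_and]
    exact ⟨fun h => ⟨⟨j, h⟩, h.2⟩, fun ⟨⟨_, h⟩, h'⟩ => ⟨h.1, h'⟩⟩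
  simp only [sheets, h1, Finset.mul_sum]
  rw [Finset.sum_comm]
  refine Finset.sum_eq_zero fun l hl => ?_
  obtain ⟨j, -, hj⟩ := Finset.mem_biUnion.1 hl
  exact degenerate_point hσ (hx l ((Set.Finite.mem_toFinset _).1 hj).1) hη

lemma sheets_add {Λ : Submodule ℤ (Pt g)} {l : Pt g} (hl : l ∈ Λ) (η : AR g) (x : Pt g)
    (τ : Fin (n + 1) → Pt g) : sheets Λ η x (fun i => τ i + l) = sheets Λ η x τ := by
  have h1 : edgeVol (fun i => τ i + l) = edgeVol τ := by simp [edgeVol]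
  have h2 : ∀ y, y + l ∈ openSimplex (fun i => τ i + l) ↔ y ∈ openSimplex τ := fun y =>
    exists_congr fun t => and_congr_right fun _ => and_congr_right fun h => by
      simp [smul_add, Finset.sum_add_distrib, ← Finset.sum_smul, h]
  have h3 : {l' | l' ∈ Λ ∧ x + l' ∈ openSimplex fun i => τ i + l} =
      (fun l' => l' + l) '' {l' | l' ∈ Λ ∧ x + l' ∈ openSimplex τ} := by
    ext y
    constructor
    · rintro ⟨a, b⟩
      exact ⟨y - l, ⟨sub_mem a hl, (h2 _).1 (by simpa [add_assoc] using b)⟩, by simp⟩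
    · rintro ⟨y, ⟨a, b⟩, rfl⟩
      exact ⟨add_mem a hl, by rw [← add_assoc]; exact (h2 _).2 b⟩
  rw [sheets, sheets, h1, h3, Set.ncard_image_of_injective _ (add_left_injective l)]

end

end Pool.Agent.P.MP_7b53ad_ag.Trop
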