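import Pool.Agent.P.MP_7b53ad_ag.Trop.Star

/-! The initial cycle attached to a class killed by the eigenwave. -/

namespace Pool.Agent.P.MP_7b53ad_ag.Trop

open TensorProduct Module ExteriorAlgebra

noncomputable section

variable {g : ℕ}

abbrev WW (g : ℕ) := AR g ⊗[ℝ] AR g

def phi : WW g →ₗ[ℝ] WW g :=
  ∑ k, TensorProduct.map (ct (LinearMap.proj k)) (LinearMap.mulLeft ℝ (ι ℝ (ee k)))

def ik (B : Basis (Fin g) ℝ (Pt g)) (k : Fin g) : WW g →ₗ[ℝ] WW g :=
  TensorProduct.map (ct (B.coord k)) LinearMap.id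

def rk (v : Pt g) : WW g →ₗ[ℝ] WW g := TensorProduct.map LinearMap.id (LinearMap.mulLeft ℝ (ι ℝ v))

def lk (v : Pt g) : WW g →ₗ[ℝ] WW g := TensorProduct.map (LinearMap.mulLeft ℝ (ι ℝ v)) LinearMap.id

variable (B : Basis (Fin g) ℝ (Pt g))

lemma phi_eq (w : WW g) : phi w = ∑ k, rk (B k) (ik B k w) := by
  have h1 : ∀ l, (LinearMap.proj l : Dual ℝ (Pt g)) = ∑ k, B k l • B.coord k := fun l =>
    LinearMap.ext fun v => by
      have := congrFun (B.sum_repr v) l
      simp only [Finset.sum_apply, Pi.smul_apply, smul_eq_mul] at this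
      simp [← this, mul_comm]
  have : phi = ∑ k, rk (B k) ∘ₗ ik B k := ext' fun a b => by
    simp only [phi, LinearMap.sum_apply, map_tmul, LinearMap.mulLeft_apply, LinearMap.comp_apply,
      rk, ik, LinearMap.id_apply]
    conv_rhs => enter [2, k]; rw [sum_ee (B k), map_sum, Finset.sum_mul, tmul_sum]
    rw [Finset.sum_comm]
    refine Finset.sum_congr rfl fun l _ => ?_
    rw [h1 l, ct, map_sum, LinearMap.sum_apply, sum_tmul]
    refine Finset.sum_congr rfl fun k _ => ?_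
    rw [map_smul, map_smul, smul_mul_assoc, tmul_smul, LinearMap.smul_apply, smul_tmul']
    rfl
  rw [this, LinearMap.sum_apply]; rfl

lemma ik_ik (i k : Fin g) (w : WW g) : ik B i (ik B k w) = -ik B k (ik B i w) := by
  have : ik B i ∘ₗ ik B k = -(ik B k ∘ₗ ik B i) := ext' fun a b => by
    simp only [ik, LinearMap.comp_apply, map_tmul, LinearMap.id_apply, LinearMap.neg_apply]
    rw [ct_comm, neg_tmul]
  exact LinearMap.congr_fun this w

lemma rk_ik (v : Pt g) (k : Fin g) (w : WW g) : rk v (ik B k w) = ik B k (rk v w) := by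
  have : rk v ∘ₗ ik B k = ik B k ∘ₗ rk v := ext' fun a b => by simp [ik, rk]
  exact LinearMap.congr_fun this w

lemma phi_ik (k : Fin g) {w : WW g} (h : phi w = 0) : phi (ik B k w) = 0 := by
  rw [phi_eq B] at h ⊢
  simp only [ik_ik B _ k, map_neg, rk_ik B _ k, Finset.sum_neg_distrib, ← map_sum, h, map_zero,
    neg_zero]

def cls (U : Set (Pt g)) (n : ℕ) (U' : Set (Pt g)) (p : ℕ) : Submodule ℚ (WW g) :=
  Submodule.span ℚ {w | ∃ a ∈ ex (io ℝ) U n, ∃ b ∈ ex (io ℝ) U' p, w = a ⊗ₜ b}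

lemma tmul_cls {U U' : Set (Pt g)} {n p : ℕ} {a b : AR g} (ha : a ∈ ex (io ℝ) U n)
    (hb : b ∈ ex (io ℝ) U' p) : a ⊗ₜ b ∈ cls U n U' p := Submodule.subset_span ⟨a, ha, b, hb, rfl⟩

lemma map_cls {X : Type*} [AddCommGroup X] [Module ℚ X] {U U' : Set (Pt g)} {n p : ℕ}
    {S : Submodule ℚ X} (F : WW g →ₗ[ℚ] X)
    (h : ∀ a ∈ ex (io ℝ) U n, ∀ b ∈ ex (io ℝ) U' p, F (a ⊗ₜ b) ∈ S) {w : WW g}
    (hw : w ∈ cls U n U' p) : F w ∈ S :=
  (Submodule.span_le.2 (by rintro _ ⟨a, ha, b, hb, rfl⟩; exact h a ha b hb) :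
    cls U n U' p ≤ S.comap F) hw

/-- the period lattice -/
abbrev lat : Submodule ℤ (Pt g) := Submodule.span ℤ (Set.range B)

lemma ik_cls (k : Fin g) {U' : Set (Pt g)} {n p : ℕ} {w : WW g}
    (hw : w ∈ cls (lat B) (n + 1) U' p) : ik B k w ∈ cls (lat B) n U' p :=
  map_cls ((ik B k).restrictScalars ℚ) (fun a ha b hb => tmul_cls
    (ct_ex _ (fun u hu => by
      obtain ⟨m, hm⟩ := (B.mem_span_iff_repr_mem ℤ u).1 hu k
      exact ⟨m, by simpa using hm.symm⟩) ha) hb) hw

lemma euler {U : Set (Pt g)} {n : ℕ} {a : AR g} (ha : a ∈ ex (io ℝ) U n) :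
    ∑ k, ι ℝ (B k) * ct (B.coord k) a = (n : ℚ) • a := by
  have := eq_on_ex ((∑ k, LinearMap.mulLeft ℝ (ι ℝ (B k)) ∘ₗ ct (B.coord k)).restrictScalars ℚ)
    ((n : ℚ) • LinearMap.id) (fun l hl hl' => ?_) ha
  · simpa using this
  subst hl
  clear ha hl'
  simp only [LinearMap.restrictScalars_apply, LinearMap.sum_apply, LinearMap.comp_apply,
    LinearMap.mulLeft_apply, LinearMap.smul_apply, LinearMap.id_apply]
  induction l with
  | nil => simp [ct_one]
  | cons x l ih =>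
    simp only [List.map_cons, List.prod_cons, io_apply, ct_mul, mul_sub, ι_mul_ι _ x,
      sub_neg_eq_add, Finset.sum_add_distrib, ← Finset.mul_sum, ih, mul_smul_comm,
      List.length_cons, Nat.cast_add, Nat.cast_one, add_smul, one_smul, ← smul_mul_assoc,
      ← Finset.sum_mul, ← map_smul, ← map_sum, Basis.coord_apply, B.sum_repr]
    rw [add_comm, add_mul, smul_mul_assoc]

lemma euler' {U U' : Set (Pt g)} {n p : ℕ} {w : WW g} (hw : w ∈ cls U n U' p) :
    ∑ k, lk (B k) (ik B k w) = (n : ℚ) • w := by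
  have := map_cls (S := ⊥) ((∑ k, lk (B k) ∘ₗ ik B k).restrictScalars ℚ - (n : ℚ) • LinearMap.id)
    (fun a ha b _ => by
      simp only [LinearMap.sub_apply, LinearMap.restrictScalars_apply, LinearMap.sum_apply,
        LinearMap.comp_apply, lk, ik, map_tmul, LinearMap.mulLeft_apply, LinearMap.id_apply,
        LinearMap.smul_apply, ← sum_tmul, euler B ha, smul_tmul', sub_self, zero_mem]) hw
  simpa [sub_eq_zero] using this

def eps : WW g →ₗ[ℝ] AR g :=
  (TensorProduct.lid ℝ _).toLinearMap ∘ₗ TensorProduct.map algebraMapInv.toLinearMap LinearMap.id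

lemma eps_tmul (a b : AR g) : eps (a ⊗ₜ b) = algebraMapInv a • b := by simp [eps]

lemma eps_rk (v : Pt g) (w : WW g) : eps (rk v w) = ι ℝ v * eps w := by
  have : eps ∘ₗ rk v = LinearMap.mulLeft ℝ (ι ℝ v) ∘ₗ eps := ext' fun a b => by
    simp [rk, eps_tmul]
  exact LinearMap.congr_fun this w

lemma ex_zero {U : Set (Pt g)} {a : AR g} (ha : a ∈ ex (io ℝ) U 0) : ∃ c : ℚ, a = c • 1 := by
  have : LinearMap.id (R := ℚ) a ∈ Submodule.span ℚ {(1 : AR g)} := map_ex _ (fun l hl _ => by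
    rw [List.length_eq_zero_iff.1 hl]; exact Submodule.mem_span_singleton_self _) ha
  obtain ⟨c, hc⟩ := Submodule.mem_span_singleton.1 this
  exact ⟨c, hc.symm⟩

lemma eps_cls {U U' : Set (Pt g)} {p : ℕ} {w : WW g} (hw : w ∈ cls U 0 U' p) :
    eps w ∈ ex (io ℝ) U' p ∧ (1 : AR g) ⊗ₜ eps w = w := by
  have h : ∀ (c : ℚ) (b : AR g), eps ((c • (1 : AR g)) ⊗ₜ b) = c • b := fun c b => by
    rw [← smul_tmul', LinearMap.map_smul_of_tower, eps_tmul]; simp
  refine ⟨map_cls (eps.restrictScalars ℚ) (fun a ha b hb => ?_) hw, ?_⟩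
  · obtain ⟨c, rfl⟩ := ex_zero ha
    rw [LinearMap.restrictScalars_apply, h]
    exact Submodule.smul_mem _ _ hb
  · have := map_cls (S := ⊥) ((mk ℝ _ _ 1 ∘ₗ eps).restrictScalars ℚ - LinearMap.id)
      (fun a ha b _ => by
        obtain ⟨c, rfl⟩ := ex_zero ha
        simp only [LinearMap.sub_apply, LinearMap.restrictScalars_apply, LinearMap.comp_apply, h,
          mk_apply, LinearMap.id_apply, tmul_smul, smul_tmul', sub_self, zero_mem]) hw
    simpa [sub_eq_zero] using this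

def cb (F : AR g →ₗ[ℚ] AE g) (u : Fin g → Module.End ℚ (AE g)) :
    ℕ → (WW g →ₗ[ℚ] C (Pt g) ⊗[ℚ] AE g)
  | 0 => mk ℚ _ _ (sg [0]) ∘ₗ F ∘ₗ eps.restrictScalars ℚ
  | n + 1 => ∑ k, TensorProduct.map (pt (B k)) (u k) ∘ₗ cb F u n ∘ₗ (ik B k).restrictScalars ℚ

lemma cb_zero (F : AR g →ₗ[ℚ] AE g) (u : Fin g → Module.End ℚ (AE g)) (w : WW g) :
    cb B F u 0 w = sg [0] ⊗ₜ F (eps w) := rfl

lemma cb_succ (F : AR g →ₗ[ℚ] AE g) (u : Fin g → Module.End ℚ (AE g)) (n : ℕ) (w : WW g) :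
    cb B F u (n + 1) w = ∑ k, TensorProduct.map (pt (B k)) (u k) (cb B F u n (ik B k w)) := by
  simp [cb]

def TS (n q : ℕ) : Submodule ℚ (C (Pt g) ⊗[ℚ] AE g) :=
  Submodule.span ℚ {w | ∃ x : List (Pt g), x.length = n ∧
    ∃ a ∈ ex (io ℚ) Set.univ q, w = sg x ⊗ₜ a}

lemma map_TS {X : Type*} [AddCommGroup X] [Module ℚ X] {n q : ℕ} {S : Submodule ℚ X}
    (F : C (Pt g) ⊗[ℚ] AE g →ₗ[ℚ] X)
    (h : ∀ x : List (Pt g), x.length = n → ∀ a ∈ ex (io ℚ) Set.univ q, F (sg x ⊗ₜ a) ∈ S) {w}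
    (hw : w ∈ TS n q) : F w ∈ S :=
  (Submodule.span_le.2 (by rintro _ ⟨x, hx, a, ha, rfl⟩; exact h x hx a ha) :
    TS n q ≤ S.comap F) hw

lemma tmul_TS {n q : ℕ} {z : C (Pt g)} (hz : z ∈ deg _ n) {a : AE g}
    (ha : a ∈ ex (io ℚ) Set.univ q) : z ⊗ₜ a ∈ TS n q :=
  map_deg (S := TS n q) ((mk ℚ _ _).flip a)
    (fun l hl => Submodule.subset_span (by exact ⟨l, hl, a, ha, rfl⟩)) hz

/-- evaluation of a chain with exterior coefficients -/
def evb : C (Pt g) ⊗[ℚ] AE g →ₗ[ℚ] WW g :=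
  TensorProduct.lift (((mk ℝ (AR g) (AR g)).restrictScalars₁₂ ℚ ℚ).compl₁₂ (wd (io ℝ))
    (st.restrictScalars ℚ ∘ₗ jE.toLinearMap))

lemma evb_tmul (z : C (Pt g)) (a : AE g) : evb (z ⊗ₜ a) = wd (io ℝ) z ⊗ₜ st (jE a) := by
  simp [evb]

lemma mem_Jb {Λ : Submodule ℤ (Pt g)} {l : Pt g} (hl : l ∈ Λ) (z) :
    TensorProduct.map (tr l) (Sh l) z - z ∈ Jb Λ := Submodule.subset_span (Or.inl ⟨l, hl, z, rfl⟩)

lemma pt_Jb {Λ : Submodule ℤ (Pt g)} (v : Pt g) {u : Module.End ℚ (AE g)}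
    (hu : ∀ l' a, u (Sh l' a) = Sh l' (u a)) {z} (hz : z ∈ Jb Λ) :
    TensorProduct.map (pt v) u z ∈ Jb Λ := by
  refine (Submodule.span_le.2 ?_ : Jb Λ ≤ (Jb Λ).comap (TensorProduct.map (pt v) u)) hz
  rintro _ (⟨l, hl, z, rfl⟩ | ⟨a, rfl⟩)
  · have : TensorProduct.map (pt v) u ∘ₗ TensorProduct.map (tr l) (Sh l) =
        TensorProduct.map (tr l) (Sh l) ∘ₗ TensorProduct.map (pt v) u :=
      ext' fun x a => by simp [hu, tr_pt]
    have e := LinearMap.congr_fun this z
    simp only [LinearMap.comp_apply] at e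
    rw [SetLike.mem_coe, Submodule.mem_comap, map_sub, e]
    exact mem_Jb hl _
  · simp

theorem exists_init {p q : ℕ} (hpq : p + q = g) {n : ℕ} {w : WW g}
    (hw : w ∈ cls (lat B) n (QQ g) p) (h0 : phi w = 0) :
    ∃ c ∈ TS (n + 1) q, dx c ∈ Jb (lat B) ∧ evb c = ((n.factorial : ℚ) ^ 2) • w := by
  obtain ⟨F, hF⟩ := exists_lift (g := g)
  obtain ⟨hF1, hF2⟩ := hF p q hpq
  choose u hu1 hu2 hu3 hu4 hu5 using fun k => exists_uu (B k)
  have hm : ∀ n, ∀ w ∈ cls (lat B) n (QQ g) p, cb B F u n w ∈ TS (n + 1) q := fun n => by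
    induction n with
    | zero => exact fun w hw => tmul_TS (sg_mem_deg' (by simp)) (hF1 _ (eps_cls hw).1).1
    | succ n ih =>
      intro w hw
      rw [cb_succ]
      exact sum_mem fun k _ => map_TS _ (fun x hx a ha =>
        tmul_TS (pr_deg _ (sg_mem_deg' hx)) (hu5 k q a ha)) (ih _ (ik_cls B k hw))
  have hX : ∀ n, ∀ w ∈ cls (lat B) (n + 1) (QQ g) p, phi w = 0 →
      ∑ k, TensorProduct.map LinearMap.id (DD (B k)) (cb B F u n (ik B k w)) = 0 := fun n => by
    induction n with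
    | zero =>
      intro w hw h0
      simp only [cb_zero, map_tmul, LinearMap.id_apply, ← tmul_sum]
      rw [hF2 B _ (fun k => (eps_cls (ik_cls B k hw)).1), tmul_zero]
      simp only [← eps_rk, ← map_sum, ← phi_eq, h0, map_zero]
    | succ n ih =>
      intro w hw h0
      simp only [cb_succ, map_sum]
      rw [Finset.sum_comm]
      refine Finset.sum_eq_zero fun i _ => ?_
      have e : ∀ k z, TensorProduct.map LinearMap.id (DD (B k))
          (TensorProduct.map (pt (B i)) (u i) z) = TensorProduct.map (pt (B i)) (u i)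
            (TensorProduct.map LinearMap.id (DD (B k)) z) := fun k z => by
        have : TensorProduct.map LinearMap.id (DD (B k)) ∘ₗ TensorProduct.map (pt (B i)) (u i) =
          TensorProduct.map (pt (B i)) (u i) ∘ₗ TensorProduct.map LinearMap.id (DD (B k)) :=
          ext' fun x a => by simp [hu2]
        exact LinearMap.congr_fun this z
      simp only [e, ik_ik B i, map_neg, Finset.sum_neg_distrib, ← map_sum,
        ih _ (ik_cls B i hw) (phi_ik B i h0), map_zero, neg_zero]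
  have hd : ∀ n, ∀ w ∈ cls (lat B) n (QQ g) p, phi w = 0 → dx (cb B F u n w) ∈ Jb (lat B) :=
    fun n => by
    induction n with
    | zero =>
      intro w _ _
      refine Submodule.subset_span (Or.inr ⟨F (eps w), ?_⟩)
      simp [cb_zero, dx, bd_cons]
    | succ n ih =>
      intro w hw h0
      have e : ∀ k z, dx (TensorProduct.map (pt (B k)) (u k) z) =
          (TensorProduct.map (tr (B k)) (Sh (B k))
            (TensorProduct.map LinearMap.id (Sh (-B k) ∘ₗ u k) z) -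
            TensorProduct.map LinearMap.id (Sh (-B k) ∘ₗ u k) z) +
          TensorProduct.map LinearMap.id (DD (B k)) z -
          TensorProduct.map (pt (B k)) (u k) (dx z) := fun k z => by
        have : dx ∘ₗ TensorProduct.map (pt (B k)) (u k) =
          (TensorProduct.map (tr (B k)) (Sh (B k)) ∘ₗ
            TensorProduct.map LinearMap.id (Sh (-B k) ∘ₗ u k) -
            TensorProduct.map LinearMap.id (Sh (-B k) ∘ₗ u k)) +
          TensorProduct.map LinearMap.id (DD (B k)) -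
          TensorProduct.map (pt (B k)) (u k) ∘ₗ dx := ext' fun x a => by
            simp only [dx, LinearMap.comp_apply, map_tmul, LinearMap.id_apply, LinearMap.sub_apply,
              LinearMap.add_apply, bd_pt, Sh_Sh, add_neg_cancel, Sh_zero, ← hu1, sub_tmul,
              tmul_sub]
            abel
        exact LinearMap.congr_fun this z
      rw [cb_succ, map_sum]
      simp only [e, Finset.sum_sub_distrib, Finset.sum_add_distrib, hX n w hw h0, add_zero]
      rw [← Finset.sum_sub_distrib]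
      exact sub_mem (sum_mem fun k _ => mem_Jb (Submodule.subset_span (Set.mem_range_self k)) _)
        (sum_mem fun k _ => pt_Jb _ (hu3 k) (ih _ (ik_cls B k hw) (phi_ik B k h0)))
  have he : ∀ n, ∀ w ∈ cls (lat B) n (QQ g) p,
      evb (cb B F u n w) = ((n.factorial : ℚ) ^ 2) • w := fun n => by
    induction n with
    | zero =>
      intro w hw
      rw [cb_zero, evb_tmul, (hF1 _ (eps_cls hw).1).2, wd_cons (io_sq ℝ)]
      simpa using (eps_cls hw).2
    | succ n ih =>
      intro w hw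
      have e : ∀ k, ∀ z ∈ TS (n + 1) q, evb (TensorProduct.map (pt (B k)) (u k) z) =
          ((n + 1 : ℕ) : ℚ) • lk (B k) (evb z) := fun k z hz => by
        have := map_TS (S := ⊥) (evb ∘ₗ TensorProduct.map (pt (B k)) (u k) -
          ((n + 1 : ℕ) : ℚ) • (lk (B k)).restrictScalars ℚ ∘ₗ evb) (fun x hx a _ => by
            simp only [LinearMap.sub_apply, LinearMap.comp_apply, map_tmul, evb_tmul, hu4,
              wd_pt (io_sq ℝ) (B k) (sg_mem_deg' hx), LinearMap.smul_apply, lk,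
              LinearMap.restrictScalars_apply, LinearMap.mulLeft_apply, LinearMap.id_apply,
              io_apply, smul_tmul', sub_self, zero_mem]) hz
        simpa [sub_eq_zero] using this
      rw [cb_succ, map_sum]
      rw [Finset.sum_congr rfl fun k _ => by
        rw [e k _ (hm _ _ (ik_cls B k hw)), ih _ (ik_cls B k hw), LinearMap.map_smul_of_tower,
          smul_smul]]
      rw [← Finset.smul_sum, euler' B hw, smul_smul, Nat.factorial_succ]
      congr 1; push_cast; ring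
  exact ⟨_, hm n w hw, hd n w hw h0, he n w hw⟩

end

end Pool.Agent.P.MP_7b53ad_ag.Trop
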