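import Pool.Agent.P.MP_7b53ad_ag.Trop.Wang
import Pool.Agent.P.MP_7b53ad_ag.Trop.Carrier

/-! The join complex of points and affine functions; the straight pairs are acyclic. -/

namespace Pool.Agent.P.MP_7b53ad_ag.Trop

open TensorProduct Module

noncomputable section

section Join
variable {X Y : Type*} {Z : Type*} [AddCommGroup Z] [Module ℚ Z]

abbrev T (X Y : Type*) := C X ⊗[ℚ] C Y

abbrev Pr (X Y : Type*) := List X × List Y

def basT (X Y : Type*) : Basis (Pr X Y) ℚ (T X Y) :=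
  Basis.tensorProduct Finsupp.basisSingleOne Finsupp.basisSingleOne

lemma basT_apply (b : Pr X Y) : basT X Y b = sg b.1 ⊗ₜ sg b.2 := by
  simp [basT, Basis.tensorProduct_apply', sg]

def sp (p : Pr X Y → Prop) : Submodule ℚ (T X Y) := Submodule.span ℚ (basT X Y '' {b | p b})

lemma mem_sp {p : Pr X Y → Prop} {x : List X} {y : List Y} (h : p (x, y)) :
    sg x ⊗ₜ sg y ∈ sp p := Submodule.subset_span ⟨(x, y), h, basT_apply _⟩

lemma map_sp {p : Pr X Y → Prop} {S : Submodule ℚ Z} (F : T X Y →ₗ[ℚ] Z)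
    (h : ∀ x y, p (x, y) → F (sg x ⊗ₜ sg y) ∈ S) {z : T X Y} (hz : z ∈ sp p) : F z ∈ S :=
  (Submodule.span_le.2 (by
    rintro _ ⟨b, hb, rfl⟩; rw [basT_apply]; exact h b.1 b.2 hb) : sp p ≤ S.comap F) hz

lemma eq_on_sp {p : Pr X Y → Prop} (F G : T X Y →ₗ[ℚ] Z)
    (h : ∀ x y, p (x, y) → F (sg x ⊗ₜ sg y) = G (sg x ⊗ₜ sg y)) {z : T X Y} (hz : z ∈ sp p) :
    F z = G z := map_sp (S := LinearMap.eqLocus F G) LinearMap.id h hz

lemma sp_mono {p q : Pr X Y → Prop} (h : ∀ b, p b → q b) : sp p ≤ sp q :=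
  Submodule.span_mono (Set.image_mono h)

lemma sp_and {p q : Pr X Y → Prop} {z : T X Y} (hp : z ∈ sp p) (hq : z ∈ sp q) :
    z ∈ sp fun b => p b ∧ q b := by
  rw [sp, Basis.mem_span_image] at *
  exact fun b hb => ⟨hp hb, hq hb⟩

lemma sp_fin {p : Pr X Y → Prop} {z : T X Y} (hp : z ∈ sp p) :
    ∃ F : Finset (Pr X Y), z ∈ sp fun b => p b ∧ b ∈ F :=
  ⟨((basT X Y).repr z).support, sp_and hp ((basT X Y).mem_span_repr_support z)⟩

lemma mem_sp_true (z : T X Y) : z ∈ sp fun _ => True := by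
  rw [sp, Basis.mem_span_image]; exact fun _ _ => trivial

lemma tmul_mem_sp {p : Pr X Y → Prop} {S₁ : Set (List X)} {S₂ : Set (List Y)} {a : C X} {b : C Y}
    (ha : a ∈ Submodule.span ℚ (sg '' S₁)) (hb : b ∈ Submodule.span ℚ (sg '' S₂))
    (h : ∀ x ∈ S₁, ∀ y ∈ S₂, p (x, y)) : a ⊗ₜ b ∈ sp p := by
  induction ha using Submodule.span_induction with
  | mem a ha =>
    obtain ⟨x, hx, rfl⟩ := ha
    induction hb using Submodule.span_induction with
    | mem b hb => obtain ⟨y, hy, rfl⟩ := hb; exact mem_sp (h x hx y hy)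
    | zero => simp
    | add b c _ _ i1 i2 => rw [tmul_add]; exact add_mem i1 i2
    | smul c b _ i => rw [tmul_smul]; exact Submodule.smul_mem _ _ i
  | zero => simp
  | add a c _ _ i1 i2 => rw [add_tmul]; exact add_mem i1 i2
  | smul c a _ i => rw [← smul_tmul']; exact Submodule.smul_mem _ _ i

lemma bd_mem_faces (l : List X) :
    bd (sg l) ∈ Submodule.span ℚ (sg '' {l' | l'.Sublist l ∧ l'.length + 1 = l.length}) := by
  induction l with
  | nil => simp
  | cons x l ih =>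
    rw [bd_cons]
    refine sub_mem (Submodule.subset_span ⟨l, ⟨by simp, by simp⟩, rfl⟩) ?_
    refine Submodule.mem_comap.1 ((Submodule.span_le.2 ?_ : _ ≤ Submodule.comap (cone x) _) ih)
    rintro _ ⟨l', ⟨h1, h2⟩, rfl⟩
    rw [SetLike.mem_coe, Submodule.mem_comap, cone_sg]
    exact Submodule.subset_span ⟨x :: l', ⟨h1.cons_cons x, by simp [h2]⟩, rfl⟩

def dx {W : Type*} [AddCommGroup W] [Module ℚ W] : C X ⊗[ℚ] W →ₗ[ℚ] C X ⊗[ℚ] W :=
  map bd LinearMap.id

def dy : T X Y →ₗ[ℚ] T X Y := map LinearMap.id bd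

def dT : T X Y →ₗ[ℚ] T X Y := dx + map sn bd

lemma dT_tmul (a : C X) (b : C Y) : dT (a ⊗ₜ b) = bd a ⊗ₜ b + sn a ⊗ₜ bd b := by
  simp [dT, dx]

lemma dT_dT (z : T X Y) : dT (dT z) = 0 := by
  have : dT ∘ₗ dT = (0 : T X Y →ₗ[ℚ] T X Y) := ext' fun a b => by
    simp [dT_tmul, bd_bd, sn_bd, neg_tmul]
  exact LinearMap.congr_fun this z

lemma dx_dx {W : Type*} [AddCommGroup W] [Module ℚ W] (z : C X ⊗[ℚ] W) : dx (dx z) = 0 := by
  have : dx ∘ₗ dx = (0 : C X ⊗[ℚ] W →ₗ[ℚ] _) := ext' fun a b => by simp [dx, bd_bd]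
  exact LinearMap.congr_fun this z

lemma dx_dy (z : T X Y) : dx (dy z) = dy (dx z) := by
  have : dx ∘ₗ dy = (dy ∘ₗ dx : T X Y →ₗ[ℚ] T X Y) := ext' fun a b => by simp [dx, dy]
  exact LinearMap.congr_fun this z

lemma dx_mem_sp {p : Pr X Y → Prop} (x : List X) (y : List Y)
    (h1 : ∀ x', x'.Sublist x → x'.length + 1 = x.length → p (x', y)) :
    dx (sg x ⊗ₜ sg y) ∈ sp p :=
  tmul_mem_sp (S₂ := {y}) (bd_mem_faces x) (Submodule.subset_span ⟨y, rfl, rfl⟩)
    (by rintro x' ⟨a, b⟩ _ rfl; exact h1 x' a b)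

lemma dy_mem_sp {p : Pr X Y → Prop} (x : List X) (y : List Y)
    (h2 : ∀ y', y'.Sublist y → y'.length + 1 = y.length → p (x, y')) :
    dy (sg x ⊗ₜ sg y) ∈ sp p :=
  tmul_mem_sp (S₁ := {x}) (Submodule.subset_span ⟨x, rfl, rfl⟩) (bd_mem_faces y)
    (by rintro _ rfl y' ⟨a, b⟩; exact h2 y' a b)

lemma dT_sg (x : List X) (b : C Y) :
    dT (sg x ⊗ₜ b) = dx (sg x ⊗ₜ b) + (-1 : ℚ) ^ x.length • dy (sg x ⊗ₜ b) := by
  rw [dT_tmul, sn_sg, ← smul_tmul']; rfl

lemma dT_mem_sp {p : Pr X Y → Prop} (x : List X) (y : List Y)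
    (h1 : ∀ x', x'.Sublist x → x'.length + 1 = x.length → p (x', y))
    (h2 : ∀ y', y'.Sublist y → y'.length + 1 = y.length → p (x, y')) :
    dT (sg x ⊗ₜ sg y) ∈ sp p := by
  rw [dT_sg]
  exact add_mem (dx_mem_sp x y h1) (Submodule.smul_mem _ _ (dy_mem_sp x y h2))

lemma dT_of_deg {n : ℕ} {z : T X Y} (hz : z ∈ sp fun b => b.1.length = n) :
    dT z = dx z + (-1 : ℚ) ^ n • dy z :=
  eq_on_sp dT (dx + (-1 : ℚ) ^ n • dy) (fun x y h => by rw [dT_sg, ← h]; rfl) hz

def kx (a : X) : T X Y →ₗ[ℚ] T X Y := map (cone a) LinearMap.id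

def ky (a : Y) : T X Y →ₗ[ℚ] T X Y := map LinearMap.id (cone a)

lemma dT_kx (a : X) (z : T X Y) : dT (kx a z) = z - kx a (dT z) := by
  have : dT ∘ₗ kx a = (LinearMap.id - kx a ∘ₗ dT : T X Y →ₗ[ℚ] T X Y) := ext' fun u v => by
    simp only [LinearMap.comp_apply, kx, map_tmul, dT_tmul, LinearMap.id_apply, bd_cone, sn_cone,
      LinearMap.sub_apply, map_add, sub_tmul, neg_tmul]
    abel
  exact LinearMap.congr_fun this z

lemma dT_ky (a : Y) {z : T X Y} (hz : z ∈ sp fun b => b.1 = []) :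
    dT (ky a z) = z - ky a (dT z) :=
  eq_on_sp (dT ∘ₗ ky a) (LinearMap.id - ky a ∘ₗ dT) (fun x y h => by
    obtain rfl : x = [] := h
    simp [ky, dT_tmul, sn_sg, bd_cons, tmul_sub]) hz

def len (b : Pr X Y) : ℕ := b.1.length + b.2.length

lemma dT_len {k : ℕ} {z : T X Y} (hz : z ∈ sp fun b => len b ≤ k + 1) :
    dT z ∈ sp fun b => len b ≤ k :=
  map_sp _ (fun x y h => dT_mem_sp x y (fun x' _ e => by simp only [len] at *; omega)
    (fun y' _ e => by simp only [len] at *; omega)) hz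

/-- projection to a bidegree -/
def pp (a b : ℕ) : T X Y →ₗ[ℚ] T X Y := map (pj a) (pj b)

lemma pp_sg (a b : ℕ) (x : List X) (y : List Y) :
    pp a b (sg x ⊗ₜ sg y) = if x.length = a ∧ y.length = b then sg x ⊗ₜ sg y else 0 := by
  simp only [pp, map_tmul, pj_sg]
  by_cases h1 : x.length = a <;> by_cases h2 : y.length = b <;> simp [h1, h2]

lemma pp_sp {p : Pr X Y → Prop} (a b : ℕ) {z : T X Y} (hz : z ∈ sp p) :
    pp a b z ∈ sp fun s => p s ∧ s.1.length = a ∧ s.2.length = b :=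
  map_sp _ (fun x y h => by
    rw [pp_sg]; split_ifs with h'; exacts [mem_sp ⟨h, h'⟩, zero_mem _]) hz

lemma pp_of_mem {a b : ℕ} {z : T X Y} (hz : z ∈ sp fun s => s.1.length = a ∧ s.2.length = b) :
    pp a b z = z :=
  eq_on_sp (pp a b) LinearMap.id (fun x y h => by rw [pp_sg, if_pos h]; rfl) hz

lemma pp_of_ne {a b : ℕ} {z : T X Y} (hz : z ∈ sp fun s => s.1.length ≠ a) : pp a b z = 0 :=
  eq_on_sp (pp a b) 0 (fun x y h => by rw [pp_sg, if_neg fun h' => h h'.1]; rfl) hz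

lemma pj_sn (n : ℕ) (z : C X) : pj n (sn z) = (-1 : ℚ) ^ n • pj n z := by
  have : pj n ∘ₗ sn = ((-1 : ℚ) ^ n • pj n : C X →ₗ[ℚ] C X) := ext_sg fun l => by
    simp only [LinearMap.comp_apply, sn_sg, map_smul, pj_sg, LinearMap.smul_apply]
    split_ifs with h <;> simp [h]
  exact LinearMap.congr_fun this z

lemma pp_dT (a b : ℕ) (z : T X Y) :
    pp a b (dT z) = dx (pp (a + 1) b z) + (-1 : ℚ) ^ a • dy (pp a (b + 1) z) := by
  have : pp a b ∘ₗ dT = (dx ∘ₗ pp (a + 1) b + (-1 : ℚ) ^ a • dy ∘ₗ pp a (b + 1) :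
      T X Y →ₗ[ℚ] T X Y) := ext' fun u v => by
    simp [dT_tmul, pp, dx, dy, pj_bd, pj_sn, smul_tmul']
  exact LinearMap.congr_fun this z

end Join

section Str
variable {g : ℕ}

abbrev Pt (g : ℕ) := Fin g → ℝ

abbrev M (g : ℕ) := Fin g → ℚ

abbrev E (g : ℕ) := M g × ℝ

/-- pairing of a rational slope with a point -/
def pa (x : Pt g) : M g →ₗ[ℚ] ℝ where
  toFun m := ∑ i, (m i : ℝ) * x i
  map_add' a b := by simp [add_mul, Finset.sum_add_distrib]
  map_smul' c a := by simp [Finset.mul_sum, Rat.smul_def, mul_assoc]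

lemma pa_apply (x : Pt g) (m : M g) : pa x m = ∑ i, (m i : ℝ) * x i := rfl

lemma pa_add (x x' : Pt g) (m : M g) : pa (x + x') m = pa x m + pa x' m := by
  simp [pa_apply, mul_add, Finset.sum_add_distrib]

lemma pa_smul (s : ℝ) (x : Pt g) (m : M g) : pa (s • x) m = s * pa x m := by
  simp [pa_apply, Finset.mul_sum, mul_left_comm]

lemma pa_zero (m : M g) : pa (0 : Pt g) m = 0 := by simp [pa_apply]

/-- value of an affine function -/
def ev (y : E g) (x : Pt g) : ℝ := pa x y.1 + y.2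

def str (b : Pr (Pt g) (E g)) : Prop := ∀ x ∈ b.1, ∀ y ∈ b.2, ∀ y' ∈ b.2, ev y x = ev y' x

lemma str_sub {x x' : List (Pt g)} {y y' : List (E g)} (h : str (x, y)) (h1 : x'.Sublist x)
    (h2 : y'.Sublist y) : str (x', y') :=
  fun a ha b hb c hc => h a (h1.subset ha) b (h2.subset hb) c (h2.subset hc)

lemma exists_generic (Y0 : Finset (E g)) : ∃ s : E g, ∀ y : List (E g), (∀ e ∈ y, e ∈ Y0) →
    y.length ≤ g → ((1 : ℚ), s.1) ∉ Submodule.span ℚ ((fun e : E g => ((1 : ℚ), e.1)) '' {e | e ∈ y}) := by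
  classical
  let F : Finset (Subspace ℚ (ℚ × M g)) := insert (LinearMap.ker (LinearMap.fst ℚ ℚ (M g)))
    ((Y0.powerset.filter fun t => t.card ≤ g).image fun t =>
      Submodule.span ℚ ((t.image fun e : E g => ((1 : ℚ), e.1) : Finset _) : Set (ℚ × M g)))
  have hF : ⊤ ∉ F := by
    intro h
    rcases Finset.mem_insert.1 h with h | h
    · have : ((1 : ℚ), (0 : M g)) ∈ LinearMap.ker (LinearMap.fst ℚ ℚ (M g)) := h ▸ trivial
      simp at this
    · obtain ⟨t, ht, e⟩ := Finset.mem_image.1 h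
      have h1 := finrank_span_finset_le_card (R := ℚ) (t.image fun e : E g => ((1 : ℚ), e.1))
      rw [Set.finrank, e, finrank_top] at h1
      have h2 := (Finset.mem_filter.1 ht).2
      have h3 := Finset.card_image_le (s := t) (f := fun e : E g => ((1 : ℚ), e.1))
      simp at h1
      omega
  obtain ⟨v, hv⟩ := (Set.ne_univ_iff_exists_notMem _).1 (Subspace.biUnion_ne_univ_of_top_notMem hF)
  simp only [Set.mem_iUnion, not_exists, SetLike.mem_coe] at hv
  have h0 : v.1 ≠ 0 := fun h => hv _ (Finset.mem_insert_self _ _) h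
  refine ⟨(v.1⁻¹ • v.2, 0), fun y hy hl hm => ?_⟩
  refine hv _ (Finset.mem_insert_of_mem (Finset.mem_image_of_mem _ (Finset.mem_filter.2
    ⟨Finset.mem_powerset.2 (fun e he => hy e (List.mem_toFinset.1 he)),
      (List.toFinset_card_le y).trans hl⟩))) ?_
  have := Submodule.smul_mem _ v.1 hm
  have e : v.1 • ((1 : ℚ), v.1⁻¹ • v.2) = v := by
    ext <;> simp [h0]
  rw [e] at this
  simpa using this

lemma exists_common {s : E g} {y : List (E g)} {x : Pt g}
    (hs : ((1 : ℚ), s.1) ∉ Submodule.span ℚ ((fun e : E g => ((1 : ℚ), e.1)) '' {e | e ∈ y}))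
    (hx : ∀ e ∈ y, ∀ e' ∈ y, ev e x = ev e' x) :
    ∃ a : Pt g, ∀ e ∈ s :: y, ∀ e' ∈ s :: y, ev e a = ev e' a := by
  obtain ⟨φ, h1, h2⟩ := Submodule.exists_dual_map_eq_bot_of_notMem hs inferInstance
  have h3 : ∀ e ∈ y, φ (1, e.1) = 0 := fun e he => by
    have : φ (1, e.1) ∈ Submodule.map φ
        (Submodule.span ℚ ((fun e : E g => ((1 : ℚ), e.1)) '' {e | e ∈ y})) :=
      Submodule.mem_map_of_mem (Submodule.subset_span ⟨e, he, rfl⟩)
    rwa [h2, Submodule.mem_bot] at this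
  let n : Pt g := fun i => (φ (0, Pi.single i 1) : ℝ)
  have h4 : ∀ m : M g, pa n m = (φ (1, m) : ℝ) - φ (1, 0) := fun m => by
    have : ((1 : ℚ), m) = (1, 0) + ∑ i, m i • ((0 : ℚ), (Pi.single i 1 : M g)) := by
      ext j
      · simp [Prod.fst_sum]
      · simp [Prod.snd_sum, Pi.single_apply]
    rw [this, map_add, map_sum]
    simp only [map_smul]
    simp [pa_apply, n]
  cases y with
  | nil => exact ⟨x, by simp⟩
  | cons e0 y =>
    let c : ℝ := (ev e0 x - ev s x) / (φ (1, s.1) : ℝ)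
    have hφ : (φ (1, s.1) : ℝ) ≠ 0 := by exact_mod_cast h1
    have key : ∀ e ∈ s :: e0 :: y, ev e (x + c • n) = ev e0 x - c * φ (1, 0) := fun e he => by
      rcases List.mem_cons.1 he with rfl | he
      · rw [ev, pa_add, pa_smul, h4, mul_sub, div_mul_cancel₀ _ hφ]
        simp only [ev]; ring
      · rw [ev, pa_add, pa_smul, h4, h3 e he, ← hx e he e0 (by simp)]
        simp only [ev]; push_cast; ring
    exact ⟨x + c • n, fun e he e' he' => by rw [key e he, key e' he']⟩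

theorem str_acyclic {k : ℕ} (hk : k ≤ g + 1) {z : T (Pt g) (E g)}
    (hz : z ∈ sp fun b => str b ∧ len b ≤ k) (hd : dT z = 0) :
    ∃ u ∈ sp fun b => str b ∧ len b ≤ k + 1, dT u = z := by
  classical
  obtain ⟨F, hF⟩ := sp_fin hz
  let Y0 : Finset (E g) := F.biUnion fun b => b.2.toFinset
  obtain ⟨s, hs⟩ := exists_generic Y0
  let G := (⊥ : Subgroup (Equiv.Perm (Pr (Pt g) (E g))))
  have hG : ∀ (γ : G) (b : Pr (Pt g) (E g)), γ • b = b := fun γ b => by
    rw [Subsingleton.elim γ 1, one_smul]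
  obtain ⟨H, -, -, hH⟩ := carrier (G := G) (basT (Pt g) (E g)) (fun _ => LinearMap.id)
    (fun γ b => by rw [hG]; rfl) dT dT_dT (fun _ _ => rfl) len (fun γ b => by rw [hG])
    (fun b => str b ∧ ∀ e ∈ b.2, e ∈ Y0) (fun _ => False) (fun γ b => by rw [hG])
    (fun _ _ => Iff.rfl) (fun γ _ _ _ => Subsingleton.elim γ 1) ⊥ (fun _ _ h => h)
    (fun _ h => h.elim)
    (fun b k => sp fun c => str c ∧ (∀ e ∈ c.2, e ∈ s :: b.2) ∧ (b.1 = [] → c.1 = []) ∧ len c ≤ k)
    (fun γ b k z h => by rw [hG]; exact h)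
    (fun b hb => by
      rw [basT_apply]
      exact mem_sp ⟨hb.1, fun e he => List.mem_cons_of_mem _ he, id, le_rfl⟩)
    (fun b hb => by
      rw [basT_apply]
      refine dT_mem_sp b.1 b.2 (fun x' h1 h2 => ⟨⟨str_sub hb.1 h1 (List.Sublist.refl _), hb.2⟩,
        by simp only [len]; omega, fun k => sp_mono fun c hc => ⟨hc.1, hc.2.1, fun h => hc.2.2.1 ?_,
          hc.2.2.2⟩, id⟩) (fun y' h1 h2 => ⟨⟨str_sub hb.1 (List.Sublist.refl _) h1,
          fun e he => hb.2 e (h1.subset he)⟩, by simp only [len]; omega,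
          fun k => sp_mono fun c hc => ⟨hc.1, fun e he => (h1.cons_cons s).subset (hc.2.1 e he),
          hc.2.2⟩, id⟩)
      rw [h] at h1
      exact List.sublist_nil.1 h1)
    (k + 1)
    (fun b hb hl _ z hz hdz => by
      rw [Submodule.mem_bot] at hdz
      obtain ⟨x, y⟩ := b
      cases x with
      | nil =>
        refine ⟨ky s z, map_sp _ (fun x' y' h => ?_) hz, ?_⟩
        · obtain rfl : x' = [] := h.2.2.1 rfl
          simp only [ky, map_tmul, LinearMap.id_apply, cone_sg]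
          refine mem_sp ⟨fun _ h => by simp at h, fun e he => ?_, fun _ => rfl, ?_⟩
          · rcases List.mem_cons.1 he with rfl | he
            exacts [List.mem_cons_self, h.2.1 e he]
          · have := h.2.2.2
            simp only [len, List.length_cons] at *; omega
        · rw [dT_ky s (sp_mono (fun c hc => hc.2.2.1 rfl) hz), hdz]; simp
      | cons x0 x =>
        have hy : y.length ≤ g := by simp only [len, List.length_cons] at hl; omega
        obtain ⟨a, ha⟩ := exists_common (hs y hb.2 hy) (hb.1 x0 List.mem_cons_self)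
        refine ⟨kx a z, map_sp _ (fun x' y' h => ?_) hz, ?_⟩
        · simp only [kx, map_tmul, LinearMap.id_apply, cone_sg]
          refine mem_sp ⟨fun v hv e he e' he' => ?_, h.2.1, fun h => by simp at h, ?_⟩
          · rcases List.mem_cons.1 hv with rfl | hv
            exacts [ha e (h.2.1 e he) e' (h.2.1 e' he'), h.1 v hv e he e' he']
          · have := h.2.2.2
            simp only [len, List.length_cons] at *; omega
        · rw [dT_kx, hdz]; simp)
  have hY : ∀ x y, (str (x, y) ∧ len (x, y) ≤ k) ∧ (x, y) ∈ F →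
      (str (x, y) ∧ ∀ e ∈ y, e ∈ Y0) ∧ len (x, y) < k + 1 := fun x y h =>
    ⟨⟨h.1.1, fun e he => Finset.mem_biUnion.2 ⟨_, h.2, List.mem_toFinset.2 he⟩⟩,
      Nat.lt_succ_of_le h.1.2⟩
  refine ⟨H z, map_sp H (fun x y h => ?_) hF, ?_⟩
  · have := (hH _ (hY x y h).1 (hY x y h).2).1
    rw [basT_apply] at this
    exact sp_mono (fun c hc => ⟨hc.1, hc.2.2.2.trans (Nat.succ_le_succ h.1.2)⟩) this
  · have := map_sp (S := ⊥) (LinearMap.id - dT ∘ₗ H - H ∘ₗ dT) (fun x y h => by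
      have := (hH _ (hY x y h).1 (hY x y h).2).2
      rwa [basT_apply] at this) hF
    simp only [LinearMap.sub_apply, LinearMap.id_apply, LinearMap.comp_apply, hd, map_zero,
      sub_zero, Submodule.mem_bot] at this
    exact (sub_eq_zero.1 this).symm

end Str

end

end Pool.Agent.P.MP_7b53ad_ag.Trop
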