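import Pool.Agent.P.MP_7b53ad_ag.Trop.Straight

/-! Lifting a cycle with exterior coefficients to the join complex. -/

namespace Pool.Agent.P.MP_7b53ad_ag.Trop

open TensorProduct Module

noncomputable section

variable {g : ℕ} {Λ : Submodule ℤ (Pt g)}

abbrev AE (g : ℕ) := ExteriorAlgebra ℚ (E g)

def Sh (l : Pt g) : AE g →ₗ[ℚ] AE g := (ExteriorAlgebra.map (sh l)).toLinearMap

lemma Sh_Sh (l l' : Pt g) (a : AE g) : Sh l (Sh l' a) = Sh (l + l') a := by
  have : sh l ∘ₗ sh l' = sh (l + l') := LinearMap.ext (sh_sh l l')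
  rw [Sh, Sh, Sh, ← this, ← ExteriorAlgebra.map_comp_map]; rfl

lemma Sh_zero (a : AE g) : Sh 0 a = a := by
  have : sh (0 : Pt g) = LinearMap.id := LinearMap.ext sh_zero
  rw [Sh, this, ExteriorAlgebra.map_id]; rfl

lemma wd_sh (l : Pt g) (z : C (E g)) : wd (io ℚ) (mp (sh l) z) = Sh l (wd (io ℚ) z) :=
  wd_mp (io ℚ) (io ℚ) (sh l).toAddMonoidHom (ExteriorAlgebra.map (sh l)) (fun v => by simp) z

def wb : T (Pt g) (E g) →ₗ[ℚ] C (Pt g) ⊗[ℚ] AE g := map LinearMap.id (wd (io ℚ))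

lemma wb_dx (z : T (Pt g) (E g)) : wb (dx z) = dx (wb z) := by
  have : wb ∘ₗ dx = (dx ∘ₗ wb : T (Pt g) (E g) →ₗ[ℚ] _) := ext' fun a b => by simp [dx, wb]
  exact LinearMap.congr_fun this z

def Jb (Λ : Submodule ℤ (Pt g)) : Submodule ℚ (C (Pt g) ⊗[ℚ] AE g) :=
  Submodule.span ℚ {w | (∃ l ∈ Λ, ∃ z, w = map (tr l) (Sh l) z - z) ∨ ∃ a, w = sg [] ⊗ₜ a}

section Norm
variable {W W' : Type*} [AddCommGroup W] [Module ℚ W] [AddCommGroup W'] [Module ℚ W']

lemma ext_sg_tmul {X Z : Type*} [AddCommGroup Z] [Module ℚ Z] {F G : C X ⊗[ℚ] W →ₗ[ℚ] Z}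
    (h : ∀ x a, F (sg x ⊗ₜ a) = G (sg x ⊗ₜ a)) : F = G :=
  ext' fun u a => LinearMap.congr_fun (ext_sg (f := F ∘ₗ (mk ℚ _ _).flip a)
    (g := G ∘ₗ (mk ℚ _ _).flip a) fun x => h x a) u

/-- normalisation of the first vertex into a fundamental domain -/
def nu (fl : Pt g → Pt g) (s : Pt g → W →ₗ[ℚ] W) : C (Pt g) ⊗[ℚ] W →ₗ[ℚ] C (Pt g) ⊗[ℚ] W :=
  lift (lin fun x => match x with
    | [] => 0
    | v :: x => mk ℚ _ _ (tr (-fl v) (sg (v :: x))) ∘ₗ s (-fl v))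

lemma nu_nil (fl : Pt g → Pt g) (s : Pt g → W →ₗ[ℚ] W) (a : W) : nu fl s (sg [] ⊗ₜ a) = 0 := by
  simp [nu]

lemma nu_cons (fl : Pt g → Pt g) (s : Pt g → W →ₗ[ℚ] W) (v : Pt g) (x : List (Pt g)) (a : W) :
    nu fl s (sg (v :: x) ⊗ₜ a) = tr (-fl v) (sg (v :: x)) ⊗ₜ s (-fl v) a := by
  simp [nu]

lemma nu_tr {fl : Pt g → Pt g} {l : Pt g} (h : ∀ v, fl (v + l) = fl v + l)
    (s : Pt g → W →ₗ[ℚ] W) (v : Pt g) (x : List (Pt g)) (a : W) :
    nu fl s (tr l (sg (v :: x)) ⊗ₜ a) = tr (-fl v) (sg (v :: x)) ⊗ₜ s (-fl v + -l) a := by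
  have e : tr l (sg (v :: x)) = sg ((v + l) :: x.map fun x => x + l) := by simp [tr]
  rw [e, nu_cons, ← e, tr_tr, h, neg_add, neg_add_cancel_right]

lemma nu_nat (fl : Pt g → Pt g) (s : Pt g → W →ₗ[ℚ] W) (s' : Pt g → W' →ₗ[ℚ] W') (F : W →ₗ[ℚ] W')
    (h : ∀ l a, F (s l a) = s' l (F a)) (z) :
    nu fl s' (map LinearMap.id F z) = map LinearMap.id F (nu fl s z) := by
  have : nu fl s' ∘ₗ map LinearMap.id F = map LinearMap.id F ∘ₗ nu fl s := ext_sg_tmul fun x a => by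
    cases x with
    | nil => simp [nu_nil]
    | cons v x => simp [nu_cons, h]
  exact LinearMap.congr_fun this z

/-- coefficient of a list -/
def co {X : Type*} (x : List X) : C X ⊗[ℚ] W →ₗ[ℚ] W :=
  (TensorProduct.lid ℚ W).toLinearMap ∘ₗ map (Finsupp.lapply x) LinearMap.id

lemma co_tmul {X : Type*} (x : List X) (u : C X) (a : W) : co x (u ⊗ₜ a) = u x • a := by
  simp [co]

lemma co_nat {X : Type*} (x : List X) (F : W →ₗ[ℚ] W') (z : C X ⊗[ℚ] W) :
    co x (map LinearMap.id F z) = F (co x z) := by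
  have : co x ∘ₗ map LinearMap.id F = F ∘ₗ co x := ext' fun u a => by simp [co_tmul]
  exact LinearMap.congr_fun this z

lemma exists_co {X : Type*} (z : C X ⊗[ℚ] W) :
    ∃ S : Finset (List X), (∀ x ∈ S, co x z ≠ 0) ∧ z = ∑ x ∈ S, sg x ⊗ₜ co x z := by
  classical
  let φ := finsuppScalarLeft ℚ W (List X)
  have h : ∀ x, φ z x = co x z := fun x => finsuppScalarLeft_apply z x
  refine ⟨(φ z).support, fun x hx => h x ▸ Finsupp.mem_support_iff.1 hx, ?_⟩
  conv_lhs => rw [← φ.symm_apply_apply z, ← Finsupp.sum_single (φ z), Finsupp.sum, map_sum]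
  exact Finset.sum_congr rfl fun x _ => by rw [finsuppScalarLeft_symm_apply_single, h]; rfl

end Norm

lemma tmul_I0 (x : C (Pt g)) {a : C (E g)} (ha : a ∈ I0 Set.univ) : x ⊗ₜ a ∈ J Λ := by
  refine map_I0 (mk ℚ _ _ x) (fun z hz => IG_J (map_I _ (fun e _ z => ?_) hz)) ?_ ha
  · have := rho_sub_mem (Λ := Λ) (zero_mem _) e (x ⊗ₜ z)
    simp only [rho_tmul, tr_zero, sh_zero] at this
    rw [mk_apply, tmul_sub]
    exact this
  · refine dg_J (tmul_mem_sp (S₁ := Set.univ) (S₂ := {[]}) ?_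
      (Submodule.subset_span ⟨[], rfl, rfl⟩) fun _ _ _ h => Or.inr h)
    rw [Set.image_univ, span_sg]; trivial

section
variable {fl : Pt g → Pt g} (hfl : ∀ v, fl v ∈ Λ) (hfl' : ∀ l ∈ Λ, ∀ v, fl (v + l) = fl v + l)
include hfl'

lemma co_nu_J (x : List (Pt g)) {z : T (Pt g) (E g)} (hz : z ∈ J Λ) :
    co x (nu fl (fun l => mp (sh l)) z) ∈ I0 Set.univ := by
  refine map_J (co x ∘ₗ nu fl fun l => mp (sh l)) (fun z hz => map_IG _ (fun l hl e z => ?_) hz)
    (fun x' y h => ?_) hz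
  · refine map_sp ((co x ∘ₗ nu fl fun l => mp (sh l)) ∘ₗ (rho l e - LinearMap.id))
      (fun x' y _ => ?_) (mem_sp_true z)
    simp only [LinearMap.comp_apply, LinearMap.sub_apply, LinearMap.id_apply, rho_tmul, map_sub]
    cases x' with
    | nil => simp [nu_nil]
    | cons v x' =>
      rw [nu_tr (hfl' l hl), nu_cons, co_tmul, co_tmul, ← smul_sub, mp_mp]
      refine Submodule.smul_mem _ _ (I_le_I0 ?_)
      have := tr_sub_mem (Set.mem_univ (sh (-fl v + -l) e)) (mp (sh (-fl v)) (sg y))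
      rw [tr, mp_mp] at this
      convert this using 4
      funext y
      simp [sh_sh]
  · simp only [LinearMap.comp_apply]
    cases x' with
    | nil => simp [nu_nil]
    | cons v x' =>
      obtain rfl : y = [] := by simpa [dg] using h
      rw [nu_cons, co_tmul, mp_sg]
      exact Submodule.smul_mem _ _ (nil_mem_I0 _)

lemma nu_Jb {z} (hz : z ∈ Jb Λ) : nu fl Sh z = 0 := by
  refine (Submodule.span_le.2 ?_ : Jb Λ ≤ LinearMap.ker (nu fl Sh)) hz
  rintro _ (⟨l, hl, z, rfl⟩ | ⟨a, rfl⟩)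
  · have : nu fl Sh ∘ₗ map (tr l) (Sh l) = nu fl Sh := ext_sg_tmul fun x a => by
      simp only [LinearMap.comp_apply, map_tmul]
      cases x with
      | nil => simp [nu_nil]
      | cons v x => rw [nu_tr (hfl' l hl), nu_cons, Sh_Sh, neg_add_cancel_right]
    have := LinearMap.congr_fun this z
    simp only [SetLike.mem_coe, LinearMap.mem_ker, map_sub, sub_eq_zero]
    exact this
  · exact nu_nil _ _ _

omit hfl' in
include hfl in
lemma nu_sub (z : T (Pt g) (E g)) : nu fl (fun l => mp (sh l)) z - z ∈ J Λ := by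
  refine map_sp (nu fl (fun l => mp (sh l)) - LinearMap.id) (fun x y _ => ?_) (mem_sp_true z)
  simp only [LinearMap.sub_apply, LinearMap.id_apply]
  cases x with
  | nil => rw [nu_nil, zero_sub]; exact neg_mem (dg_J (mem_sp (Or.inl rfl)))
  | cons v x =>
    rw [nu_cons]
    have := rho_sub_mem (neg_mem (hfl v)) 0 (sg (v :: x) ⊗ₜ sg y)
    simp only [rho_tmul, add_zero] at this
    exact IG_J this

include hfl

lemma column {α b : ℕ} {t : T (Pt g) (E g)} (ht : t ∈ sp fun s => s.1.length = α ∧ s.2.length = b)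
    (h1 : dy t ∈ J Λ) (h2 : wb t ∈ Jb Λ) :
    ∃ u ∈ sp fun s => s.1.length = α ∧ s.2.length = b + 1, t - dy u ∈ J Λ ∧ wb u = 0 := by
  set s := nu fl (fun l => mp (sh l)) t with hs
  have a1 : s ∈ sp fun s => s.1.length = α ∧ s.2.length = b := map_sp _ (fun x y h => by
    cases x with
    | nil => rw [nu_nil]; exact zero_mem _
    | cons v x =>
      rw [nu_cons, tr, mp_sg, mp_sg]
      exact mem_sp (by simpa using h)) ht
  have a2 : ∀ x, co x s ∈ deg (E g) b := fun x => map_sp _ (fun x' y h => by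
    rw [co_tmul]; exact Submodule.smul_mem _ _ (sg_mem_deg' h.2)) a1
  have a3 : ∀ x, x.length ≠ α → co x s = 0 := fun x hx => map_sp (S := ⊥) _ (fun x' y h => by
    rw [co_tmul, sg, Finsupp.single_eq_of_ne (by rintro rfl; exact hx h.1), zero_smul]
    exact zero_mem _) a1
  have a4 : ∀ x, bd (co x s) ∈ I0 Set.univ := fun x => by
    rw [← co_nat, hs, ← nu_nat fl _ (fun l => mp (sh l)) _ fun l a => bd_mp _ _]
    exact co_nu_J hfl' x h1
  have a5 : ∀ x, wd (io ℚ) (co x s) = 0 := fun x => by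
    rw [← co_nat, hs, ← nu_nat fl _ Sh _ fun l a => wd_sh _ _]
    exact (congrArg (co x) (nu_Jb hfl' h2)).trans (map_zero _)
  choose u hu hu1 hu2 using fun x => wang (a2 x) (a4 x) (a5 x)
  obtain ⟨S, hS, e⟩ := exists_co s
  refine ⟨∑ x ∈ S, sg x ⊗ₜ u x, Submodule.sum_mem _ fun x hx => ?_, ?_, ?_⟩
  · exact tmul_mem_sp (S₁ := {x}) (Submodule.subset_span ⟨x, rfl, rfl⟩) (hu x)
      (by rintro _ rfl y hy; exact ⟨by by_contra h; exact hS _ hx (a3 _ h), hy⟩)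
  · have : s - dy (∑ x ∈ S, sg x ⊗ₜ u x) ∈ J Λ := by
      rw [e, map_sum, ← Finset.sum_sub_distrib]
      refine Submodule.sum_mem _ fun x _ => ?_
      simpa [dy, tmul_sub] using tmul_I0 (Λ := Λ) (sg x) (hu1 x)
    have h3 := sub_mem this (nu_sub hfl t)
    rwa [← hs, sub_sub_sub_cancel_left] at h3
  · simp [map_sum, wb, hu2]

lemma lift_cols (α : ℕ) : ∀ (b : ℕ) (t : T (Pt g) (E g)),
    (t ∈ sp fun s => s.1.length = α ∧ s.2.length = b) → dx t = 0 → dy t ∈ J Λ → wb t ∈ Jb Λ →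
    ∃ c ∈ sp fun s => s.1.length ≤ α ∧ len s = α + b + 1, dT c - t ∈ J Λ := by
  induction α with
  | zero =>
    intro b t ht _ _ _
    refine ⟨0, zero_mem _, ?_⟩
    rw [map_zero, zero_sub]
    exact neg_mem (dg_J (sp_mono (fun s h => Or.inl (List.length_eq_zero_iff.1 h.1)) ht))
  | succ α ih =>
    intro b t ht h0 h1 h2
    obtain ⟨u, hu, hu1, hu2⟩ := column hfl hfl' ht h1 h2
    obtain ⟨c, hc, hc'⟩ := ih (b + 1) (dx u) (map_sp _ (fun x y h => dx_mem_sp x y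
      fun x' _ e => ⟨by have := h.1; simp only at *; omega, h.2⟩) hu) (dx_dx _)
      (by
        have := neg_mem (dx_J hu1)
        rwa [map_sub, h0, zero_sub, neg_neg, dx_dy] at this)
      (by rw [wb_dx, hu2, map_zero]; exact zero_mem _)
    refine ⟨(-1 : ℚ) ^ (α + 1) • (u - c), Submodule.smul_mem _ _ (sub_mem
      (sp_mono (fun s h => by simp only [len]; omega) hu)
      (sp_mono (fun s h => by omega) hc)), ?_⟩
    have e : dT ((-1 : ℚ) ^ (α + 1) • (u - c)) - t =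
        -(t - dy u) - (-1 : ℚ) ^ (α + 1) • (dT c - dx u) := by
      rw [map_smul, map_sub, dT_of_deg (sp_mono (fun s h => h.1) hu), smul_sub, smul_add, smul_smul,
        ← mul_pow, neg_one_mul, neg_neg, one_pow, one_smul, smul_sub]
      abel
    rw [e]
    exact sub_mem (neg_mem hu1) (Submodule.smul_mem _ _ hc')

/-- a cycle with exterior coefficients is the shadow of a straight cycle -/
theorem exists_straight {p q : ℕ} (hpq : p + q = g) {c : C (Pt g) ⊗[ℚ] AE g}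
    (hc : c ∈ Submodule.span ℚ {w | ∃ x : List (Pt g), x.length = p + 1 ∧
      ∃ a ∈ ex (io ℚ) Set.univ q, w = sg x ⊗ₜ a}) (hd : dx c ∈ Jb Λ) :
    ∃ s ∈ sp str, dT s ∈ J Λ ∧ ∃ c₀, wb c₀ = c ∧ ∃ j ∈ J Λ, ∃ u,
      pp (p + 1) (q + 1) s = c₀ + pp (p + 1) (q + 1) (dT u + j) := by
  have h0 : c ∈ ((sp fun s => s.1.length = p + 1 ∧ s.2.length = q + 1) ⊓ (J Λ).comap dy).map wb := by
    refine Submodule.span_le.2 ?_ hc
    rintro _ ⟨x, hx, a, ha, rfl⟩
    obtain ⟨z, h1, h2, h3⟩ := exists_cycle (io_sq ℚ) ha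
    refine Submodule.mem_map.2 ⟨sg x ⊗ₜ z, Submodule.mem_inf.2 ⟨tmul_mem_sp (S₁ := {x})
      (Submodule.subset_span ⟨x, rfl, rfl⟩) h1 (by rintro _ rfl y hy; exact ⟨hx, hy⟩),
      tmul_I0 (sg x) h2⟩, by simp [wb, h3]⟩
  obtain ⟨c₀, h1, rfl⟩ := Submodule.mem_map.1 h0
  obtain ⟨h1, h2⟩ := Submodule.mem_inf.1 h1
  rw [Submodule.mem_comap] at h2
  obtain ⟨c', hc', hd'⟩ := lift_cols hfl hfl' p (q + 1) (dx c₀) (map_sp _ (fun x y h =>
    dx_mem_sp x y fun x' _ e => ⟨by have := h.1; simp only at *; omega, h.2⟩) h1) (dx_dx _)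
    (by rw [← dx_dy]; exact dx_J h2) (by rwa [wb_dx])
  obtain ⟨s, hs, hs', u, hu⟩ := straighten (Λ := Λ) (c := c₀ - c') (sub_mem
    (sp_mono (fun s h => by simp only [len]; omega) h1) (sp_mono (fun s h => by omega) hc')) (by
      have : dT (c₀ - c') = (-1 : ℚ) ^ (p + 1) • dy c₀ - (dT c' - dx c₀) := by
        rw [map_sub, dT_of_deg (sp_mono (fun s h => h.1) h1)]; abel
      rw [this]
      exact sub_mem (Submodule.smul_mem _ _ h2) hd')
  refine ⟨s, hs, hs', c₀, rfl, _, neg_mem hu, -u, ?_⟩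
  have : dT (-u) + -(c₀ - c' - s - dT u) = s - c₀ + c' := by rw [map_neg]; abel
  rw [this, map_add, map_sub, pp_of_mem h1, pp_of_ne (sp_mono (fun s h => by omega) hc')]
  abel

end

end

end Pool.Agent.P.MP_7b53ad_ag.Trop
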