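import Pool.Agent.P.MP_7b53ad_ag.Trop.Geom

/-! Every rational class killed by the eigenwave is the class of a tropical cycle. -/

namespace Pool.Agent.P.MP_7b53ad_ag.Trop

open TensorProduct Module ExteriorAlgebra

noncomputable section

variable {g n : ℕ}

lemma qspan_eq {X : Type} [AddCommGroup X] [Module ℚ X] (S : Set X) :
    qspan S = Submodule.span ℚ S := by
  ext x
  constructor
  · rintro ⟨m, hm, h⟩
    have h1 : m • x ∈ Submodule.span ℚ S :=
      ((AddSubgroup.closure_le (Submodule.span ℚ S).toAddSubgroup).2 Submodule.subset_span) h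
    have h2 := Submodule.smul_mem _ (m : ℚ)⁻¹ h1
    rwa [← Nat.cast_smul_eq_nsmul ℚ, inv_smul_smul₀ (by positivity)] at h2
  · intro h
    induction h using Submodule.span_induction with
    | mem x hx => exact ⟨1, one_pos, by simpa using AddSubgroup.subset_closure hx⟩
    | zero => exact ⟨1, one_pos, by simp⟩
    | add x y _ _ hx hy =>
      obtain ⟨m, hm, h⟩ := hx
      obtain ⟨k, hk, h'⟩ := hy
      refine ⟨m * k, mul_pos hm hk, ?_⟩
      rw [smul_add, mul_smul m k y, smul_comm m k y, mul_comm, mul_smul, smul_comm k m y]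
      exact add_mem (nsmul_mem h _) (nsmul_mem h' _)
    | smul c x _ hx =>
      obtain ⟨m, hm, h⟩ := hx
      refine ⟨m * c.den, mul_pos hm c.den_pos, ?_⟩
      rw [mul_smul, ← Nat.cast_smul_eq_nsmul ℚ c.den, smul_smul, Rat.den_mul_eq_num,
        Int.cast_smul_eq_zsmul, smul_comm]
      exact zsmul_mem h _

/-- the standard slope lattice -/
abbrev slopes (g : ℕ) : Submodule ℤ (Pt g) := Submodule.span ℤ (Set.range (Pi.basisFun ℝ (Fin g)))

lemma ratPow_eq (L : Submodule ℤ (Pt g)) (p : ℕ) :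
    ratPow L p = ex (io ℝ) (L : Set (Pt g)) p := by
  rw [ratPow, ex, qspan_eq]
  congr 2
  ext a
  constructor
  · rintro ⟨v, hv, rfl⟩
    exact ⟨List.ofFn v, by simp, by simpa using hv, by rw [ιMulti_apply, List.map_ofFn]; rfl⟩
  · rintro ⟨l, rfl, hl, rfl⟩
    refine ⟨l.get, fun i => hl _ (List.get_mem l i), ?_⟩
    conv_lhs => rw [← List.ofFn_get l]
    rw [ιMulti_apply, List.map_ofFn]; rfl

lemma ex_slopes (p : ℕ) : ex (io ℝ) (slopes g : Set (Pt g)) p = ex (io ℝ) (QQ g) p := by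
  refine le_antisymm (Submodule.span_mono ?_) ?_
  · rintro _ ⟨l, h1, h2, rfl⟩
    refine ⟨l, h1, fun v hv => ?_, rfl⟩
    choose m hm using ((Pi.basisFun ℝ (Fin g)).mem_span_iff_repr_mem ℤ v).1 (h2 v hv)
    exact ⟨fun i => m i, funext fun i => by simpa [cs_apply] using hm i⟩
  · induction p with
    | zero =>
      intro a ha
      obtain ⟨c, rfl⟩ := ex_zero ha
      exact Submodule.smul_mem _ _ (one_mem_ex _ _)
    | succ p ih =>
      intro a ha
      refine map_ex LinearMap.id (fun l hl hl' => ?_) ha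
      cases l with
      | nil => simp at hl
      | cons x l =>
        obtain ⟨m, rfl⟩ := hl' x (by simp)
        have h1 := ih (prod_mem_ex (io ℝ) (l := l) (by simpa using hl) fun v hv =>
          hl' v (by simp [hv]))
        rw [LinearMap.id_apply, List.map_cons, List.prod_cons, sum_ee (cs m), map_sum,
          Finset.sum_mul]
        refine sum_mem fun i _ => ?_
        rw [io_apply, map_smul, smul_mul_assoc, cs_apply, Rat.cast_smul_eq_qsmul]
        have h2 : ee i ∈ slopes g := Submodule.subset_span ⟨i, by simp [ee]⟩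
        exact Submodule.smul_mem _ _ (mul_mem_ex (io ℝ) h2 h1)

lemma classes_eq (Λ : Submodule ℤ (Pt g)) (p : ℕ) :
    classes Λ (slopes g) p = cls Λ p (QQ g) p := by
  rw [classes, cls, ratPow_eq, ratPow_eq, ex_slopes, qspan_eq]; rfl

lemma eigenwave_eq (B : Basis (Fin g) ℝ (Pt g)) (w : WW g) : eigenwave B w = phi w := by
  rw [phi_eq B, eigenwave]
  refine Finset.sum_congr rfl fun k _ => ?_
  rw [rk, ik, TensorProduct.map_map]; rfl

def th : C (E g) →ₗ[ℚ] AR g := st.restrictScalars ℚ ∘ₗ jE.toLinearMap ∘ₗ wd (io ℚ)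

lemma th_apply (y : C (E g)) : th y = st (jE (wd (io ℚ) y)) := rfl

lemma th_rho (l : Pt g) (e : E g) (y : C (E g)) : th (mp (fun y => sh l y + e) y) = th y := by
  have : mp (fun y => sh l y + e) y = tr e (mp (sh l) y) := by
    rw [tr, mp_mp]; rfl
  rw [this, th_apply, wd_tr (io_sq ℚ), wd_sh, jE_Sh, th_apply]

lemma th_tangent {x : List (Pt g)} {y : List (E g)} (h : str (x, y)) {u v : Pt g} (hu : u ∈ x)
    (hv : v ∈ x) : ι ℝ (u - v) * th (sg y) = 0 := by
  cases y with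
  | nil => simp [th_apply]
  | cons y0 y =>
    have : jE (y.map fun e => io ℚ (e - y0)).prod =
        ((y.map fun e => cs (e - y0).1).map (ι ℝ)).prod := by
      simp [map_list_prod, Function.comp_def, jE_ι]
    rw [th_apply, ← st_ct, wd_cons (io_sq ℚ), this, ct_prod_zero, map_zero]
    intro w hw
    obtain ⟨e, he, rfl⟩ := List.mem_map.1 hw
    have h1 := h u hu e (by simp [he]) y0 (by simp)
    have h2 := h v hv e (by simp [he]) y0 (by simp)
    simp only [ev, pa_apply] at h1 h2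
    simp only [flat_apply, cs_apply, Pi.sub_apply, Prod.fst_sub, Rat.cast_sub, sub_mul, mul_sub,
      Finset.sum_sub_distrib, mul_comm (u _), mul_comm (v _)]
    linarith

def toT (m : ℕ) (l : List (Pt g)) : Fin m → Pt g := fun i => l.getD i 0

lemma toT_ofFn {m : ℕ} (σ : Fin m → Pt g) : toT m (List.ofFn σ) = σ := by
  funext i; simp [toT]

lemma exists_ofFn {m : ℕ} {l : List (Pt g)} (h : l.length = m) :
    ∃ σ : Fin m → Pt g, l = List.ofFn σ := by
  subst h; exact ⟨l.get, (List.ofFn_get l).symm⟩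

/-- pairing of a function of lists with the weights -/
def pr2 {X : Type*} [AddCommGroup X] [Module ℚ X] (f : List (Pt g) → AR g →ₗ[ℚ] X) :
    T (Pt g) (E g) →ₗ[ℚ] X := TensorProduct.lift (lin fun x => f x ∘ₗ th)

lemma pr2_sg {X : Type*} [AddCommGroup X] [Module ℚ X] (f : List (Pt g) → AR g →ₗ[ℚ] X)
    (x : List (Pt g)) (y : C (E g)) : pr2 f (sg x ⊗ₜ y) = f x (th y) := by simp [pr2]

lemma pr2_dy {X : Type*} [AddCommGroup X] [Module ℚ X] (f : List (Pt g) → AR g →ₗ[ℚ] X) (z) :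
    pr2 f (dy z) = 0 := by
  have : pr2 f ∘ₗ dy = 0 := ext_sg_tmul fun x a => by simp [dy, pr2_sg, th_apply, wd_bd]
  exact LinearMap.congr_fun this z

lemma pr2_J {X : Type*} [AddCommGroup X] [Module ℚ X] {Λ : Submodule ℤ (Pt g)} (a b : ℕ)
    (f : List (Pt g) → AR g →ₗ[ℚ] X)
    (hf : ∀ l ∈ Λ, ∀ x : List (Pt g), x.length = a + 1 → f (x.map fun v => v + l) = f x) {z}
    (hz : z ∈ J Λ) : pr2 f (pp (a + 1) (b + 1) z) = 0 := by
  refine map_J (S := ⊥) (pr2 f ∘ₗ pp (a + 1) (b + 1))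
    (fun z hz => map_IG _ (fun l hl e z => ?_) hz) (fun x y h => ?_) hz
  · rw [LinearMap.comp_apply, map_sub, pp_rho]
    refine map_sp (pr2 f ∘ₗ (rho l e - LinearMap.id)) (fun x y h => ?_)
      (pp_sp (a + 1) (b + 1) (mem_sp_true z))
    simp only [LinearMap.comp_apply, LinearMap.sub_apply, LinearMap.id_apply, map_sub, rho_tmul, tr,
      mp_sg _ x, pr2_sg, th_rho, hf l hl x h.2.1, sub_self, zero_mem]
  · rw [LinearMap.comp_apply, pp_sg, if_neg, map_zero]
    · exact zero_mem _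
    · rcases h with h | h <;> simp only at h <;> simp [h]

def psi (m : ℕ) : T (Pt g) (E g) →ₗ[ℚ] ((Fin m → Pt g) →₀ AR g) :=
  pr2 fun x => Finsupp.lsingle (toT m x)

def clL (n : ℕ) : ((Fin (n + 2) → Pt g) →₀ AR g) →ₗ[ℚ] WW g :=
  Finsupp.lsum ℚ fun σ => (mk ℝ _ _ (((n + 1).factorial : ℝ)⁻¹ • edgeVol σ)).restrictScalars ℚ

def balL (c : (Fin (n + 1) → Pt g) → ℤ) : ((Fin (n + 2) → Pt g) →₀ AR g) →ₗ[ℚ] AR g :=
  Finsupp.lsum ℚ fun σ => (∑ j : Fin (n + 2), (-1) ^ (j : ℕ) * c fun i => σ (j.succAbove i)) •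
    LinearMap.id

lemma clL_psi {z : T (Pt g) (E g)} (hz : z ∈ sp fun b => b.1.length = n + 2) :
    clL n (psi (n + 2) z) =
      ((n + 1).factorial : ℚ)⁻¹ • pr2 (fun x => (mk ℝ _ _ (wd (io ℝ) (sg x))).restrictScalars ℚ) z :=
  eq_on_sp (clL n ∘ₗ psi (n + 2)) (((n + 1).factorial : ℚ)⁻¹ • pr2 _) (fun x y h => by
    obtain ⟨σ, rfl⟩ := exists_ofFn h
    simp only [LinearMap.comp_apply, psi, pr2_sg, toT_ofFn, clL, Finsupp.lsingle_apply,
      Finsupp.lsum_single, LinearMap.restrictScalars_apply, mk_apply, LinearMap.smul_apply,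
      edgeVol_eq, ← smul_tmul', ← Rat.cast_smul_eq_qsmul ℝ, Rat.cast_inv, Rat.cast_natCast]) hz

lemma balL_psi (c : (Fin (n + 1) → Pt g) → ℤ) {z : T (Pt g) (E g)}
    (hz : z ∈ sp fun b => b.1.length = n + 2) :
    balL c (psi (n + 2) z) = pr2 (fun x => c (toT (n + 1) x) • LinearMap.id) (dx z) :=
  eq_on_sp (balL c ∘ₗ psi (n + 2)) (pr2 _ ∘ₗ dx) (fun x y h => by
    obtain ⟨σ, rfl⟩ := exists_ofFn h
    simp only [LinearMap.comp_apply, psi, pr2_sg, toT_ofFn, balL, Finsupp.lsingle_apply,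
      Finsupp.lsum_single, dx, map_tmul, bd_ofFn, sum_tmul, ← smul_tmul', map_sum, map_smul,
      LinearMap.smul_apply, LinearMap.id_apply, Finset.sum_smul, LinearMap.sum_apply]
    refine Finset.sum_congr rfl fun j _ => ?_
    rw [mul_smul, ← Int.cast_smul_eq_zsmul ℚ]
    simp) hz

lemma evb_wb (z : T (Pt g) (E g)) :
    pr2 (fun x => (mk ℝ _ _ (wd (io ℝ) (sg x))).restrictScalars ℚ) z = evb (wb z) := by
  have : pr2 (fun x => (mk ℝ _ _ (wd (io ℝ) (sg x))).restrictScalars ℚ) =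
      (evb ∘ₗ wb : T (Pt g) (E g) →ₗ[ℚ] _) := ext_sg_tmul fun x a => by
    simp [pr2_sg, wb, evb_tmul, th_apply]
  exact LinearMap.congr_fun this z

lemma evb_dx (z : C (Pt g) ⊗[ℚ] AE g) : evb (dx z) = 0 := by
  have : evb ∘ₗ dx = (0 : C (Pt g) ⊗[ℚ] AE g →ₗ[ℚ] _) := ext' fun x a => by
    simp [dx, evb_tmul, wd_bd]
  exact LinearMap.congr_fun this z

/-- a formal straight cycle, degenerate simplices allowed -/
lemma exists_formal (B : Basis (Fin g) ℝ (Pt g)) (hn : n + 1 ≤ g) {w : WW g}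
    (hw : w ∈ classes (lat B) (slopes g) (n + 1)) (h0 : phi w = 0) :
    ∃ Z : (Fin (n + 2) → Pt g) →₀ AR g, (∀ σ, Z σ ∈ ex (io ℝ) (QQ g) (n + 1)) ∧
      (∀ σ j, ι ℝ (σ j - σ 0) * Z σ = 0) ∧ clL n Z = w ∧
      ∀ c : (Fin (n + 1) → Pt g) → ℤ, (∀ l ∈ lat B, ∀ τ, c (fun i => τ i + l) = c τ) →
        balL c Z = 0 := by
  obtain ⟨q, hq⟩ := Nat.exists_eq_add_of_le hn
  rw [classes_eq] at hw
  obtain ⟨c, hc, hd, he⟩ := exists_init B hq.symm
    (Submodule.smul_mem _ ((n + 1).factorial : ℚ)⁻¹ hw)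
    (by rw [LinearMap.map_smul_of_tower, h0, smul_zero])
  obtain ⟨s, hs, hs', c₀, rfl, j, hj, u, e⟩ := exists_straight (Λ := lat B)
    (fl := fun v => ZSpan.floor B v) (fun v => (ZSpan.floor B v).2) (fun l hl v => by
      have := ZSpan.fract_add_ZSpan B v hl
      rw [ZSpan.fract_apply, ZSpan.fract_apply] at this
      linear_combination (exp := 1) -this) hq.symm hc hd
  have h1 := pp_sp (n + 1 + 1) (q + 1) hs
  have h2 := sp_mono (fun b hb => hb.2.1) h1
  let S : Submodule ℚ ((Fin (n + 2) → Pt g) →₀ AR g) :=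
    { carrier := {Z | (∀ σ, Z σ ∈ ex (io ℝ) (QQ g) (n + 1)) ∧ ∀ σ j, ι ℝ (σ j - σ 0) * Z σ = 0}
      add_mem' := fun ha hb => ⟨fun σ => add_mem (ha.1 σ) (hb.1 σ), fun σ j => by
        rw [Finsupp.add_apply, mul_add, ha.2, hb.2, add_zero]⟩
      zero_mem' := ⟨fun _ => zero_mem _, fun _ _ => mul_zero _⟩
      smul_mem' := fun c Z h => ⟨fun σ => Submodule.smul_mem _ c (h.1 σ), fun σ j => by
        rw [Finsupp.smul_apply, mul_smul_comm, h.2, smul_zero]⟩ }
  have h3 : psi (n + 2) (pp (n + 1 + 1) (q + 1) s) ∈ S := map_sp _ (fun x y h => by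
    obtain ⟨σ, rfl⟩ := exists_ofFn h.2.1
    simp only [psi, pr2_sg, toT_ofFn, Finsupp.lsingle_apply]
    refine ⟨fun σ' => ?_, fun σ' j => ?_⟩ <;> by_cases hσ : σ' = σ
    · rw [hσ, Finsupp.single_eq_same]
      exact star_ex (by simp) (by omega) (jE_ex (wd_mem_ex (io_sq ℚ) (sg_mem_deg' h.2.2)))
    · rw [Finsupp.single_eq_of_ne hσ]; exact zero_mem _
    · rw [hσ, Finsupp.single_eq_same]
      exact th_tangent h.1 (List.mem_ofFn.2 ⟨j, rfl⟩) (List.mem_ofFn.2 ⟨0, rfl⟩)
    · rw [Finsupp.single_eq_of_ne hσ, mul_zero]) h1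
  refine ⟨_, h3.1, h3.2, ?_, fun c hc => ?_⟩
  · rw [clL_psi h2, e, map_add, map_add, map_add, pr2_J _ _ _ (fun l _ x _ => ?_) hj, pp_dT,
      map_add, map_smul, pr2_dy, evb_wb, evb_wb, he, wb_dx, evb_dx]
    · have : ((n + 1).factorial : ℚ) ≠ 0 := by positivity
      simp only [smul_zero, add_zero, smul_smul]
      rw [show ((n + 1).factorial : ℚ)⁻¹ * (((n + 1).factorial : ℚ) ^ 2 *
        ((n + 1).factorial : ℚ)⁻¹) = 1 by field_simp, one_smul]
    · rw [← mp_sg, ← tr, wd_tr (io_sq ℝ)]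
  · have := pr2_J n q (fun x => c (toT (n + 1) x) • (LinearMap.id : AR g →ₗ[ℚ] AR g))
      (fun l hl x hx => by
        obtain ⟨τ, rfl⟩ := exists_ofFn hx
        rw [List.map_ofFn, toT_ofFn, toT_ofFn]
        exact congrArg (· • _) (hc l hl τ)) hs'
    rwa [pp_dT, map_add, map_smul, pr2_dy, smul_zero, add_zero, ← balL_psi c h2] at this

theorem tropical_hodge (B : Basis (Fin g) ℝ (Pt g)) (hn : n + 1 ≤ g) {w : WW g}
    (hw : w ∈ classes (lat B) (slopes g) (n + 1)) (h0 : eigenwave B w = 0) :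
    ∃ Z : (Fin (n + 2) → Pt g) →₀ AR g, IsTropicalCycle (lat B) (slopes g) Z ∧ cycleClass Z = w := by
  classical
  obtain ⟨Z, h1, h2, h3, h4⟩ := exists_formal B hn hw (eigenwave_eq B w ▸ h0)
  let nd : (Fin (n + 2) → Pt g) → Prop :=
    fun σ => LinearIndependent ℝ fun j : Fin (n + 1) => σ j.succ - σ 0
  have hsplit := Finsupp.filter_add_filter_not Z nd
  refine ⟨Z.filter nd, ⟨fun σ hσ => ?_, fun σ => ?_, fun σ j => ?_, ?_⟩, ?_⟩
  · rw [Finsupp.support_filter] at hσ
    exact (Finset.mem_filter.1 hσ).2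
  · rw [ratPow_eq, ex_slopes, Finsupp.filter_apply]; split_ifs; exacts [h1 σ, zero_mem _]
  · rw [Finsupp.filter_apply]; split_ifs; exacts [h2 σ j, mul_zero _]
  · refine ⟨Z.support.biUnion fun σ => ((Finset.univ.powerset).filter
      fun t : Finset (Fin (n + 2)) => t.card ≤ n).image fun t => t.image σ, fun s hs => ?_,
      fun x hx η hη => ?_⟩
    · obtain ⟨σ, -, hs⟩ := Finset.mem_biUnion.1 hs
      obtain ⟨t, ht, rfl⟩ := Finset.mem_image.1 hs
      exact Finset.card_image_le.trans (Finset.mem_filter.1 ht).2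
    · have a1 := h4 (sheets (lat B) η x) fun l hl τ => sheets_add hl η x τ
      have a2 : balL (sheets (lat B) η x) (Z.filter fun σ => ¬nd σ) = 0 := by
        rw [balL, Finsupp.lsum_apply]
        refine Finset.sum_eq_zero fun σ hσ => ?_
        rw [Finsupp.support_filter, Finset.mem_filter] at hσ
        beta_reduce
        rw [degenerate_sheets B hσ.2 (fun l hl t ht j k tj tk => ?_) hη, zero_smul,
          LinearMap.zero_apply]
        by_contra hjk
        obtain ⟨t1, t2⟩ := (sum_hom _ _ _).1 ht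
        refine hx ((Finset.univ \ {j, k}).image σ) (Finset.mem_biUnion.2 ⟨σ, hσ.1,
          Finset.mem_image_of_mem _ (Finset.mem_filter.2 ⟨by simp, by
            simp [Finset.card_sdiff, Finset.card_pair hjk]⟩)⟩) l hl ?_
        rw [← t2, ← Finset.affineCombination_eq_linear_combination _ _ _ t1, Finset.coe_image]
        refine affineCombination_mem_affineSpan_image t1 (fun i _ hi => ?_) _
        simp only [Finset.coe_sdiff, Finset.coe_univ, Finset.coe_insert, Finset.coe_singleton,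
          Set.mem_sdiff, Set.mem_univ, true_and, not_not] at hi
        rcases hi with rfl | rfl
        exacts [tj, tk]
      rw [← hsplit, map_add, a2, add_zero, balL, Finsupp.lsum_apply] at a1
      rw [← a1]
      exact Finset.sum_congr rfl fun σ _ => Finset.sum_smul.symm
  · have a2 : clL n (Z.filter fun σ => ¬nd σ) = 0 := by
      rw [clL, Finsupp.lsum_apply]
      refine Finset.sum_eq_zero fun σ hσ => ?_
      rw [Finsupp.support_filter, Finset.mem_filter] at hσ
      beta_reduce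
      rw [edgeVol, (ιMulti ℝ (n + 1)).map_linearDependent _ hσ.2]
      simp
    rw [← hsplit, map_add, a2, add_zero] at h3
    exact h3

theorem tropical_hodge' (B : Basis (Fin g) ℝ (Pt g)) {w : WW g}
    (hw : w ∈ classes (lat B) (slopes g) (n + 1)) (h0 : eigenwave B w = 0) :
    ∃ Z : (Fin (n + 2) → Pt g) →₀ AR g, IsTropicalCycle (lat B) (slopes g) Z ∧ cycleClass Z = w := by
  by_cases hn : n + 1 ≤ g
  · exact tropical_hodge B hn hw h0
  have h1 : ex (io ℝ) (lat B : Set (Pt g)) (n + 1) ≤ ⊥ := Submodule.span_le.2 (by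
    rintro _ ⟨l, hl, -, rfl⟩
    obtain ⟨v, rfl⟩ := exists_ofFn hl
    have := (ιMulti ℝ (n + 1)).map_linearDependent v fun h => hn (by
      simpa using h.fintype_card_le_finrank)
    rw [ιMulti_apply] at this
    rw [List.map_ofFn]
    exact this)
  rw [classes_eq] at hw
  have h2 : LinearMap.id (R := ℚ) w ∈ (⊥ : Submodule ℚ (WW g)) := map_cls _ (fun a ha b _ => by
    rw [(Submodule.mem_bot ℚ).1 (h1 ha), zero_tmul]
    exact zero_mem _) hw
  obtain rfl : w = 0 := (Submodule.mem_bot ℚ).1 h2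
  exact ⟨0, ⟨by simp, fun _ => ⟨1, one_pos, by simp⟩, by simp, ∅, by simp, by simp⟩,
    by simp [cycleClass]⟩

end

end Pool.Agent.P.MP_7b53ad_ag.Trop
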