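import Pool.Agent.P.MP_7b53ad_ag.Trop.Lift

/-! Exterior algebra: duality, rational structure and the logarithm of the shear. -/

namespace Pool.Agent.P.MP_7b53ad_ag.Trop

open TensorProduct Module ExteriorAlgebra

noncomputable section

lemma ext_ind {R M : Type*} [CommRing R] [AddCommGroup M] [Module R M]
    {p : ExteriorAlgebra R M → Prop} (h1 : ∀ r : R, p (r • 1)) (ha : ∀ x y, p x → p y → p (x + y))
    (hm : ∀ m x, p x → p (ι R m * x)) (x) : p x :=
  @CliffordAlgebra.left_induction R M _ _ _ 0 p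
    (fun r => by rw [Algebra.algebraMap_eq_smul_one]; exact h1 r) ha (fun x m => hm m x) x

lemma ι_mul_ι {R M : Type*} [CommRing R] [AddCommGroup M] [Module R M] (u v : M)
    (a : ExteriorAlgebra R M) : ι R u * (ι R v * a) = -(ι R v * (ι R u * a)) := by
  rw [← mul_assoc, ← mul_assoc, ← neg_mul, eq_neg_of_add_eq_zero_left (ι_add_mul_swap u v)]

lemma ι_mul_self {R M : Type*} [CommRing R] [AddCommGroup M] [Module R M] (u : M)
    (a : ExteriorAlgebra R M) : ι R u * (ι R u * a) = 0 := by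
  rw [← mul_assoc, ι_sq_zero, zero_mul]

section Ct
variable {R V : Type*} [Field R] [Algebra ℚ R] [AddCommGroup V] [Module R V] [Module ℚ V]
  [IsScalarTower ℚ R V]

lemma ct_ex_zero (h : Dual R V) {U : Set V} {a : ExteriorAlgebra R V} (ha : a ∈ ex (io R) U 0) :
    ct h a = 0 :=
  eq_on_ex ((ct h).restrictScalars ℚ) 0 (fun l hl _ => by
    rw [List.length_eq_zero_iff.1 hl]; simp [ct_one]) ha

lemma ct_ex (h : Dual R V) {U : Set V} (hU : ∀ u ∈ U, ∃ q : ℚ, h u = algebraMap ℚ R q) {n : ℕ}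
    {a : ExteriorAlgebra R V} (ha : a ∈ ex (io R) U (n + 1)) : ct h a ∈ ex (io R) U n := by
  induction n generalizing a with
  | zero =>
    refine map_ex ((ct h).restrictScalars ℚ) (fun l hl hl' => ?_) ha
    obtain ⟨x, rfl⟩ := List.length_eq_one_iff.1 hl
    obtain ⟨q, hq⟩ := hU x (hl' x (by simp))
    simp only [List.map_cons, List.map_nil, List.prod_cons, List.prod_nil,
      LinearMap.restrictScalars_apply, io_apply, ct_mul, ct_one, hq, mul_zero, sub_zero,
      algebraMap_smul]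
    exact Submodule.smul_mem _ _ (one_mem_ex _ _)
  | succ n ih =>
    refine map_ex ((ct h).restrictScalars ℚ) (fun l hl hl' => ?_) ha
    cases l with
    | nil => simp at hl
    | cons x l =>
      obtain ⟨q, hq⟩ := hU x (hl' x (by simp))
      have h1 := prod_mem_ex (io R) (l := l) (U := U) (n := n + 1) (by simpa using hl)
        fun v hv => hl' v (by simp [hv])
      simp only [List.map_cons, List.prod_cons, LinearMap.restrictScalars_apply, io_apply, ct_mul,
        hq, algebraMap_smul]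
      exact sub_mem (Submodule.smul_mem _ _ h1) (mul_mem_ex (io R) (hl' x (by simp)) (ih h1))

end Ct

lemma ct_prod_zero {R V : Type*} [CommRing R] [AddCommGroup V] [Module R V] (h : Dual R V)
    (l : List V) (hl : ∀ v ∈ l, h v = 0) : ct h (l.map (ι R)).prod = 0 := by
  induction l with
  | nil => simp [ct_one]
  | cons x l ih =>
    rw [List.map_cons, List.prod_cons, ct_mul, hl x (by simp), ih fun v hv => hl v (by simp [hv])]
    simp

variable {g : ℕ}

abbrev AR (g : ℕ) := ExteriorAlgebra ℝ (Pt g)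

/-- the standard scalar product -/
def flat : Pt g →ₗ[ℝ] Dual ℝ (Pt g) :=
  ∑ i, (LinearMap.proj i : Pt g →ₗ[ℝ] ℝ).smulRight (LinearMap.proj i)

lemma flat_apply (u v : Pt g) : flat u v = ∑ i, u i * v i := by simp [flat]

lemma flat_comm (u v : Pt g) : flat u v = flat v u := by simp [flat_apply, mul_comm]

lemma ct_flat (v : Pt g) (a : AR g) : ct (flat v) a = ∑ i, v i • ct (LinearMap.proj i) a := by
  simp [flat, ct]

def act : AR g →ₐ[ℝ] Module.End ℝ (AR g) :=
  ExteriorAlgebra.lift ℝ ⟨CliffordAlgebra.contractLeft (Q := 0) ∘ₗ flat,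
    fun m => LinearMap.ext fun a => ct_ct (flat m) a⟩

lemma act_mul (m : Pt g) (a b : AR g) : act (ι ℝ m * a) b = ct (flat m) (act a b) := by
  rw [map_mul, act, lift_ι_apply]; rfl

def ee (i : Fin g) : Pt g := Pi.single i 1

def vol (L : List (Fin g)) : AR g := ((L.map ee).map (ι ℝ)).prod

lemma vol_cons (i : Fin g) (L : List (Fin g)) : vol (i :: L) = ι ℝ (ee i) * vol L := by simp [vol]

def star (L : List (Fin g)) : AR g →ₗ[ℝ] AR g :=
  LinearMap.applyₗ (vol L) ∘ₗ act.toLinearMap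

lemma star_apply (L : List (Fin g)) (a : AR g) : star L a = act a (vol L) := rfl

lemma star_mul (L : List (Fin g)) (m : Pt g) (a : AR g) :
    star L (ι ℝ m * a) = ct (flat m) (star L a) := act_mul _ _ _

lemma star_one (L : List (Fin g)) : star L 1 = vol L := by simp [star_apply]

lemma sum_ee (v : Pt g) : v = ∑ i, v i • ee i := by
  ext j; simp [ee, Pi.single_apply]

lemma mul_vol {L : List (Fin g)} (hL : ∀ i, i ∈ L) (v : Pt g) : ι ℝ v * vol L = 0 := by
  have : ∀ (L : List (Fin g)) i, i ∈ L → ι ℝ (ee i) * vol L = 0 := fun L i hi => by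
    induction L with
    | nil => simp at hi
    | cons j L ih =>
      rw [vol_cons]
      rcases List.mem_cons.1 hi with rfl | hi
      · exact ι_mul_self _ _
      · rw [ι_mul_ι, ih hi]; simp
  rw [sum_ee v, map_sum, Finset.sum_mul]
  exact Finset.sum_eq_zero fun i _ => by rw [map_smul, smul_mul_assoc, this L i (hL i), smul_zero]

lemma star_ct {L : List (Fin g)} (hL : ∀ i, i ∈ L) (v : Pt g) (a : AR g) :
    star L (ct (flat v) a) = ι ℝ v * star L a := by
  induction a using ext_ind with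
  | h1 r => simp [ct_one, star_one, mul_vol hL]
  | ha x y hx hy => simp [hx, hy, mul_add]
  | hm m x hx =>
    rw [ct_mul, map_sub, star_mul, hx, ct_mul, star_mul, map_smul, flat_comm]; abel

lemma star_vol {L : List (Fin g)} (hL : L.Nodup) : star L (vol L.reverse) = 1 := by
  induction L with
  | nil => simp [star_apply, vol]
  | cons i L ih =>
    have h1 : vol (i :: L).reverse = vol L.reverse * (ι ℝ (ee i) * 1) := by simp [vol]
    have h2 : ct (flat (ee i)) (vol L) = 0 := ct_prod_zero _ _ fun v hv => by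
      obtain ⟨j, hj, rfl⟩ := List.mem_map.1 hv
      have : j ≠ i := fun h => (List.nodup_cons.1 hL).1 (h ▸ hj)
      simp [flat_apply, ee, Pi.single_apply, this]
    rw [h1, star_apply, map_mul, Module.End.mul_apply, act_mul, map_one, Module.End.one_apply,
      vol_cons, ct_mul, h2, ← ih (List.nodup_cons.1 hL).2, star_apply]
    simp [flat_apply, ee, Pi.single_apply]

def st : AR g →ₗ[ℝ] AR g := star (List.finRange g)

def st' : AR g →ₗ[ℝ] AR g := star (List.finRange g).reverse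

lemma st_ct (v : Pt g) (a : AR g) : st (ct (flat v) a) = ι ℝ v * st a :=
  star_ct (List.mem_finRange) v a

lemma st_st' (a : AR g) : st (st' a) = a := by
  induction a using ext_ind with
  | h1 r => rw [map_smul, map_smul, st', star_one, st, star_vol (List.nodup_finRange g)]
  | ha x y hx hy => simp [hx, hy]
  | hm m x hx => rw [st', star_mul, st_ct, ← st', hx]

/-- rational vectors -/
def cs : M g →ₗ[ℚ] Pt g where
  toFun m i := m i
  map_add' a b := by ext; simp
  map_smul' c a := by ext; simp [Rat.smul_def]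

lemma cs_apply (m : M g) (i : Fin g) : cs m i = m i := rfl

def QQ (g : ℕ) : Set (Pt g) := Set.range cs

lemma ee_mem (i : Fin g) : ee i ∈ QQ g :=
  ⟨Pi.single i 1, by ext j; by_cases h : j = i <;> simp [cs_apply, ee, h]⟩

lemma star_ex {L : List (Fin g)} (hL : L.length = g) {k j : ℕ} (h : k + j = g) {a : AR g}
    (ha : a ∈ ex (io ℝ) (QQ g) k) : star L a ∈ ex (io ℝ) (QQ g) j := by
  induction k generalizing j a with
  | zero =>
    refine map_ex ((star L).restrictScalars ℚ) (fun l hl _ => ?_) ha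
    rw [List.length_eq_zero_iff.1 hl]
    simp only [List.map_nil, List.prod_nil, LinearMap.restrictScalars_apply, star_one]
    exact prod_mem_ex (io ℝ) (l := L.map ee) (by simp; omega) fun v hv => by
      obtain ⟨i, _, rfl⟩ := List.mem_map.1 hv; exact ee_mem i
  | succ k ih =>
    refine map_ex ((star L).restrictScalars ℚ) (fun l hl hl' => ?_) ha
    cases l with
    | nil => simp at hl
    | cons x l =>
      simp only [List.map_cons, List.prod_cons, LinearMap.restrictScalars_apply, io_apply, star_mul]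
      obtain ⟨m, rfl⟩ := hl' x (by simp)
      refine ct_ex _ ?_ (ih (j := j + 1) (by omega)
        (prod_mem_ex _ (by simpa using hl) fun v hv => hl' v (by simp [hv])))
      rintro _ ⟨m', rfl⟩
      exact ⟨∑ i, m i * m' i, by simp [flat_apply, cs_apply]⟩

/-- slope of an affine function, in the real exterior algebra -/
def jE : AE g →ₐ[ℚ] AR g :=
  ExteriorAlgebra.lift ℚ ⟨(ι ℝ).restrictScalars ℚ ∘ₗ cs ∘ₗ LinearMap.fst ℚ (M g) ℝ,
    fun _ => ι_sq_zero _⟩

lemma jE_ι (y : E g) : jE (ι ℚ y) = ι ℝ (cs y.1) := by simp [jE]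

lemma jE_ex {n : ℕ} {a : AE g} (ha : a ∈ ex (io ℚ) Set.univ n) : jE a ∈ ex (io ℝ) (QQ g) n :=
  map_ex jE.toLinearMap (fun l hl _ => by
    have := prod_mem_ex (io ℝ) (l := l.map fun y => cs y.1) (U := QQ g) (n := n) (by simpa using hl)
      (fun v hv => by obtain ⟨y, _, rfl⟩ := List.mem_map.1 hv; exact ⟨_, rfl⟩)
    simpa [map_list_prod, Function.comp_def, jE_ι] using this) ha

lemma jE_Sh (l : Pt g) (a : AE g) : jE (Sh l a) = jE a := by
  have : jE.comp (ExteriorAlgebra.map (sh l)) = jE := hom_ext (LinearMap.ext fun y => by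
    simp [jE_ι, sh_apply])
  exact AlgHom.congr_fun this a

def bcL : Pt g →ₗ[ℝ] ℝ ⊗[ℚ] AE g :=
  ∑ i, (LinearMap.proj i : Pt g →ₗ[ℝ] ℝ).smulRight ((1 : ℝ) ⊗ₜ ι ℚ ((Pi.single i 1, 0) : E g))

lemma bcL_apply (v : Pt g) :
    bcL v = ∑ i, v i • ((1 : ℝ) ⊗ₜ[ℚ] ι ℚ ((Pi.single i 1, 0) : E g)) := by simp [bcL]

lemma bcL_sq (v : Pt g) : bcL v * bcL v = 0 := by
  have : bcL v * bcL v = -(bcL v * bcL v) := by
    rw [bcL_apply, Finset.sum_mul_sum]
    conv_rhs => rw [Finset.sum_comm]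
    rw [← Finset.sum_neg_distrib]
    refine Finset.sum_congr rfl fun i _ => ?_
    rw [← Finset.sum_neg_distrib]
    refine Finset.sum_congr rfl fun j _ => ?_
    simp only [smul_mul_smul_comm, Algebra.TensorProduct.tmul_mul_tmul]
    rw [eq_neg_of_add_eq_zero_left (ι_add_mul_swap _ _), tmul_neg, smul_neg, mul_comm]
  have h2 : (2 : ℝ) • (bcL v * bcL v) = 0 := by
    rw [two_smul]; nth_rewrite 1 [this]; simp
  simpa using h2

def bc : AR g →ₐ[ℝ] ℝ ⊗[ℚ] AE g := ExteriorAlgebra.lift ℝ ⟨bcL, bcL_sq⟩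

lemma bc_cs (m : M g) : bc (ι ℝ (cs m)) = (1 : ℝ) ⊗ₜ ι ℚ ((m, 0) : E g) := by
  have : ((m, 0) : E g) = ∑ i, m i • ((Pi.single i 1, 0) : E g) := by
    ext j
    · simp [Prod.fst_sum, Pi.single_apply]
    · simp [Prod.snd_sum]
  rw [bc, lift_ι_apply, bcL_apply, this, map_sum, tmul_sum]
  refine Finset.sum_congr rfl fun i _ => ?_
  rw [map_smul, tmul_smul, cs_apply, Rat.cast_smul_eq_qsmul]

def ep (i : Fin g) : Dual ℚ (E g) := LinearMap.proj i ∘ₗ LinearMap.fst ℚ (M g) ℝ

lemma bc_list (l : List (Pt g)) (hl : ∀ v ∈ l, v ∈ QQ g) :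
    ∃ a ∈ ex (io ℚ) Set.univ l.length, bc (l.map (io ℝ)).prod = (1 : ℝ) ⊗ₜ a ∧
      jE a = (l.map (io ℝ)).prod ∧
      ∀ i, bc (ct (LinearMap.proj i) (l.map (io ℝ)).prod) = (1 : ℝ) ⊗ₜ ct (ep i) a := by
  induction l with
  | nil => exact ⟨1, one_mem_ex _ _, by simp [Algebra.TensorProduct.one_def], by simp,
      fun i => by simp [ct_one]⟩
  | cons x l ih =>
    obtain ⟨a, h1, h2, h3, h4⟩ := ih fun v hv => hl v (by simp [hv])
    obtain ⟨m, rfl⟩ := hl x (by simp)
    refine ⟨ι ℚ ((m, 0) : E g) * a, mul_mem_ex (io ℚ) (Set.mem_univ _) h1, ?_, ?_, fun i => ?_⟩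
    · simp only [List.map_cons, List.prod_cons, map_mul, io_apply, bc_cs, h2,
        Algebra.TensorProduct.tmul_mul_tmul, one_mul]
    · simp only [List.map_cons, List.prod_cons, map_mul, io_apply, jE_ι, h3]
    · simp only [List.map_cons, List.prod_cons, io_apply, ct_mul, map_sub, map_smul, map_mul,
        bc_cs, h2, h4, Algebra.TensorProduct.tmul_mul_tmul, one_mul, tmul_sub, tmul_smul]
      simp [ep, cs_apply, Rat.cast_smul_eq_qsmul]

lemma exists_lf : ∃ lf : AR g →ₗ[ℚ] AE g, ∀ n, ∀ a ∈ ex (io ℝ) (QQ g) n,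
    lf a ∈ ex (io ℚ) Set.univ n ∧ jE (lf a) = a ∧
      ∀ i, bc (ct (LinearMap.proj i) a) = (1 : ℝ) ⊗ₜ ct (ep i) (lf a) := by
  obtain ⟨ρ, hρ⟩ : ∃ ρ : ℝ →ₗ[ℚ] ℚ, ρ 1 = 1 := by
    obtain ⟨ρ, h⟩ := (Algebra.linearMap ℚ ℝ).exists_leftInverse_of_injective
      (LinearMap.ker_eq_bot.2 (algebraMap ℚ ℝ).injective)
    exact ⟨ρ, by simpa using LinearMap.congr_fun h 1⟩
  let lf : AR g →ₗ[ℚ] AE g := (TensorProduct.lid ℚ _).toLinearMap ∘ₗ map ρ LinearMap.id ∘ₗ
    bc.toLinearMap.restrictScalars ℚ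
  have h : ∀ a a', bc a = (1 : ℝ) ⊗ₜ a' → lf a = a' := fun a a' e => by simp [lf, e, hρ]
  refine ⟨lf, fun n a ha => ⟨map_ex lf (fun l hl hl' => ?_) ha,
    eq_on_ex (jE.toLinearMap ∘ₗ lf) LinearMap.id (fun l hl hl' => ?_) ha, fun i =>
    eq_on_ex ((bc.toLinearMap ∘ₗ ct (LinearMap.proj i)).restrictScalars ℚ)
      (mk ℚ ℝ _ 1 ∘ₗ ct (ep i) ∘ₗ lf) (fun l hl hl' => ?_) ha⟩⟩
  all_goals obtain ⟨a, h1, h2, h3, h4⟩ := bc_list l hl'
  · rw [h _ _ h2, ← hl]; exact h1
  · simp only [LinearMap.comp_apply, h _ _ h2]; exact h3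
  · simp only [LinearMap.comp_apply, h _ _ h2]; exact h4 i

/-- constant affine functions -/
def ga : ℝ →ₗ[ℚ] AE g := ι ℚ ∘ₗ LinearMap.inr ℚ (M g) ℝ

lemma ga_apply (r : ℝ) : ga r = ι ℚ ((0, r) : E g) := rfl

def NN (r : ℝ) (i : Fin g) : Module.End ℚ (AE g) := LinearMap.mulLeft ℚ (ga r) ∘ₗ ct (ep i)

lemma NN_apply (r : ℝ) (i : Fin g) (a : AE g) : NN r i a = ga r * ct (ep i) a := rfl

lemma ct_ga (r : ℝ) (i : Fin g) (a : AE g) : ct (ep i) (ga r * a) = -(ga r * ct (ep i) a) := by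
  rw [ga_apply, ct_mul]; simp [ep]

lemma NN_comm (r s : ℝ) (i j : Fin g) : Commute (NN r i) (NN s j) := LinearMap.ext fun a => by
  simp only [Module.End.mul_apply, NN_apply, ct_ga, mul_neg]
  rw [ct_comm, ga_apply, ga_apply, ι_mul_ι]; simp

lemma NN_sq (r : ℝ) (i : Fin g) : NN r i ^ 2 = 0 := LinearMap.ext fun a => by
  simp [pow_two, NN_apply, ct_ga, ct_ct]

def DD (l : Pt g) : Module.End ℚ (AE g) := ∑ i, NN (l i) i

lemma DD_apply (l : Pt g) (a : AE g) : DD l a = ∑ i, ga (l i) * ct (ep i) a := by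
  simp [DD, NN_apply]

lemma DD_add (l l' : Pt g) : DD (l + l') = DD l + DD l' := LinearMap.ext fun a => by
  simp [DD_apply, add_mul, Finset.sum_add_distrib]

lemma DD_comm (l l' : Pt g) : Commute (DD l) (DD l') :=
  Commute.sum_left _ _ _ fun _ _ => Commute.sum_right _ _ _ fun _ _ => NN_comm _ _ _ _

lemma DD_nil (l : Pt g) : IsNilpotent (DD l) :=
  Commute.isNilpotent_sum (fun _ _ => ⟨2, NN_sq _ _⟩) fun _ _ _ _ => NN_comm _ _ _ _

lemma Sh_single (r : ℝ) (i : Fin g) (a : AE g) : Sh (-Pi.single i r) a = a + NN r i a := by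
  induction a using ext_ind with
  | h1 c => simp [Sh, NN_apply, ct_one]
  | ha x y hx hy => simp only [map_add, hx, hy]; abel
  | hm m x hx =>
    have e : sh (-Pi.single i r) m = m + ep i m • ((0, r) : E g) := by
      rw [sh_apply]
      ext j
      · simp
      · simp [pa_apply, Pi.single_apply, ep, Rat.smul_def]
    have : Sh (-Pi.single i r) (ι ℚ m * x) =
        ι ℚ (sh (-Pi.single i r) m) * Sh (-Pi.single i r) x := by simp [Sh]
    rw [this, hx, e, NN_apply, NN_apply, ct_mul, map_add, map_smul, ga_apply]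
    simp only [add_mul, mul_add, mul_sub, smul_mul_assoc, mul_smul_comm, ι_mul_self, smul_zero]
    rw [ι_mul_ι _ m]
    abel

lemma Sh_exp (l : Pt g) : Sh (-l) = IsNilpotent.exp (DD l) := by
  induction l using Pi.single_induction with
  | zero =>
    have : DD (0 : Pt g) = 0 := LinearMap.ext fun a => by simp [DD_apply]
    rw [this, IsNilpotent.exp_zero, neg_zero]
    exact LinearMap.ext Sh_zero
  | add l l' h h' =>
    rw [DD_add, IsNilpotent.exp_add_of_commute (DD_comm _ _) (DD_nil _) (DD_nil _), ← h, ← h',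
      neg_add]
    exact LinearMap.ext fun a => (Sh_Sh _ _ a).symm
  | single i r =>
    have : DD (Pi.single i r : Pt g) = NN r i := by
      rw [DD, Finset.sum_eq_single i (fun j _ hj => LinearMap.ext fun a => by
        simp [NN_apply, hj]) (by simp), Pi.single_eq_same]
    rw [this, IsNilpotent.exp_eq_sum (NN_sq r i)]
    exact LinearMap.ext fun a => by simp [Sh_single, Finset.sum_range_succ]

lemma exists_u {A : Type*} [Ring A] [Algebra ℚ A] {D : A} (hD : IsNilpotent D) :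
    ∃ u ∈ Algebra.adjoin ℚ {D}, (IsNilpotent.exp D - 1) * u = D ∧ ∃ u', u = 1 + D * u' := by
  obtain ⟨k, hk⟩ := hD
  let n' : A := -∑ i ∈ Finset.range k, ((i + 1 + 1).factorial : ℚ)⁻¹ • D ^ i
  have hD1 : D ∈ Algebra.adjoin ℚ {D} := Algebra.self_mem_adjoin_singleton ℚ D
  have hn : n' ∈ Algebra.adjoin ℚ {D} :=
    neg_mem (sum_mem fun i _ => Subalgebra.smul_mem _ (pow_mem hD1 _) _)
  have e1 : IsNilpotent.exp D - 1 = D * (1 - D * n') := by
    rw [IsNilpotent.exp_eq_sum (k := k + 1 + 1) (by rw [pow_succ, pow_succ, hk]; simp),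
      Finset.sum_range_succ', Finset.sum_range_succ']
    simp only [n', mul_neg, sub_neg_eq_add, mul_add, Finset.mul_sum, mul_smul_comm, pow_succ']
    simp [add_comm]
  have e2 : (1 - D * n') * ∑ i ∈ Finset.range k, (D * n') ^ i = 1 := by
    rw [mul_neg_geom_sum, (Algebra.commute_of_mem_adjoin_self hn).mul_pow, hk]; simp
  refine ⟨_, sum_mem fun i _ => pow_mem (mul_mem hD1 hn) i, by rw [e1, mul_assoc, e2, mul_one],
    n' * ∑ i ∈ Finset.range k, (D * n') ^ i, ?_⟩
  rw [sub_mul, one_mul, sub_eq_iff_eq_add] at e2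
  rw [← mul_assoc]; exact e2

lemma DD_ex (l : Pt g) {n : ℕ} {a : AE g} (ha : a ∈ ex (io ℚ) Set.univ n) :
    DD l a ∈ ex (io ℚ) Set.univ n := by
  rw [DD_apply]
  refine sum_mem fun i _ => ?_
  cases n with
  | zero => rw [ct_ex_zero _ ha, mul_zero]; exact zero_mem _
  | succ n => exact mul_mem_ex (io ℚ) (Set.mem_univ _) (ct_ex _ (fun u _ => ⟨_, rfl⟩) ha)

lemma exists_uu (l : Pt g) : ∃ u : Module.End ℚ (AE g), (∀ a, Sh (-l) (u a) - u a = DD l a) ∧
    (∀ l' a, u (DD l' a) = DD l' (u a)) ∧ (∀ l' a, u (Sh l' a) = Sh l' (u a)) ∧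
    (∀ a, jE (u a) = jE a) ∧ ∀ n, ∀ a ∈ ex (io ℚ) Set.univ n, u a ∈ ex (io ℚ) Set.univ n := by
  obtain ⟨u, h1, h2, u', h3⟩ := exists_u (DD_nil l)
  have c1 : ∀ l', Commute (DD l') u := fun l' =>
    Algebra.commute_of_mem_adjoin_singleton_of_commute h1 (DD_comm _ _)
  refine ⟨u, fun a => ?_, fun l' a => (LinearMap.congr_fun (c1 l') a).symm, fun l' a => ?_,
    fun a => ?_, fun n => ?_⟩
  · rw [← h2, Sh_exp]; rfl
  · obtain ⟨k, hk⟩ := DD_nil (-l')
    have : Commute (Sh l') u := by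
      rw [← neg_neg l', Sh_exp, IsNilpotent.exp_eq_sum hk]
      exact Commute.sum_left _ _ _ fun i _ => ((c1 _).pow_left i).smul_left _
    exact (LinearMap.congr_fun this a).symm
  · rw [h3]
    simp [DD_apply, ga_apply, jE_ι]
  · clear h2 h3 c1
    induction h1 using Algebra.adjoin_induction with
    | mem x hx => rw [hx]; exact fun a ha => DD_ex l ha
    | algebraMap r => exact fun a ha => by simpa using Submodule.smul_mem _ r ha
    | add x y _ _ hx hy => exact fun a ha => add_mem (hx a ha) (hy a ha)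
    | mul x y _ _ hx hy => exact fun a ha => hx _ (hy a ha)

lemma exists_lift : ∃ F : AR g →ₗ[ℚ] AE g, ∀ p q, p + q = g →
    (∀ β ∈ ex (io ℝ) (QQ g) p, F β ∈ ex (io ℚ) Set.univ q ∧ st (jE (F β)) = β) ∧
    ∀ (v : Fin g → Pt g) (β : Fin g → AR g), (∀ k, β k ∈ ex (io ℝ) (QQ g) p) →
      ∑ k, ι ℝ (v k) * β k = 0 → ∑ k, DD (v k) (F (β k)) = 0 := by
  obtain ⟨lf, h⟩ := exists_lf (g := g)
  have h0 : ∀ p q, p + q = g → ∀ β ∈ ex (io ℝ) (QQ g) p, st' β ∈ ex (io ℝ) (QQ g) q :=
    fun p q e β hβ => star_ex (by simp) e hβ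
  refine ⟨lf ∘ₗ st'.restrictScalars ℚ, fun p q e => ⟨fun β hβ => ⟨(h q _ (h0 p q e β hβ)).1, ?_⟩,
    fun v β hβ h1 => ?_⟩⟩
  · exact (congrArg st (h q _ (h0 p q e β hβ)).2.1).trans (st_st' β)
  · let μ : ℝ ⊗[ℚ] AE g →ₗ[ℚ] AE g := TensorProduct.lift (LinearMap.mul ℚ _ ∘ₗ ga)
    have h2 := congrArg (fun a => μ (bc (st' a))) h1
    simp only [map_sum, map_zero] at h2
    rw [← h2]
    refine Finset.sum_congr rfl fun k _ => ?_
    rw [st', star_mul, ct_flat, map_sum, map_sum, DD_apply, ← st']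
    refine Finset.sum_congr rfl fun i _ => ?_
    rw [map_smul, (h q _ (h0 p q e _ (hβ k))).2.2 i, smul_tmul', smul_eq_mul, mul_one]
    rfl

end

end Pool.Agent.P.MP_7b53ad_ag.Trop
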