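import Pool.Agent.P.MP_7b53ad_ag.Trop.Join

/-! The Heisenberg type group acting on the join complex; straightening of cycles. -/

namespace Pool.Agent.P.MP_7b53ad_ag.Trop

open TensorProduct Module

noncomputable section

variable {g : ℕ}

/-- pull-back of an affine function along the translation by `-l` -/
def sh (l : Pt g) : E g →ₗ[ℚ] E g :=
  LinearMap.id - LinearMap.inr ℚ (M g) ℝ ∘ₗ pa l ∘ₗ LinearMap.fst ℚ (M g) ℝ

lemma sh_apply (l : Pt g) (y : E g) : sh l y = (y.1, y.2 - pa l y.1) := by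
  ext <;> simp [sh]

lemma sh_sh (l l' : Pt g) (y : E g) : sh l (sh l' y) = sh (l + l') y := by
  simp only [sh_apply, pa_add]; congr 1; ring

lemma sh_zero (y : E g) : sh (0 : Pt g) y = y := by simp [sh_apply, pa_zero]

lemma ev_sh (l x : Pt g) (y e : E g) : ev (sh l y + e) (x + l) = ev y x + ev e (x + l) := by
  simp only [ev, sh_apply, Prod.fst_add, Prod.snd_add, map_add, pa_add]; ring

@[ext] structure GG (Λ : Submodule ℤ (Pt g)) where
  l : Pt g
  e : E g
  hl : l ∈ Λ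

variable {Λ : Submodule ℤ (Pt g)}

instance : Mul (GG Λ) := ⟨fun a b => ⟨a.l + b.l, sh a.l b.e + a.e, add_mem a.hl b.hl⟩⟩

instance : One (GG Λ) := ⟨⟨0, 0, zero_mem _⟩⟩

instance : Inv (GG Λ) := ⟨fun a => ⟨-a.l, -sh (-a.l) a.e, neg_mem a.hl⟩⟩

@[simp] lemma GG.mul_l (a b : GG Λ) : (a * b).l = a.l + b.l := rfl
@[simp] lemma GG.mul_e (a b : GG Λ) : (a * b).e = sh a.l b.e + a.e := rfl
@[simp] lemma GG.one_l : (1 : GG Λ).l = 0 := rfl
@[simp] lemma GG.one_e : (1 : GG Λ).e = 0 := rfl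
@[simp] lemma GG.inv_l (a : GG Λ) : a⁻¹.l = -a.l := rfl
@[simp] lemma GG.inv_e (a : GG Λ) : a⁻¹.e = -sh (-a.l) a.e := rfl

instance : Group (GG Λ) := Group.ofLeftAxioms
  (fun a b c => GG.ext (by simp [add_assoc]) (by simp [sh_sh, add_assoc]))
  (fun a => GG.ext (by simp) (by simp [sh_zero])) (fun a => GG.ext (by simp) (by simp))

instance : SMul (GG Λ) (Pr (Pt g) (E g)) :=
  ⟨fun a b => (b.1.map fun x => x + a.l, b.2.map fun y => sh a.l y + a.e)⟩

lemma smul_def (a : GG Λ) (b : Pr (Pt g) (E g)) :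
    a • b = (b.1.map fun x => x + a.l, b.2.map fun y => sh a.l y + a.e) := rfl

instance : MulAction (GG Λ) (Pr (Pt g) (E g)) where
  one_smul b := by simp [smul_def, sh_zero]
  mul_smul a c b := by
    simp only [smul_def, List.map_map, Function.comp_def, map_add, sh_sh, GG.mul_l, GG.mul_e,
      add_assoc, add_comm a.l c.l]

def rho (l : Pt g) (e : E g) : T (Pt g) (E g) →ₗ[ℚ] T (Pt g) (E g) :=
  map (tr l) (mp fun y => sh l y + e)

lemma rho_tmul (l : Pt g) (e : E g) (a b) :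
    rho l e (a ⊗ₜ b) = tr l a ⊗ₜ mp (fun y => sh l y + e) b := rfl

lemma rho_bas (a : GG Λ) (b : Pr (Pt g) (E g)) :
    rho a.l a.e (basT _ _ b) = basT _ _ (a • b) := by
  simp [basT_apply, rho_tmul, smul_def, tr]

lemma dx_rho (l : Pt g) (e : E g) (z) : dx (rho l e z) = rho l e (dx z) := by
  have : dx ∘ₗ rho l e = rho l e ∘ₗ dx := ext' fun a b => by simp [dx, rho_tmul, bd_tr]
  exact LinearMap.congr_fun this z

lemma dT_rho (l : Pt g) (e : E g) (z) : dT (rho l e z) = rho l e (dT z) := by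
  have : dT ∘ₗ rho l e = rho l e ∘ₗ dT := ext' fun a b => by
    simp [dT_tmul, rho_tmul, bd_mp, tr, sn_mp]
  exact LinearMap.congr_fun this z

lemma pp_rho (a b : ℕ) (l : Pt g) (e : E g) (z) : pp a b (rho l e z) = rho l e (pp a b z) := by
  have : pp a b ∘ₗ rho l e = rho l e ∘ₗ pp a b := ext' fun a b => by
    simp [pp, rho_tmul, pj_mp, tr]
  exact LinearMap.congr_fun this z

lemma str_smul (a : GG Λ) {b : Pr (Pt g) (E g)} (h : str b) : str (a • b) := by
  intro x hx y hy y' hy'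
  simp only [smul_def, List.mem_map] at hx hy hy'
  obtain ⟨x, hx, rfl⟩ := hx
  obtain ⟨y, hy, rfl⟩ := hy
  obtain ⟨y', hy', rfl⟩ := hy'
  rw [ev_sh, ev_sh, h x hx y hy y' hy']

def IG (Λ : Submodule ℤ (Pt g)) : Submodule ℚ (T (Pt g) (E g)) :=
  Submodule.span ℚ {w | ∃ l ∈ Λ, ∃ e z, w = rho l e z - z}

def dg (b : Pr (Pt g) (E g)) : Prop := b.1 = [] ∨ b.2 = []

def J (Λ : Submodule ℤ (Pt g)) : Submodule ℚ (T (Pt g) (E g)) := IG Λ ⊔ sp dg

lemma rho_sub_mem {l : Pt g} (hl : l ∈ Λ) (e : E g) (z) : rho l e z - z ∈ IG Λ :=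
  Submodule.subset_span ⟨l, hl, e, z, rfl⟩

lemma IG_J {z} (h : z ∈ IG Λ) : z ∈ J Λ := Submodule.mem_sup_left h

lemma dg_J {z} (h : z ∈ sp dg) : z ∈ J Λ := Submodule.mem_sup_right h

lemma map_IG {Z : Type*} [AddCommGroup Z] [Module ℚ Z] {S : Submodule ℚ Z}
    (F : T (Pt g) (E g) →ₗ[ℚ] Z) (h : ∀ l ∈ Λ, ∀ e z, F (rho l e z - z) ∈ S) {z}
    (hz : z ∈ IG Λ) : F z ∈ S :=
  (Submodule.span_le.2 (by rintro _ ⟨l, hl, e, z, rfl⟩; exact h l hl e z) : IG Λ ≤ S.comap F) hz

lemma map_IG_comm (F : T (Pt g) (E g) →ₗ[ℚ] T (Pt g) (E g))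
    (h : ∀ l ∈ Λ, ∀ e z, F (rho l e z) = rho l e (F z)) {z} (hz : z ∈ IG Λ) : F z ∈ IG Λ :=
  map_IG F (fun l hl e z => by rw [map_sub, h l hl]; exact rho_sub_mem hl _ _) hz

lemma map_J {Z : Type*} [AddCommGroup Z] [Module ℚ Z] {S : Submodule ℚ Z}
    (F : T (Pt g) (E g) →ₗ[ℚ] Z) (h : ∀ z ∈ IG Λ, F z ∈ S)
    (h' : ∀ x y, dg (x, y) → F (sg x ⊗ₜ sg y) ∈ S) {z} (hz : z ∈ J Λ) : F z ∈ S :=
  (sup_le (fun z hz => h z hz) (fun _ hz => map_sp F h' hz) : J Λ ≤ S.comap F) hz

lemma dx_J {z} (hz : z ∈ J Λ) : dx z ∈ J Λ :=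
  map_J _ (fun _ h => IG_J (map_IG_comm _ (fun l _ e z => dx_rho l e z) h))
    (fun x y h => dg_J (dx_mem_sp x y fun x' h1 _ => h.imp_left fun h2 => by
      change x = [] at h2
      rw [h2] at h1
      exact List.sublist_nil.1 h1)) hz

lemma str_of_dg {b : Pr (Pt g) (E g)} (h : dg b) : str b := by
  intro x hx y hy
  rcases h with h | h
  · rw [h] at hx; simp at hx
  · rw [h] at hy; simp at hy

theorem straighten {c : T (Pt g) (E g)} (hc : c ∈ sp fun b => len b ≤ g + 2) (hd : dT c ∈ J Λ) :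
    ∃ s ∈ sp str, dT s ∈ J Λ ∧ ∃ u, c - s - dT u ∈ J Λ := by
  obtain ⟨H, hH, hH0, hH1⟩ := carrier (G := GG Λ) (basT (Pt g) (E g)) (fun a => rho a.l a.e)
    rho_bas dT dT_dT (fun a => dT_rho a.l a.e) len (fun a b => by simp [len, smul_def])
    (fun _ => True) str (fun _ _ => Iff.rfl)
    (fun a b => ⟨fun h => by simpa using str_smul a⁻¹ h, str_smul a⟩)
    (fun a b hb e => by
      obtain ⟨x, y⟩ := b
      cases x with
      | nil => exact (hb (str_of_dg (Or.inl rfl))).elim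
      | cons x0 x =>
      cases y with
      | nil => exact (hb (str_of_dg (Or.inr rfl))).elim
      | cons y0 y =>
      simp only [smul_def, List.map_cons, Prod.mk.injEq, List.cons.injEq, add_eq_left] at e
      have h1 : a.l = 0 := e.1.1
      have h2 := e.2.1
      rw [h1, sh_zero, add_eq_left] at h2
      exact GG.ext h1 h2)
    (sp str)
    (fun a z hz => map_sp _ (fun x y h => by
      have := rho_bas a (x, y)
      rw [basT_apply, basT_apply] at this
      rw [this]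
      exact mem_sp (str_smul a h)) hz)
    (fun b h => by rw [basT_apply]; exact mem_sp h)
    (fun _ k => sp fun b => len b ≤ k)
    (fun a _ k z hz => map_sp _ (fun x y h => by
      have := rho_bas a (x, y)
      rw [basT_apply, basT_apply] at this
      rw [this]
      exact mem_sp (by simpa [len, smul_def] using h)) hz)
    (fun b _ => by rw [basT_apply]; exact mem_sp le_rfl)
    (fun b _ => by
      rw [basT_apply]
      exact dT_mem_sp b.1 b.2 (fun x' h1 h2 => ⟨trivial, by simp only [len]; omega,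
        fun _ => le_rfl, fun h => str_sub h h1 (List.Sublist.refl _)⟩) (fun y' h1 h2 =>
          ⟨trivial, by simp only [len]; omega, fun _ => le_rfl,
            fun h => str_sub h (List.Sublist.refl _) h1⟩))
    (g + 3)
    (fun b _ hl hb z hz hdz => by
      obtain ⟨k, hk⟩ : ∃ k, len b = k + 1 := by
        refine Nat.exists_eq_succ_of_ne_zero fun h => hb (str_of_dg (Or.inl ?_))
        exact List.length_eq_zero_iff.1 (by simp only [len] at h; omega)
      rw [hk] at hz ⊢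
      obtain ⟨σ, h1, h2⟩ := str_acyclic (k := k) (by omega) (sp_and hdz (dT_len hz)) (dT_dT z)
      refine ⟨kx 0 (z - σ), map_sp _ (fun x y h => ?_)
        (sub_mem hz (sp_mono (fun _ h => h.2) h1)), ?_⟩
      · simp only [kx, map_tmul, LinearMap.id_apply, cone_sg]
        exact mem_sp (by simp only [len, List.length_cons] at *; omega)
      · rw [dT_kx, map_sub, h2, sub_self, map_zero, sub_zero, sub_sub_cancel]
        exact sp_mono (fun _ h => h.1) h1)
  have hJ : H (dT c) ∈ IG Λ := map_J H (fun _ h => map_IG_comm _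
    (fun l hl e z => hH ⟨l, e, hl⟩ z) h) (fun x y h => by
      have := hH0 _ (str_of_dg h)
      rw [basT_apply] at this
      rw [this]; exact zero_mem _) hd
  refine ⟨c - dT (H c) - H (dT c), ?_, ?_, H c, ?_⟩
  · exact map_sp (LinearMap.id - dT ∘ₗ H - H ∘ₗ dT) (fun x y h => by
      have := (hH1 (x, y) trivial (by omega)).2
      rwa [basT_apply] at this) hc
  · rw [map_sub, map_sub, dT_dT, sub_zero]
    exact sub_mem hd (IG_J (map_IG_comm _ (fun l _ e z => dT_rho l e z) hJ))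
  · have : c - (c - dT (H c) - H (dT c)) - dT (H c) = H (dT c) := by abel
    rw [this]; exact IG_J hJ

end

end Pool.Agent.P.MP_7b53ad_ag.Trop
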