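import Pool.Agent.P.MP_7b53ad_ag.Trop.Main

/-! Change of coordinates: the theorem for an arbitrary pair of lattices. -/

namespace Pool.Agent.P.MP_7b53ad_ag.Trop

open TensorProduct Module ExteriorAlgebra

noncomputable section

variable {V W : Type} [AddCommGroup V] [Module ℝ V] [AddCommGroup W] [Module ℝ W] {n : ℕ}

def KK (e : V ≃ₗ[ℝ] W) : ExteriorAlgebra ℝ V →ₗ[ℝ] ExteriorAlgebra ℝ W :=
  (ExteriorAlgebra.map e.toLinearMap).toLinearMap

lemma KK_mul (e : V ≃ₗ[ℝ] W) (v : V) (a) : KK e (ι ℝ v * a) = ι ℝ (e v) * KK e a := by simp [KK]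

lemma KK_one (e : V ≃ₗ[ℝ] W) : KK e 1 = 1 := by simp [KK]

lemma KK_KK (e : V ≃ₗ[ℝ] W) (a) : KK e (KK e.symm a) = a := by
  induction a using ext_ind with
  | h1 r => simp [KK_one]
  | ha x y hx hy => simp [hx, hy]
  | hm m x hx => simp [KK_mul, hx]

lemma KK_inj (e : V ≃ₗ[ℝ] W) : Function.Injective (KK e) :=
  Function.LeftInverse.injective (KK_KK e.symm)

lemma KK_ιMulti (e : V ≃ₗ[ℝ] W) (v : Fin n → V) :
    KK e (ιMulti ℝ n v) = ιMulti ℝ n fun i => e (v i) := map_apply_ιMulti _ _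

lemma qspan_map {X Y : Type} [AddCommGroup X] [AddCommGroup Y] (f : X →+ Y) {S : Set X} {S' : Set Y}
    (h : ∀ x ∈ S, f x ∈ S') {x : X} (hx : x ∈ qspan S) : f x ∈ qspan S' := by
  obtain ⟨m, hm, hx⟩ := hx
  refine ⟨m, hm, ?_⟩
  rw [← map_nsmul]
  exact (AddSubgroup.closure_le ((AddSubgroup.closure S').comap f)).2
    (fun y hy => AddSubgroup.subset_closure (h y hy)) hx

lemma ratPow_map (e : V ≃ₗ[ℝ] W) {L : Submodule ℤ V} {L' : Submodule ℤ W} (h : ∀ v ∈ L, e v ∈ L')
    {p : ℕ} {a} (ha : a ∈ ratPow L p) : KK e a ∈ ratPow L' p :=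
  qspan_map (KK e).toAddMonoidHom (by
    rintro _ ⟨v, hv, rfl⟩; exact ⟨_, fun i => h _ (hv i), KK_ιMulti e v⟩) ha

lemma classes_map (e : V ≃ₗ[ℝ] W) {L N : Submodule ℤ V} {L' N' : Submodule ℤ W}
    (h : ∀ v ∈ L, e v ∈ L') (h' : ∀ v ∈ N, e v ∈ N') {p : ℕ} {w} (hw : w ∈ classes L N p) :
    TensorProduct.map (KK e) (KK e) w ∈ classes L' N' p :=
  qspan_map (TensorProduct.map (KK e) (KK e)).toAddMonoidHom (by
    rintro _ ⟨a, ha, b, hb, rfl⟩; exact ⟨_, ratPow_map e h ha, _, ratPow_map e h' hb, rfl⟩) hw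

lemma KK_ct (e : V ≃ₗ[ℝ] W) (h : Dual ℝ V) (h' : Dual ℝ W) (hh : ∀ v, h' (e v) = h v) (a) :
    ct h' (KK e a) = KK e (ct h a) := by
  induction a using ext_ind with
  | h1 r => simp [KK_one, ct_one]
  | ha x y hx hy => simp [hx, hy]
  | hm m x hx => simp [KK_mul, ct_mul, hx, hh]

lemma eigenwave_map {g : ℕ} (e : V ≃ₗ[ℝ] W) (B : Basis (Fin g) ℝ V) (w) :
    eigenwave (B.map e) (TensorProduct.map (KK e) (KK e) w) =
      TensorProduct.map (KK e) (KK e) (eigenwave B w) := by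
  rw [eigenwave, eigenwave, map_sum]
  refine Finset.sum_congr rfl fun k _ => ?_
  have : TensorProduct.map (ct ((B.map e).coord k)) (LinearMap.mulLeft ℝ (ι ℝ (B.map e k))) ∘ₗ
      TensorProduct.map (KK e) (KK e) = TensorProduct.map (KK e) (KK e) ∘ₗ
      TensorProduct.map (ct (B.coord k)) (LinearMap.mulLeft ℝ (ι ℝ (B k))) := ext' fun a b => by
    simp only [LinearMap.comp_apply, map_tmul, LinearMap.mulLeft_apply, KK_mul, Basis.map_apply]
    rw [KK_ct e (B.coord k) _ fun v => by simp]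
  exact LinearMap.congr_fun this w

lemma edgeVol_map (e : V ≃ₗ[ℝ] W) (τ : Fin (n + 1) → V) :
    edgeVol (fun i => e (τ i)) = KK e (edgeVol τ) := by
  simp [edgeVol, KK_ιMulti]

lemma sheets_map (e : V ≃ₗ[ℝ] W) {L : Submodule ℤ V} {L' : Submodule ℤ W}
    (h : ∀ v, e v ∈ L' ↔ v ∈ L) (η) (x : V) (τ : Fin (n + 1) → V) :
    sheets L' (KK e η) (e x) (fun i => e (τ i)) = sheets L η x τ := by
  have h1 : ∀ y, e y ∈ openSimplex (fun i => e (τ i)) ↔ y ∈ openSimplex τ := fun y =>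
    exists_congr fun t => and_congr_right fun _ => and_congr_right fun _ => by
      simp only [← map_smul, ← map_sum, e.injective.eq_iff]
  have h2 : {l | l ∈ L' ∧ e x + l ∈ openSimplex fun i => e (τ i)} =
      e '' {l | l ∈ L ∧ x + l ∈ openSimplex τ} := by
    ext y
    obtain ⟨y, rfl⟩ := e.surjective y
    rw [e.injective.mem_set_image]
    simp only [Set.mem_ofPred_eq, ← map_add, h, h1]
  rw [sheets, sheets, h2, Set.ncard_image_of_injective _ e.injective, edgeVol_map]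
  have h3 : ∀ (c : ℝ) a, KK e a = c • KK e η ↔ a = c • η := fun c a => by
    rw [← map_smul, (KK_inj e).eq_iff]
  congr 1
  unfold orient
  classical
  exact if_congr (exists_congr fun c => and_congr_right fun _ => h3 c _) rfl
    (if_congr (exists_congr fun c => and_congr_right fun _ => h3 c _) rfl rfl)

lemma transport (e : V ≃ₗ[ℝ] W) {L N : Submodule ℤ V} {L' N' : Submodule ℤ W}
    (h : ∀ v, e v ∈ L' ↔ v ∈ L) (h' : ∀ v ∈ N, e v ∈ N')
    {Z : (Fin (n + 2) → V) →₀ ExteriorAlgebra ℝ V} (hZ : IsTropicalCycle L N Z) :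
    ∃ Z' : (Fin (n + 2) → W) →₀ ExteriorAlgebra ℝ W, IsTropicalCycle L' N' Z' ∧
      cycleClass Z' = TensorProduct.map (KK e) (KK e) (cycleClass Z) := by
  classical
  let f : (Fin (n + 2) → V) ≃ (Fin (n + 2) → W) := Equiv.arrowCongr (Equiv.refl _) e.toEquiv
  have hf : ∀ σ, f σ = fun i => e (σ i) := fun σ => rfl
  let Z' := (Z.mapRange (KK e) (map_zero _)).equivMapDomain f
  have h1 : ∀ σ, Z' (f σ) = KK e (Z σ) := fun σ => by simp [Z']
  have h2 : Z'.support = Z.support.map f.toEmbedding := by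
    ext σ
    obtain ⟨σ, rfl⟩ := f.surjective σ
    simp [h1, map_eq_zero_iff _ (KK_inj e)]
  refine ⟨Z', ⟨fun σ hσ => ?_, fun σ => ?_, fun σ j => ?_, ?_⟩, ?_⟩
  · obtain ⟨σ, rfl⟩ := f.surjective σ
    have := (hZ.nondeg σ (by simpa [h2] using hσ)).map' e.toLinearMap e.ker
    simpa [hf, Function.comp_def] using this
  · obtain ⟨σ, rfl⟩ := f.surjective σ
    rw [h1]; exact ratPow_map e h' (hZ.rational σ)
  · obtain ⟨σ, rfl⟩ := f.surjective σ
    rw [h1, hf, ← map_sub, ← KK_mul, hZ.tangent, map_zero]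
  · obtain ⟨F, hF, hb⟩ := hZ.balanced
    refine ⟨F.image fun s => s.image e, fun s hs => ?_, fun x hx η hη => ?_⟩
    · obtain ⟨s, hs', rfl⟩ := Finset.mem_image.1 hs
      exact Finset.card_image_le.trans (hF s hs')
    · obtain ⟨x, rfl⟩ := e.surjective x
      obtain ⟨η, rfl⟩ : ∃ η', KK e η' = η := ⟨_, KK_KK e η⟩
      have := hb x (fun s hs l hl hm => hx _ (Finset.mem_image_of_mem _ hs) (e l) ((h l).2 hl) (by
        have := AffineSubspace.mem_map_of_mem e.toLinearMap.toAffineMap hm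
        rw [AffineSubspace.map_span] at this
        simpa using this)) η (fun e0 => hη (by rw [e0, map_zero]))
      rw [h2, Finset.sum_map, ← map_zero (KK e), ← this, map_sum]
      refine Finset.sum_congr rfl fun σ _ => ?_
      rw [map_sum]
      refine Finset.sum_congr rfl fun j _ => ?_
      rw [Equiv.coe_toEmbedding, h1, map_zsmul, ← sheets_map e h]
      rfl
  · rw [cycleClass, cycleClass, h2, Finset.sum_map, map_sum]
    refine Finset.sum_congr rfl fun σ _ => ?_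
    rw [Equiv.coe_toEmbedding, h1, hf, edgeVol_map, map_tmul, map_smul]

lemma mem_span_map {g : ℕ} (e : V ≃ₗ[ℝ] W) (B : Basis (Fin g) ℝ V) (v : V) :
    e v ∈ Submodule.span ℤ (Set.range (B.map e)) ↔ v ∈ Submodule.span ℤ (Set.range B) := by
  simp [Basis.mem_span_iff_repr_mem]

theorem tropical_hodge_general {g : ℕ} (B C : Basis (Fin g) ℝ V) {w}
    (hw : w ∈ classes (Submodule.span ℤ (Set.range B)) (Submodule.span ℤ (Set.range C)) (n + 1))
    (h0 : eigenwave B w = 0) :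
    ∃ Z : (Fin (n + 2) → V) →₀ ExteriorAlgebra ℝ V,
      IsTropicalCycle (Submodule.span ℤ (Set.range B)) (Submodule.span ℤ (Set.range C)) Z ∧
        cycleClass Z = w := by
  let e := C.equivFun
  have hC : C.map e = Pi.basisFun ℝ (Fin g) := Basis.eq_of_apply_eq fun i => by
    ext j; simp [e, Pi.single_apply, eq_comm]
  obtain ⟨Z, hZ, hc⟩ := tropical_hodge' (B.map e) (classes_map e
    (fun v hv => (mem_span_map e B v).2 hv) (fun v hv => by
      have := (mem_span_map e C v).2 hv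
      rwa [hC] at this) hw)
    (by rw [eigenwave_map, h0, map_zero])
  obtain ⟨Z', hZ', hc'⟩ := transport e.symm (L' := Submodule.span ℤ (Set.range B))
    (N' := Submodule.span ℤ (Set.range C))
    (fun v => by rw [← mem_span_map e B, e.apply_symm_apply])
    (fun v hv => by rw [← mem_span_map e C, e.apply_symm_apply, hC]; exact hv) hZ
  refine ⟨Z', hZ', ?_⟩
  rw [hc', hc, TensorProduct.map_map]
  have : KK e.symm ∘ₗ KK e = LinearMap.id := LinearMap.ext (KK_KK e.symm)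
  simp [this]

end

end Pool.Agent.P.MP_7b53ad_ag.Trop
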