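import Pool.Agent.P.MP_7b53ad_ag.Trop.Chain

/-! Homology of a rational vector space as a discrete group is detected by the volume cocycle. -/

namespace Pool.Agent.P.MP_7b53ad_ag.Trop

noncomputable section

section Coinv
variable {V : Type*} [AddCommGroup V] {X : Type*} [AddCommGroup X] [Module ℚ X]

/-- differences of translates -/
def I (S : Set V) : Submodule ℚ (C V) := Submodule.span ℚ {w | ∃ s ∈ S, ∃ z, w = tr s z - z}

def I0 (S : Set V) : Submodule ℚ (C V) := I S ⊔ deg V 0

lemma tr_sub_mem {S : Set V} {s : V} (hs : s ∈ S) (z : C V) : tr s z - z ∈ I S :=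
  Submodule.subset_span ⟨s, hs, z, rfl⟩

lemma map_I {S : Set V} {T : Submodule ℚ X} (F : C V →ₗ[ℚ] X)
    (h : ∀ s ∈ S, ∀ z, F (tr s z - z) ∈ T) {z : C V} (hz : z ∈ I S) : F z ∈ T :=
  (Submodule.span_le.2 (by rintro _ ⟨s, hs, z, rfl⟩; exact h s hs z) : I S ≤ T.comap F) hz

lemma map_I_comm {S : Set V} (F : C V →ₗ[ℚ] C V) (h : ∀ s ∈ S, ∀ z, F (tr s z) = tr s (F z))
    {z : C V} (hz : z ∈ I S) : F z ∈ I S :=
  map_I F (fun s hs z => by rw [map_sub, h s hs]; exact tr_sub_mem hs _) hz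

lemma map_I0 {S : Set V} {T : Submodule ℚ X} (F : C V →ₗ[ℚ] X)
    (h : ∀ z ∈ I S, F z ∈ T) (h0 : F (sg []) ∈ T) {z : C V} (hz : z ∈ I0 S) : F z ∈ T :=
  (sup_le (fun z hz => h z hz) (deg_le fun l hl => by
    rw [List.length_eq_zero_iff.1 hl]; exact h0) : I0 S ≤ T.comap F) hz

lemma I_le_I0 {S : Set V} {z : C V} (hz : z ∈ I S) : z ∈ I0 S := Submodule.mem_sup_left hz

lemma nil_mem_I0 (S : Set V) : sg [] ∈ I0 S := Submodule.mem_sup_right (sg_mem_deg [])

lemma I_mono {S T : Set V} (h : S ⊆ T) : I S ≤ I T :=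
  Submodule.span_mono fun _ ⟨s, hs, z, e⟩ => ⟨s, h hs, z, e⟩

lemma bd_I {S : Set V} {z : C V} (hz : z ∈ I S) : bd z ∈ I S :=
  map_I_comm _ (fun s _ z => bd_tr s z) hz

lemma bd_I0 {S : Set V} {z : C V} (hz : z ∈ I0 S) : bd z ∈ I S :=
  map_I0 _ (fun _ => bd_I) (by simp) hz

lemma pt_I {S : Set V} (v : V) {z : C V} (hz : z ∈ I S) : pt v z ∈ I S :=
  map_I_comm _ (fun s _ z => (tr_pt s v z).symm) hz

lemma pt_I0 {S : Set V} (v : V) {z : C V} (hz : z ∈ I0 S) : pt v z ∈ I S :=
  map_I0 _ (fun _ => pt_I v) (by simp) hz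

lemma tr_I {S : Set V} (v : V) {z : C V} (hz : z ∈ I S) : tr v z ∈ I S :=
  map_I_comm _ (fun s _ z => tr_comm v s z) hz

lemma pj_I {S : Set V} (n : ℕ) {z : C V} (hz : z ∈ I S) : pj n z ∈ I S :=
  map_I_comm _ (fun _ _ z => pj_mp n _ z) hz

lemma pj_I0 {S : Set V} (n : ℕ) {z : C V} (hz : z ∈ I0 S) : pj n z ∈ I0 S :=
  map_I0 _ (fun _ h => I_le_I0 (pj_I n h)) (by
    rw [pj_sg]; split_ifs; exacts [nil_mem_I0 S, zero_mem _]) hz

lemma tr_sub_mem_closure {S : Set V} {u : V} (hu : u ∈ AddSubgroup.closure S) (z : C V) :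
    tr u z - z ∈ I S := by
  induction hu using AddSubgroup.closure_induction generalizing z with
  | mem x hx => exact tr_sub_mem hx z
  | zero => simp [tr_zero]
  | add a b _ _ iha ihb =>
    have : tr (a + b) z - z = (tr a (tr b z) - tr b z) + (tr b z - z) := by rw [tr_tr]; abel
    rw [this]; exact add_mem (iha _) (ihb _)
  | neg a _ ih =>
    have : tr (-a) z - z = -(tr a (tr (-a) z) - tr (-a) z) := by
      rw [tr_tr, add_neg_cancel, tr_zero]; abel
    rw [this]; exact neg_mem (ih _)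

lemma I_le_closure {S T : Set V} (h : S ⊆ AddSubgroup.closure T) : I S ≤ I T :=
  Submodule.span_le.2 (by rintro _ ⟨s, hs, z, rfl⟩; exact tr_sub_mem_closure (h hs) z)

lemma wd_I {A : Type*} [Ring A] [Algebra ℚ A] {f : V →+ A} (hf : ∀ v, f v * f v = 0) {S : Set V}
    {z : C V} (hz : z ∈ I S) : wd f z = 0 :=
  map_I (T := ⊥) _ (fun s _ z => by simp [wd_tr hf]) hz

lemma I0_insert {S : Set V} {t : V} {z : C V} (hz : z ∈ I0 (insert t S)) :
    ∃ y, z - (tr t y - y) ∈ I0 S := by
  have : I0 (insert t S) ≤ I0 S ⊔ LinearMap.range (tr t - LinearMap.id) := by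
    refine sup_le (Submodule.span_le.2 ?_) (le_sup_right.trans le_sup_left)
    rintro _ ⟨s, hs | hs, z, rfl⟩
    · subst hs; exact Submodule.mem_sup_right ⟨z, rfl⟩
    · exact Submodule.mem_sup_left (I_le_I0 (tr_sub_mem hs z))
  obtain ⟨a, ha, _, ⟨y, rfl⟩, rfl⟩ := Submodule.mem_sup.1 (this hz)
  exact ⟨y, by simpa using ha⟩

lemma exists_sum_int {Y : Type*} [AddCommGroup Y] (f : ℤ → Y) :
    ∃ G : ℤ → Y, ∀ n, G (n + 1) = G n + f n := by
  refine ⟨fun n => ∑ i ∈ Finset.Ico 0 n, f i - ∑ i ∈ Finset.Ico n 0, f i, fun n => ?_⟩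
  rcases le_or_gt 0 n with h | h
  · have e : Finset.Ico 0 (n + 1) = insert n (Finset.Ico 0 n) := by
      ext i; simp only [Finset.mem_Ico, Finset.mem_insert]; omega
    simp only
    rw [e, Finset.sum_insert (by simp), Finset.Ico_eq_empty_of_le h,
      Finset.Ico_eq_empty_of_le (by omega : 0 ≤ n + 1)]
    abel
  · have e : Finset.Ico n 0 = insert n (Finset.Ico (n + 1) 0) := by
      ext i; simp only [Finset.mem_Ico, Finset.mem_insert]; omega
    simp only
    rw [e, Finset.sum_insert (by simp), Finset.Ico_eq_empty_of_le h.le,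
      Finset.Ico_eq_empty_of_le (by omega : n + 1 ≤ 0)]
    abel

/-- endomorphisms commuting with translations -/
def cent (V : Type*) [AddCommGroup V] : Submodule ℚ (C V →ₗ[ℚ] C V) where
  carrier := {F | ∀ u z, F (tr u z) = tr u (F z)}
  add_mem' ha hb u z := by simp [ha u z, hb u z]
  zero_mem' u z := by simp
  smul_mem' c F h u z := by simp [h u z]

lemma tr_inj (h : V →+ ℚ) {S : Set V} (hS : ∀ s ∈ S, h s = 0) {t : V} (ht : h t = 1) {y : C V}
    (hy : tr t y - y ∈ I S) : y ∈ I0 S := by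
  obtain ⟨G, hG⟩ := exists_sum_int (Y := cent V) fun n => ⟨tr (n • t), fun u z => tr_comm _ _ _⟩
  let σ : C V →ₗ[ℚ] C V := lin fun l => match l with
    | [] => 0
    | x :: l => (G ⌊h x⌋).1 (tr (-(⌊h x⌋ • t)) (sg (x :: l)))
  have h1 : σ ∘ₗ (tr t - LinearMap.id) = LinearMap.id - pj 0 := ext_sg fun l => by
    cases l with
    | nil => simp [σ, pj_sg]
    | cons x l =>
      have e : tr t (sg (x :: l)) = sg ((x + t) :: l.map fun x => x + t) := by simp [tr]
      simp only [LinearMap.comp_apply, LinearMap.sub_apply, LinearMap.id_apply, map_sub, pj_sg]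
      rw [e]
      simp only [σ, lin_sg]
      rw [← e, map_add, ht, Int.floor_add_one, hG, tr_tr]
      have : -((⌊h x⌋ + 1) • t) + t = -(⌊h x⌋ • t) := by rw [add_smul, one_smul]; abel
      rw [this]
      simp [tr_tr, tr_zero]
  have h2 : ∀ s ∈ S, ∀ z, σ (tr s z) = tr s (σ z) := fun s hs z => by
    have : σ ∘ₗ tr s = tr s ∘ₗ σ := ext_sg fun l => by
      cases l with
      | nil => simp [σ]
      | cons x l =>
        have e : tr s (sg (x :: l)) = sg ((x + s) :: l.map fun x => x + s) := by simp [tr]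
        simp only [LinearMap.comp_apply]
        rw [e]
        simp only [σ, lin_sg]
        rw [← e, map_add, hS s hs, add_zero, tr_comm, (G _).2]
    exact LinearMap.congr_fun this z
  have h3 := map_I_comm σ h2 hy
  have h4 := LinearMap.congr_fun h1 y
  simp only [LinearMap.comp_apply, LinearMap.sub_apply, LinearMap.id_apply] at h4
  rw [h4] at h3
  have : y = (y - pj 0 y) + pj 0 y := by abel
  rw [this]
  exact add_mem (I_le_I0 h3) (Submodule.mem_sup_right (pj_mem 0 y))

end Coinv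

section Ext
variable (R : Type*) {M : Type*} [CommRing R] [AddCommGroup M] [Module R M]

/-- the generator map of the exterior algebra as an additive map -/
def io : M →+ ExteriorAlgebra R M := (ExteriorAlgebra.ι R).toAddMonoidHom

@[simp] lemma io_apply (v : M) : io R v = ExteriorAlgebra.ι R v := rfl

lemma io_sq (v : M) : io R v * io R v = 0 := ExteriorAlgebra.ι_sq_zero v

variable {R}

/-- contraction with a linear form -/
def ct (h : Module.Dual R M) : ExteriorAlgebra R M →ₗ[R] ExteriorAlgebra R M :=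
  CliffordAlgebra.contractLeft (Q := (0 : QuadraticForm R M)) h

lemma ct_mul (h : Module.Dual R M) (v : M) (a : ExteriorAlgebra R M) :
    ct h (ExteriorAlgebra.ι R v * a) = h v • a - ExteriorAlgebra.ι R v * ct h a :=
  CliffordAlgebra.contractLeft_ι_mul h v a

lemma ct_one (h : Module.Dual R M) : ct h 1 = 0 := CliffordAlgebra.contractLeft_one _ h

lemma ct_ct (h : Module.Dual R M) (a : ExteriorAlgebra R M) : ct h (ct h a) = 0 :=
  CliffordAlgebra.contractLeft_contractLeft h a

lemma ct_comm (h k : Module.Dual R M) (a : ExteriorAlgebra R M) :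
    ct h (ct k a) = -ct k (ct h a) := CliffordAlgebra.contractLeft_comm h k a

end Ext

section Wang
variable {E : Type*} [AddCommGroup E] [Module ℚ E]

lemma deg_zero_eq {V : Type*} {z : C V} (hz : z ∈ deg V 0) : ∃ c : ℚ, z = c • sg [] := by
  have : deg V 0 ≤ Submodule.span ℚ {sg []} := deg_le fun l hl => by
    rw [List.length_eq_zero_iff.1 hl]; exact Submodule.mem_span_singleton_self _
  obtain ⟨c, hc⟩ := Submodule.mem_span_singleton.1 (this hz)
  exact ⟨c, hc.symm⟩

lemma wang_fin (S : Finset E) (hS : LinearIndepOn ℚ id (S : Set E)) (b : ℕ) (z : C E)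
    (hz : z ∈ deg E b) (hc : bd z ∈ I0 (S : Set E)) :
    (∀ h : Module.Dual ℚ E, (∀ s ∈ S, h s = 0) → ct h (wd (io ℚ) z) = 0) ∧
      (wd (io ℚ) z = 0 → ∃ u ∈ deg E (b + 1), z - bd u ∈ I (S : Set E)) := by
  classical
  induction S using Finset.induction_on generalizing b z with
  | empty =>
    have : I0 ((∅ : Finset E) : Set E) ≤ deg E 0 :=
      sup_le (Submodule.span_le.2 (by rintro _ ⟨s, hs, _⟩; simp at hs)) le_rfl
    obtain ⟨c, hc⟩ := deg_zero_eq (this hc)
    have hw : wd (io ℚ) z = c • (1 : ExteriorAlgebra ℚ E) := by rw [wd_apply, hc]; simp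
    refine ⟨fun h _ => by rw [hw, map_smul, ct_one, smul_zero], fun h0 => ?_⟩
    rw [hw, smul_eq_zero, or_iff_left one_ne_zero] at h0
    refine ⟨cone 0 z, cone_deg _ hz, ?_⟩
    rw [bd_cone, hc, h0]; simp
  | insert t S ht ih =>
    cases b with
    | zero =>
      have h0 := bd_deg_zero hz
      refine ⟨fun h _ => by simp [wd_apply, h0], fun _ => ⟨cone 0 z, cone_deg _ hz, ?_⟩⟩
      rw [bd_cone, h0]; simp
    | succ b =>
      rw [Finset.coe_insert] at hS hc ⊢
      obtain ⟨hS', htS⟩ := (linearIndepOn_id_insert (by simpa using ht)).1 hS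
      obtain ⟨h1, h1t, h1S⟩ := Submodule.exists_dual_map_eq_bot_of_notMem htS inferInstance
      let h0 : Module.Dual ℚ E := (h1 t)⁻¹ • h1
      have h0t : h0 t = 1 := by simp [h0, h1t]
      have h0S : ∀ s ∈ S, h0 s = 0 := fun s hs => by
        have : h1 s ∈ (Submodule.span ℚ (S : Set E)).map h1 :=
          Submodule.mem_map_of_mem (Submodule.subset_span hs)
        rw [h1S, Submodule.mem_bot] at this
        simp [h0, this]
      obtain ⟨y0, hy0⟩ := I0_insert hc
      set y := pj b y0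
      have hy : y ∈ deg E b := pj_mem _ _
      have hy1 : bd z - (tr t y - y) ∈ I0 (S : Set E) := by
        have := pj_I0 b hy0
        rwa [map_sub, map_sub, pj_of_mem (bd_deg hz), tr, pj_mp] at this
      have hy2 : bd y ∈ I0 (S : Set E) := by
        refine tr_inj h0.toAddMonoidHom h0S h0t ?_
        have := neg_mem (bd_I0 hy1)
        rwa [map_sub, map_sub, bd_bd, bd_tr, zero_sub, neg_neg] at this
      have hz' : z - pt t y ∈ deg E (b + 1) := sub_mem hz (pr_deg _ hy)
      have hz1 : bd (z - pt t y) ∈ I0 (S : Set E) := by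
        have : bd (z - pt t y) = (bd z - (tr t y - y)) + pt t (bd y) := by
          rw [map_sub, bd_pt]; abel
        rw [this]; exact add_mem hy1 (I_le_I0 (pt_I0 t hy2))
      obtain ⟨ay, by'⟩ := ih hS' b y hy hy2
      obtain ⟨az, bz⟩ := ih hS' (b + 1) _ hz' hz1
      have hw : wd (io ℚ) z = wd (io ℚ) (z - pt t y) +
          (b : ℚ) • (ExteriorAlgebra.ι ℚ t * wd (io ℚ) y) := by
        rw [map_sub, wd_pt (io_sq ℚ) t hy]; simp
      refine ⟨fun h hh => ?_, fun hw0 => ?_⟩
      · have hS0 : ∀ s ∈ S, h s = 0 := fun s hs => hh s (Finset.mem_insert_of_mem hs)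
        rw [hw, map_add, az h hS0, map_smul, ct_mul, ay h hS0, hh t (Finset.mem_insert_self _ _)]
        simp
      · have e1 : (b : ℚ) • wd (io ℚ) y = 0 := by
          have := congrArg (ct h0) hw
          rw [hw0, map_add, az h0 h0S, map_smul, ct_mul, ay h0 h0S, h0t] at this
          simpa using this.symm
        have e2 : wd (io ℚ) y = 0 := by
          rcases smul_eq_zero.1 e1 with e | e
          · have : b = 0 := by exact_mod_cast e
            subst this
            simp [wd_apply, bd_deg_zero hy]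
          · exact e
        rw [hw0, e2] at hw
        obtain ⟨a, ha, ha'⟩ := by' e2
        obtain ⟨a', hb, hb'⟩ := bz (by simpa using hw.symm)
        refine ⟨a' - pt t a, sub_mem hb (pr_deg _ ha), ?_⟩
        have : z - bd (a' - pt t a) =
            (z - pt t y - bd a') + pt t (y - bd a) + (tr t a - a) := by
          rw [map_sub, bd_pt, map_sub]; abel
        rw [this]
        exact add_mem (add_mem (I_mono (Set.subset_insert _ _) hb')
          (I_mono (Set.subset_insert _ _) (pt_I t ha'))) (tr_sub_mem (Set.mem_insert _ _) _)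

lemma exists_indep (S : Finset E) :
    ∃ T : Finset E, LinearIndepOn ℚ id (T : Set E) ∧ 
      (S : Set E) ⊆ (AddSubgroup.closure (T : Set E) : Set E) := by
  classical
  let U := Submodule.span ℤ (S : Set E)
  have : Module.Finite ℤ U := Module.Finite.span_of_finite ℤ S.finite_toSet
  have : Module.IsTorsionFree ℤ E := by
    have := IsAddTorsionFree.of_isTorsionFree ℚ E
    infer_instance
  let b := Module.finBasis ℤ U
  have hb : LinearIndependent ℤ (U.subtype ∘ b) := b.linearIndependent.map' _ U.ker_subtype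
  have hq : LinearIndependent ℚ (U.subtype ∘ b) := (LinearIndependent.iff_fractionRing ℤ ℚ).1 hb
  refine ⟨Finset.univ.image (U.subtype ∘ b), ?_, fun s hs => ?_⟩
  · rw [Finset.coe_image, Finset.coe_univ, Set.image_univ]
    exact hq.linearIndepOn_id
  · rw [Finset.coe_image, Finset.coe_univ, Set.image_univ, ← Submodule.span_int_eq_addSubgroupClosure]
    have : s ∈ U.map LinearMap.id := ⟨s, Submodule.subset_span hs, rfl⟩
    have h2 : (⟨s, Submodule.subset_span hs⟩ : U) ∈ Submodule.span ℤ (Set.range b) := by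
      rw [b.span_eq]; trivial
    have h3 := Submodule.mem_map_of_mem (f := U.subtype) h2
    rw [Submodule.map_span, ← Set.range_comp] at h3
    exact h3

lemma I0_fin {V : Type*} [AddCommGroup V] {z : C V} (hz : z ∈ I0 (Set.univ : Set V)) :
    ∃ S : Finset V, z ∈ I0 (S : Set V) := by
  classical
  obtain ⟨a, ha, b, hb, rfl⟩ := Submodule.mem_sup.1 hz
  suffices ∃ S : Finset V, a ∈ I (S : Set V) by
    obtain ⟨S, hS⟩ := this
    exact ⟨S, add_mem (I_le_I0 hS) (Submodule.mem_sup_right hb)⟩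
  clear hz
  induction ha using Submodule.span_induction with
  | mem x hx => obtain ⟨s, _, z, rfl⟩ := hx; exact ⟨{s}, tr_sub_mem (by simp) z⟩
  | zero => exact ⟨∅, zero_mem _⟩
  | add x y _ _ ihx ihy =>
    obtain ⟨S, hS⟩ := ihx
    obtain ⟨T, hT⟩ := ihy
    exact ⟨S ∪ T, add_mem (I_mono (by simp) hS) (I_mono (by simp) hT)⟩
  | smul c x _ ih => obtain ⟨S, hS⟩ := ih; exact ⟨S, Submodule.smul_mem _ _ hS⟩

lemma exists_cycle_list {V A : Type*} [AddCommGroup V] [Ring A] [Algebra ℚ A] {f : V →+ A}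
    (hf : ∀ v, f v * f v = 0) (l : List V) :
    ∃ z ∈ deg V (l.length + 1), bd z ∈ I0 (Set.univ : Set V) ∧ wd f z = (l.map f).prod := by
  induction l with
  | nil =>
    refine ⟨sg [0], sg_mem_deg' (by simp), ?_, by rw [wd_cons hf]; rfl⟩
    rw [bd_cons, bd_nil, map_zero, sub_zero]; exact nil_mem_I0 _
  | cons x l ih =>
    obtain ⟨z, h1, h2, h3⟩ := ih
    refine ⟨((l.length + 1 : ℕ) : ℚ)⁻¹ • pt x z, Submodule.smul_mem _ _ (pr_deg _ h1), ?_, ?_⟩
    · rw [map_smul, bd_pt]
      exact Submodule.smul_mem _ _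
        (sub_mem (I_le_I0 (tr_sub_mem (Set.mem_univ x) _)) (I_le_I0 (pt_I0 x h2)))
    · rw [map_smul, wd_pt hf x h1, h3, smul_smul, inv_mul_cancel₀ (by positivity), one_smul,
        List.map_cons, List.prod_cons]

lemma exists_cycle {V A : Type*} [AddCommGroup V] [Ring A] [Algebra ℚ A] {f : V →+ A}
    (hf : ∀ v, f v * f v = 0) {n : ℕ} {a : A} (ha : a ∈ ex f Set.univ n) :
    ∃ z ∈ deg V (n + 1), bd z ∈ I0 (Set.univ : Set V) ∧ wd f z = a := by
  have : LinearMap.id (R := ℚ) a ∈
      (deg V (n + 1) ⊓ (I0 (Set.univ : Set V)).comap bd).map (wd f) := by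
    refine map_ex LinearMap.id (fun l hl _ => ?_) ha
    subst hl
    obtain ⟨z, h1, h2, h3⟩ := exists_cycle_list hf l
    exact Submodule.mem_map.2 ⟨z, Submodule.mem_inf.2 ⟨h1, h2⟩, h3⟩
  obtain ⟨z, h1, h3⟩ := Submodule.mem_map.1 this
  exact ⟨z, (Submodule.mem_inf.1 h1).1, (Submodule.mem_inf.1 h1).2, h3⟩

/-- a cycle with vanishing volume bounds a chain with vanishing volume -/
theorem wang {b : ℕ} {z : C E} (hz : z ∈ deg E b) (hc : bd z ∈ I0 (Set.univ : Set E))
    (hw : wd (io ℚ) z = 0) :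
    ∃ u ∈ deg E (b + 1), z - bd u ∈ I0 (Set.univ : Set E) ∧ wd (io ℚ) u = 0 := by
  obtain ⟨S, hS⟩ := I0_fin hc
  obtain ⟨T, hT, hST⟩ := exists_indep S
  have : bd z ∈ I0 (T : Set E) := (sup_le_sup_right (I_le_closure hST) _ : I0 _ ≤ I0 _) hS
  obtain ⟨u, hu, hu'⟩ := (wang_fin T hT b z hz this).2 hw
  obtain ⟨u', h1, h2, h3⟩ := exists_cycle (io_sq ℚ) (wd_mem_ex (io_sq ℚ) hu)
  refine ⟨u - u', sub_mem hu h1, ?_, by rw [map_sub, h3, sub_self]⟩
  have : z - bd (u - u') = (z - bd u) + bd u' := by rw [map_sub]; abel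
  rw [this]
  exact add_mem (I_le_I0 (I_mono (Set.subset_univ _) hu')) h2

end Wang

end

end Pool.Agent.P.MP_7b53ad_ag.Trop
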